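import Pool.Agent.Lib.MP_66cd2e_lc.DG.Def

/-!
The closure of a local monotone function.
-/

set_option autoImplicit false

namespace Pool.Agent.DG

open Finset

variable {k q m : ℕ}

theorem res_mono (Z : Finset (Rw k q)) {x y : Mt k q m} (h : Le x y) : Le (res Z x) (res Z y) := by
  intro a b hab
  unfold res at hab ⊢
  rw [Bool.and_eq_true] at hab ⊢
  exact ⟨hab.1, h a b hab.2⟩

theorem mix_mono (Z : Finset (Rw k q)) {x x' : Mt k q m} (y : Mt k q m) (h : Le x x') :
    Le (mix Z x y) (mix Z x' y) := by
  intro a b hab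
  by_cases ha : a ∈ Z
  · rw [mix_in ha] at hab ⊢
    exact h a b hab
  · rw [mix_out ha] at hab ⊢
    exact hab

theorem mix_res (K : Finset (Rw k q)) (x y : Mt k q m) : mix K (res K x) y = mix K x y := by
  funext a
  by_cases ha : a ∈ K
  · rw [mix_in ha, mix_in ha]
    funext b
    unfold res
    rw [decide_eq_true ha, Bool.true_and]
  · rw [mix_out ha, mix_out ha]

theorem res_mix (K : Finset (Rw k q)) (x y : Mt k q m) : res K (mix K x y) = res K x := by
  funext a b
  unfold res
  by_cases ha : a ∈ K
  · rw [mix_in ha]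
  · rw [decide_eq_false ha, Bool.false_and, Bool.false_and]

theorem phi_mono {E : ℕ} {f : Mt k q m → Prop} (hf : ∀ x y, Le x y → f x → f y)
    (K : Finset (Rw k q)) {x x' : Mt k q m} (h : Le x x') (hx : phi E f K x) : phi E f K x' := by
  classical
  unfold phi at hx ⊢
  refine le_trans (Nat.mul_le_mul_left E (card_le_card ?_)) hx
  intro y hy
  rw [mem_filter] at hy ⊢
  exact ⟨mem_univ _, fun h' => hy.2 (hf _ _ (mix_mono K y h) h')⟩

theorem phi_res {E : ℕ} {f : Mt k q m → Prop} (K : Finset (Rw k q)) (x : Mt k q m) :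
    phi E f K (res K x) ↔ phi E f K x := by
  classical
  unfold phi
  have h : univ.filter (fun y => ¬ f (mix K (res K x) y)) =
      univ.filter (fun y => ¬ f (mix K x y)) := by
    ext y
    rw [mem_filter, mem_filter, mix_res]
  rw [h]

theorem phi_iff {E : ℕ} {f : Mt k q m → Prop} {K : Finset (Rw k q)} {x : Mt k q m}
    (s : Finset (Mt k q m)) (hs : ∀ y, y ∈ s ↔ ¬ f (mix K x y)) :
    phi E f K x ↔ E * s.card ≤ Fintype.card (Mt k q m) := by
  classical
  unfold phi
  have h : univ.filter (fun y => ¬ f (mix K x y)) = s := by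
    ext y
    rw [mem_filter, hs]
    exact ⟨fun h => h.2, fun h => ⟨mem_univ _, h⟩⟩
  rw [h]

theorem closed_of {l E H : ℕ} {f : Mt k q m → Prop}
    (h : ∀ (K : Finset (Rw k q)) (x : Mt k q m), ¬ f x → ¬ phi E f K x) : Closed l E H f := by
  classical
  intro K _
  rw [filter_false_of_mem (fun c _ hc => h K _ hc.1 hc.2), card_empty, mul_zero]
  exact Nat.zero_le _

open Classical in
/-- the new negative tests in one step -/
theorem step_error {E : ℕ} (f : Mt k q m → Prop) (K : Finset (Rw k q)) :
    E * (univ.filter (fun y => phi E f K y ∧ ¬ f y)).card ≤ Fintype.card (Mt k q m) := by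
  have h0 : 0 < Fintype.card (Mt k q m) := Fintype.card_pos_iff.mpr ⟨fun _ _ => false⟩
  have h1 : Fintype.card (Mt k q m) * (univ.filter (fun y => phi E f K y ∧ ¬ f y)).card =
      ∑ x : Mt k q m, (univ.filter (fun y : Mt k q m => phi E f K x ∧ ¬ f (mix K x y))).card := by
    have h2 := sum_mix (W := Fin m → Bool) K
      (fun x (_ : Mt k q m) => if phi E f K x ∧ ¬ f x then (1 : ℕ) else 0)
    have h3 : ∀ x y : Mt k q m, phi E f K (mix K x y) ↔ phi E f K x := by
      intro x y
      rw [← phi_res K (mix K x y), res_mix, phi_res]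
    have h4 : ∑ x : Mt k q m, ∑ _y : Mt k q m, (if phi E f K x ∧ ¬ f x then (1 : ℕ) else 0) =
        Fintype.card (Mt k q m) * (univ.filter (fun y => phi E f K y ∧ ¬ f y)).card := by
      rw [sum_congr rfl (fun x _ => by rw [sum_const, card_univ, smul_eq_mul]), ← mul_sum,
        card_filter]
    rw [← h4, ← h2]
    refine sum_congr rfl fun x _ => ?_
    rw [card_filter]
    refine sum_congr rfl fun y _ => ?_
    simp only [h3]
  have h2 : E * (Fintype.card (Mt k q m) *
      (univ.filter (fun y => phi E f K y ∧ ¬ f y)).card) ≤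
      Fintype.card (Mt k q m) * Fintype.card (Mt k q m) := by
    rw [h1, mul_sum]
    refine le_trans (sum_le_card_nsmul univ _ (Fintype.card (Mt k q m)) ?_) ?_
    · intro x _
      by_cases hx : phi E f K x
      · have h3 : univ.filter (fun y : Mt k q m => phi E f K x ∧ ¬ f (mix K x y)) =
            univ.filter (fun y : Mt k q m => ¬ f (mix K x y)) := by
          ext y
          simp [hx]
        rw [h3]
        exact hx
      · have h3 : univ.filter (fun y : Mt k q m => phi E f K x ∧ ¬ f (mix K x y)) = ∅ := by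
          ext y
          simp [hx]
        rw [h3, card_empty, mul_zero]
        exact Nat.zero_le _
    · rw [card_univ, smul_eq_mul]
  refine Nat.le_of_mul_le_mul_left ?_ h0
  calc Fintype.card (Mt k q m) * (E * (univ.filter (fun y => phi E f K y ∧ ¬ f y)).card)
      = E * (Fintype.card (Mt k q m) * (univ.filter (fun y => phi E f K y ∧ ¬ f y)).card) := by
        ring
    _ ≤ _ := h2

open Classical in
/-- the potential -/
noncomputable def Psi (l : ℕ) (f : Mt k q m → Prop) : ℕ :=
  ∑ K ∈ terms k q l, (univ.filter (fun c : Fin m → Fin k => f (pat K c))).card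

theorem Psi_le (l : ℕ) (f : Mt k q m → Prop) :
    Psi l f ≤ (terms k q l).card * Fintype.card (Fin m → Fin k) := by
  classical
  unfold Psi
  refine le_trans (sum_le_card_nsmul _ _ (Fintype.card (Fin m → Fin k)) ?_) ?_
  · intro K _
    exact card_le_univ _
  · rw [smul_eq_mul]

theorem mem_terms {l : ℕ} {Z : Finset (Rw k q)} : Z ∈ terms k q l ↔ Term l Z := by
  classical
  unfold terms
  rw [mem_filter]
  exact ⟨fun h => h.2, fun h => ⟨mem_univ _, h⟩⟩

/-- one step of the closure -/
def st (E : ℕ) (g : Mt k q m → Prop) (K : Finset (Rw k q)) : Mt k q m → Prop :=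
  fun x => g x ∨ phi E g K x

theorem loc_step {l E : ℕ} {g : Mt k q m → Prop} (hg : Loc l g) {K : Finset (Rw k q)}
    (hK : Term l K) : Loc l (st E g K) where
  mono := fun x y h hx => hx.imp (hg.mono x y h) (phi_mono hg.mono K h)
  loc := by
    rintro x (hx | hx)
    · obtain ⟨Z, hZ, h⟩ := hg.loc x hx
      exact ⟨Z, hZ, Or.inl h⟩
    · exact ⟨K, hK, Or.inr ((phi_res K x).mpr hx)⟩

open Classical in
theorem Psi_step {l E : ℕ} (g : Mt k q m → Prop) {K : Finset (Rw k q)} (hK : Term l K) :
    Psi l g + (univ.filter (fun c : Fin m → Fin k =>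
      ¬ g (pat K c) ∧ phi E g K (pat K c))).card ≤ Psi l (st E g K) := by
  unfold Psi
  rw [← add_sum_erase _ _ (mem_terms.mpr hK), ← add_sum_erase _ _ (mem_terms.mpr hK)]
  have h1 : (univ.filter (fun c : Fin m → Fin k => g (pat K c))).card +
      (univ.filter (fun c : Fin m → Fin k => ¬ g (pat K c) ∧ phi E g K (pat K c))).card ≤
      (univ.filter (fun c : Fin m → Fin k => st E g K (pat K c))).card := by
    rw [← card_union_of_disjoint]
    · refine card_le_card fun c hc => ?_
      rw [mem_union, mem_filter, mem_filter] at hc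
      rw [mem_filter]
      rcases hc with hc | hc
      · exact ⟨mem_univ _, Or.inl hc.2⟩
      · exact ⟨mem_univ _, Or.inr hc.2.2⟩
    · rw [disjoint_filter]
      exact fun c _ h h' => h'.1 h
  have h2 : ∑ Z ∈ (terms k q l).erase K,
      (univ.filter (fun c : Fin m → Fin k => g (pat Z c))).card ≤
      ∑ Z ∈ (terms k q l).erase K,
        (univ.filter (fun c : Fin m → Fin k => st E g K (pat Z c))).card := by
    refine sum_le_sum fun Z _ => card_le_card fun c hc => ?_
    rw [mem_filter] at hc ⊢
    exact ⟨hc.1, Or.inl hc.2⟩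
  omega

open Classical in
theorem exists_closure {l E H : ℕ} (hk : 0 < k) (hE : 0 < E) (hH : 0 < H)
    (f : Mt k q m → Prop) (hf : Loc l f) :
    ∃ g : Mt k q m → Prop, Loc l g ∧ (∀ x, f x → g x) ∧ Closed l E H g ∧
      E * (univ.filter (fun y => g y ∧ ¬ f y)).card ≤
        H * (terms k q l).card * Fintype.card (Mt k q m) := by
  have hC0 : 0 < Fintype.card (Fin m → Fin k) := Fintype.card_pos_iff.mpr ⟨fun _ => ⟨0, hk⟩⟩
  let G : Set (Mt k q m → Prop) := {g | Loc l g ∧ (∀ x, f x → g x) ∧
    E * (univ.filter (fun y => g y ∧ ¬ f y)).card * Fintype.card (Fin m → Fin k) +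
      H * Psi l f * Fintype.card (Mt k q m) ≤ H * Psi l g * Fintype.card (Mt k q m)}
  have hfG : f ∈ G := by
    refine ⟨hf, fun _ h => h, ?_⟩
    rw [filter_false_of_mem (fun y _ hy => hy.2 hy.1), card_empty, mul_zero, zero_mul, zero_add]
  obtain ⟨g, hg, hmax⟩ : ∃ g ∈ G, ∀ g' ∈ G, Psi l g' ≤ Psi l g := by
    have hb : BddAbove (Psi l '' G) := by
      refine ⟨(terms k q l).card * Fintype.card (Fin m → Fin k), ?_⟩
      rintro _ ⟨g, _, rfl⟩
      exact Psi_le l g
    have hne : (Psi l '' G).Nonempty := ⟨_, f, hfG, rfl⟩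
    obtain ⟨g, hg, hg'⟩ := Nat.sSup_mem hne hb
    exact ⟨g, hg, fun g' hg'' => by rw [hg']; exact le_csSup hb ⟨g', hg'', rfl⟩⟩
  refine ⟨g, hg.1, hg.2.1, ?_, ?_⟩
  · intro K hK
    by_contra hcon
    rw [not_le] at hcon
    have hPsi := Psi_step (E := E) g hK
    have herr := step_error (E := E) g K
    have hun : (univ.filter (fun y => st E g K y ∧ ¬ f y)).card ≤
        (univ.filter (fun y => g y ∧ ¬ f y)).card +
          (univ.filter (fun y => phi E g K y ∧ ¬ g y)).card := by
      refine le_trans (card_le_card fun y hy => ?_) (card_union_le _ _)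
      rw [mem_filter] at hy
      rw [mem_union, mem_filter, mem_filter]
      by_cases hgy : g y
      · exact Or.inl ⟨hy.1, hgy, hy.2.2⟩
      · exact Or.inr ⟨hy.1, hy.2.1.resolve_left hgy, hgy⟩
    have hg'G : st E g K ∈ G := by
      refine ⟨loc_step hg.1 hK, fun x h => Or.inl (hg.2.1 x h), ?_⟩
      have h3 := hg.2.2
      calc E * (univ.filter (fun y => st E g K y ∧ ¬ f y)).card *
            Fintype.card (Fin m → Fin k) + H * Psi l f * Fintype.card (Mt k q m)
          ≤ E * ((univ.filter (fun y => g y ∧ ¬ f y)).card +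
              (univ.filter (fun y => phi E g K y ∧ ¬ g y)).card) *
            Fintype.card (Fin m → Fin k) + H * Psi l f * Fintype.card (Mt k q m) := by
            gcongr
        _ = (E * (univ.filter (fun y => g y ∧ ¬ f y)).card * Fintype.card (Fin m → Fin k) +
              H * Psi l f * Fintype.card (Mt k q m)) +
            (E * (univ.filter (fun y => phi E g K y ∧ ¬ g y)).card) *
              Fintype.card (Fin m → Fin k) := by ring
        _ ≤ H * Psi l g * Fintype.card (Mt k q m) + Fintype.card (Mt k q m) *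
              (H * (univ.filter (fun c : Fin m → Fin k =>
                ¬ g (pat K c) ∧ phi E g K (pat K c))).card) := by
            gcongr
        _ = H * (Psi l g + (univ.filter (fun c : Fin m → Fin k =>
                ¬ g (pat K c) ∧ phi E g K (pat K c))).card) *
              Fintype.card (Mt k q m) := by ring
        _ ≤ _ := by gcongr
    have h4 := hmax _ hg'G
    have h5 : (univ.filter (fun c : Fin m → Fin k =>
        ¬ g (pat K c) ∧ phi E g K (pat K c))).card = 0 := by omega
    rw [h5, mul_zero] at hcon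
    exact absurd hcon (Nat.not_lt_zero _)
  · have h3 := hg.2.2
    refine Nat.le_of_mul_le_mul_right ?_ hC0
    calc E * (univ.filter (fun y => g y ∧ ¬ f y)).card * Fintype.card (Fin m → Fin k)
        ≤ H * Psi l g * Fintype.card (Mt k q m) := le_trans (Nat.le_add_right _ _) h3
      _ ≤ H * ((terms k q l).card * Fintype.card (Fin m → Fin k)) *
          Fintype.card (Mt k q m) := by
          have := Psi_le l g
          gcongr
      _ = _ := by ring

/-- the variables are local and closed -/
theorem loc_var {l : ℕ} (hl : 1 ≤ l) (a : Rw k q) (b : Fin m) :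
    Loc l (fun x : Mt k q m => x a b = true) where
  mono := fun x y h hx => h a b hx
  loc := by
    intro x hx
    refine ⟨{a}, ⟨by rw [card_singleton]; exact hl, ?_⟩, ?_⟩
    · intro c hc d hd _
      rw [mem_singleton] at hc hd
      rw [hc, hd]
    · unfold res
      rw [decide_eq_true (mem_singleton_self a), Bool.true_and]
      exact hx

theorem card_false (a : Rw k q) (b : Fin m) :
    2 * (univ.filter (fun y : Mt k q m => ¬ y a b = true)).card = Fintype.card (Mt k q m) := by
  classical
  have h1 : (univ.filter (fun y : Mt k q m => y a b = true)).card =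
      (univ.filter (fun y : Mt k q m => ¬ y a b = true)).card := by
    refine card_bij' (fun y _ => Function.update y a (Function.update (y a) b false))
      (fun y _ => Function.update y a (Function.update (y a) b true)) ?_ ?_ ?_ ?_
    · intro y hy
      rw [mem_filter]
      refine ⟨mem_univ _, ?_⟩
      rw [Function.update_self, Function.update_self]
      decide
    · intro y hy
      rw [mem_filter]
      refine ⟨mem_univ _, ?_⟩
      rw [Function.update_self, Function.update_self]
    · intro y hy
      rw [mem_filter] at hy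
      rw [Function.update_idem, Function.update_self, Function.update_idem]
      conv_rhs => rw [← Function.update_eq_self a y, ← Function.update_eq_self b (y a)]
      rw [hy.2]
    · intro y hy
      rw [mem_filter, Bool.not_eq_true] at hy
      rw [Function.update_idem, Function.update_self, Function.update_idem]
      conv_rhs => rw [← Function.update_eq_self a y, ← Function.update_eq_self b (y a)]
      rw [hy.2]
  have h2 := card_filter_add_card_filter_not (s := (univ : Finset (Mt k q m)))
    (fun y : Mt k q m => y a b = true)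
  rw [h1, card_univ] at h2
  omega

theorem not_phi_of {E : ℕ} {f : Mt k q m → Prop} {K : Finset (Rw k q)} {x : Mt k q m}
    (hE : 2 ≤ E) (h : ∀ y, ¬ f (mix K x y)) : ¬ phi E f K x := by
  classical
  unfold phi
  have h0 : 0 < Fintype.card (Mt k q m) := Fintype.card_pos_iff.mpr ⟨fun _ _ => false⟩
  rw [filter_true_of_mem (fun y _ => h y), card_univ, not_le]
  calc Fintype.card (Mt k q m) < 2 * Fintype.card (Mt k q m) := by omega
    _ ≤ _ := Nat.mul_le_mul_right _ hE

theorem closed_var {l E H : ℕ} (hE : 3 ≤ E) (a : Rw k q) (b : Fin m) :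
    Closed l E H (fun x : Mt k q m => x a b = true) := by
  intro K hK
  have h0 : 0 < Fintype.card (Mt k q m) := Fintype.card_pos_iff.mpr ⟨fun _ _ => false⟩
  have h1 : ∀ (K : Finset (Rw k q)) (x : Mt k q m), ¬ x a b = true →
      ¬ phi E (fun x : Mt k q m => x a b = true) K x := by
    intro K x hx
    by_cases ha : a ∈ K
    · refine not_phi_of (by omega) fun y => ?_
      rw [mix_in ha]
      exact hx
    · rw [phi_iff (univ.filter (fun y : Mt k q m => ¬ y a b = true)) (fun y => by
        rw [mem_filter]
        rw [mix_out ha]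
        exact ⟨fun h => h.2, fun h => ⟨mem_univ _, h⟩⟩), not_le]
      have h3 := card_false (k := k) (q := q) (m := m) a b
      have h4 := Nat.mul_le_mul_right (univ.filter (fun y : Mt k q m => ¬ y a b = true)).card hE
      omega
  exact closed_of (fun K x hx => h1 K x hx) K hK

theorem loc_const {l : ℕ} (p : Prop) : Loc l (fun _ : Mt k q m => p) where
  mono := fun _ _ _ h => h
  loc := fun _ h => ⟨∅, ⟨by rw [card_empty]; exact Nat.zero_le _, fun a ha => (notMem_empty a ha).elim⟩,
    h⟩

theorem closed_const {l E H : ℕ} (hE : 2 ≤ E) (p : Prop) :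
    Closed l E H (fun _ : Mt k q m => p) :=
  closed_of fun _ _ h => not_phi_of hE fun _ => h

theorem loc_or {l : ℕ} {f g : Mt k q m → Prop} (hf : Loc l f) (hg : Loc l g) :
    Loc l (fun x => f x ∨ g x) where
  mono := fun x y h hx => hx.imp (hf.mono x y h) (hg.mono x y h)
  loc := by
    rintro x (hx | hx)
    · obtain ⟨Z, hZ, h⟩ := hf.loc x hx
      exact ⟨Z, hZ, Or.inl h⟩
    · obtain ⟨Z, hZ, h⟩ := hg.loc x hx
      exact ⟨Z, hZ, Or.inr h⟩

theorem loc_and {l : ℕ} {f g : Mt k q m → Prop} (hf : Loc l f) (hg : Loc l g) :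
    Loc l (fun x => ∃ Z, Term l Z ∧ f (res Z x) ∧ g (res Z x)) where
  mono := by
    rintro x y h ⟨Z, hZ, h1, h2⟩
    exact ⟨Z, hZ, hf.mono _ _ (res_mono Z h) h1, hg.mono _ _ (res_mono Z h) h2⟩
  loc := by
    rintro x ⟨Z, hZ, h1, h2⟩
    refine ⟨Z, hZ, Z, hZ, ?_, ?_⟩
    · rw [res_res (Subset.refl Z)]; exact h1
    · rw [res_res (Subset.refl Z)]; exact h2

end Pool.Agent.DG
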