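import Pool.Agent.Lib.MP_66cd2e_lc.DG.Def

/-!
The rows of a random matrix restricted to colour classes have the distribution of a planted
cover.
-/

set_option autoImplicit false

namespace Pool.Agent.DG

open Finset

variable {k q m : ℕ}

theorem exists_partner (I : Finset (Fin k)) (h : 2 * I.card ≤ k) : ∃ pi, Partner I pi := by
  have h1 : I.card ≤ (Iᶜ).card := by
    rw [card_compl, Fintype.card_fin]
    omega
  obtain ⟨J, hJ, hc⟩ := exists_subset_card_eq h1
  have e : I ≃ J := Fintype.equivOfCardEq (by simp [hc])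
  refine ⟨fun i => if hi : i ∈ I then (e ⟨i, hi⟩ : Fin k) else i, ?_, ?_⟩
  · intro i hi j hj hij
    simp only [hi, hj, dif_pos] at hij
    have := e.injective (Subtype.ext hij)
    exact congrArg Subtype.val this
  · intro i hi
    simp only [hi, dif_pos]
    have := hJ (e ⟨i, hi⟩).2
    exact mem_compl.1 this

/-- the row `a` of `Z` sees the colour `v` -/
def Hit (pi : Fin k → Fin k) (Z : Finset (Rw k q)) (v : Fin k) (a : Rw k q) : Prop :=
  a ∈ Z ∧ (v = a.1 ∨ v = pi a.1)

theorem hit_unique {I : Finset (Fin k)} {pi : Fin k → Fin k} (hpi : Partner I pi)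
    {Z : Finset (Rw k q)} (hZ : Z ∈ tr k q I) {v : Fin k} {a a' : Rw k q}
    (h : Hit pi Z v a) (h' : Hit pi Z v a') : a = a' := by
  classical
  unfold tr at hZ
  rw [mem_filter] at hZ
  obtain ⟨-, hZ1, hZ2⟩ := hZ
  have ha : a.1 ∈ I := by
    rw [← hZ2]
    exact mem_image_of_mem _ h.1
  have ha' : a'.1 ∈ I := by
    rw [← hZ2]
    exact mem_image_of_mem _ h'.1
  apply hZ1 a h.1 a' h'.1
  rcases h.2 with h1 | h1 <;> rcases h'.2 with h2 | h2
  · exact h1.symm.trans h2
  · exfalso
    apply hpi.out _ ha'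
    rw [← h2, h1]
    exact ha
  · exfalso
    apply hpi.out _ ha
    rw [← h1, h2]
    exact ha'
  · exact hpi.inj _ ha _ ha' (h1.symm.trans h2)

open Classical in
/-- exchange of the colour bit and the bit of the matrix -/
noncomputable def sw (pi : Fin k → Fin k) (Z : Finset (Rw k q))
    (p : (Fin m → Fin k) × Mt k q m) : (Fin m → Fin k) × Mt k q m :=
  (fun b => if h : ∃ a, Hit pi Z (p.1 b) a then
      (if p.2 h.choose b = true then h.choose.1 else pi h.choose.1) else p.1 b,
   fun a b => if Hit pi Z (p.1 b) a then decide (p.1 b = a.1) else p.2 a b)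

theorem sw_fst_hit {I : Finset (Fin k)} {pi : Fin k → Fin k} (hpi : Partner I pi)
    {Z : Finset (Rw k q)} (hZ : Z ∈ tr k q I) (p : (Fin m → Fin k) × Mt k q m) {b : Fin m}
    {a : Rw k q} (h : Hit pi Z (p.1 b) a) :
    (sw pi Z p).1 b = if p.2 a b = true then a.1 else pi a.1 := by
  have he : ∃ a, Hit pi Z (p.1 b) a := ⟨a, h⟩
  have hc : he.choose = a := hit_unique hpi hZ he.choose_spec h
  unfold sw
  simp only [dif_pos he, hc]

theorem sw_fst_not {pi : Fin k → Fin k} {Z : Finset (Rw k q)}
    (p : (Fin m → Fin k) × Mt k q m) {b : Fin m} (h : ¬ ∃ a, Hit pi Z (p.1 b) a) :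
    (sw pi Z p).1 b = p.1 b := by
  unfold sw
  simp only [dif_neg h]

theorem sw_snd_hit {pi : Fin k → Fin k} {Z : Finset (Rw k q)}
    (p : (Fin m → Fin k) × Mt k q m) {b : Fin m} {a : Rw k q} (h : Hit pi Z (p.1 b) a) :
    (sw pi Z p).2 a b = decide (p.1 b = a.1) := by
  unfold sw
  simp only [if_pos h]

theorem sw_snd_not {pi : Fin k → Fin k} {Z : Finset (Rw k q)}
    (p : (Fin m → Fin k) × Mt k q m) {b : Fin m} {a : Rw k q} (h : ¬ Hit pi Z (p.1 b) a) :
    (sw pi Z p).2 a b = p.2 a b := by
  unfold sw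
  simp only [if_neg h]

theorem pi_ne {I : Finset (Fin k)} {pi : Fin k → Fin k} (hpi : Partner I pi)
    {Z : Finset (Rw k q)} (hZ : Z ∈ tr k q I) {a a' : Rw k q} (h : a ∈ Z) (h' : a' ∈ Z) :
    pi a.1 ≠ a'.1 := by
  classical
  unfold tr at hZ
  rw [mem_filter] at hZ
  obtain ⟨-, -, hZ2⟩ := hZ
  intro he
  have ha : a.1 ∈ I := by
    rw [← hZ2]
    exact mem_image_of_mem _ h
  have ha' : a'.1 ∈ I := by
    rw [← hZ2]
    exact mem_image_of_mem _ h'
  apply hpi.out _ ha
  rw [he]
  exact ha'

theorem sw_invol {I : Finset (Fin k)} {pi : Fin k → Fin k} (hpi : Partner I pi)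
    {Z : Finset (Rw k q)} (hZ : Z ∈ tr k q I) :
    Function.Involutive (sw (m := m) pi Z) := by
  intro p
  apply Prod.ext
  · funext b
    by_cases h : ∃ a, Hit pi Z (p.1 b) a
    · obtain ⟨a, ha⟩ := h
      have h1 := sw_fst_hit hpi hZ p ha
      have h2 : Hit pi Z ((sw pi Z p).1 b) a := by
        refine ⟨ha.1, ?_⟩
        rw [h1]
        split_ifs
        · exact Or.inl rfl
        · exact Or.inr rfl
      rw [sw_fst_hit hpi hZ _ h2, sw_snd_hit p ha]
      by_cases hb : p.1 b = a.1
      · simp [hb]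
      · simp only [hb, decide_false, Bool.false_eq_true, if_false]
        rcases ha.2 with h3 | h3
        · exact absurd h3 hb
        · exact h3.symm
    · have h1 := sw_fst_not p h
      have h2 : ¬ ∃ a, Hit pi Z ((sw pi Z p).1 b) a := by
        rw [h1]
        exact h
      rw [sw_fst_not _ h2, h1]
  · funext a b
    by_cases h : Hit pi Z (p.1 b) a
    · have h1 := sw_fst_hit hpi hZ p h
      have h2 : Hit pi Z ((sw pi Z p).1 b) a := by
        refine ⟨h.1, ?_⟩
        rw [h1]
        split_ifs
        · exact Or.inl rfl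
        · exact Or.inr rfl
      rw [sw_snd_hit _ h2, h1]
      by_cases hb : p.2 a b = true
      · simp [hb]
      · have hn := pi_ne hpi hZ h.1 h.1
        simp [hb, hn]
    · have h2 : ¬ Hit pi Z ((sw pi Z p).1 b) a := by
        intro hh
        by_cases he : ∃ a', Hit pi Z (p.1 b) a'
        · obtain ⟨a', ha'⟩ := he
          have h1 := sw_fst_hit hpi hZ p ha'
          have h3 : Hit pi Z ((sw pi Z p).1 b) a' := by
            refine ⟨ha'.1, ?_⟩
            rw [h1]
            split_ifs
            · exact Or.inl rfl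
            · exact Or.inr rfl
          have := hit_unique hpi hZ hh h3
          rw [this] at h
          exact h ha'
        · rw [sw_fst_not p he] at hh
          exact h hh
      rw [sw_snd_not _ h2, sw_snd_not _ h]

theorem pat_sw {I : Finset (Fin k)} {pi : Fin k → Fin k} (hpi : Partner I pi)
    {Z : Finset (Rw k q)} (hZ : Z ∈ tr k q I) (p : (Fin m → Fin k) × Mt k q m) :
    pat Z (sw pi Z p).1 = dp pi p.1 Z p.2 := by
  funext a b
  unfold pat dp
  by_cases ha : a ∈ Z
  · simp only [ha, decide_true, Bool.true_and]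
    by_cases h : Hit pi Z (p.1 b) a
    · rw [sw_fst_hit hpi hZ p h]
      have hd : decide (p.1 b = a.1 ∨ p.1 b = pi a.1) = true := decide_eq_true h.2
      rw [hd, Bool.true_and]
      by_cases hb : p.2 a b = true
      · simp [hb]
      · have hn := pi_ne hpi hZ h.1 h.1
        simp [hb, hn]
    · have hd : decide (p.1 b = a.1 ∨ p.1 b = pi a.1) = false := by
        apply decide_eq_false
        intro h1
        exact h ⟨ha, h1⟩
      rw [hd, Bool.false_and]
      apply decide_eq_false
      intro h1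
      apply h
      have hh : Hit pi Z ((sw pi Z p).1 b) a := ⟨ha, Or.inl h1⟩
      by_cases he : ∃ a', Hit pi Z (p.1 b) a'
      · obtain ⟨a', ha'⟩ := he
        have h3 : Hit pi Z ((sw pi Z p).1 b) a' := by
          refine ⟨ha'.1, ?_⟩
          rw [sw_fst_hit hpi hZ p ha']
          split_ifs
          · exact Or.inl rfl
          · exact Or.inr rfl
        have := hit_unique hpi hZ hh h3
        rw [this]
        exact ha'
      · rw [sw_fst_not p he] at hh
        exact hh
  · simp [ha]

open Classical in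
theorem coupling {I : Finset (Fin k)} {pi : Fin k → Fin k} (hpi : Partner I pi)
    {Z : Finset (Rw k q)} (hZ : Z ∈ tr k q I) (P : Mt k q m → Prop) :
    ∑ C : Fin m → Fin k, (univ.filter (fun y => P (dp pi C Z y))).card =
      (univ.filter (fun c : Fin m → Fin k => P (pat Z c))).card * Fintype.card (Mt k q m) := by
  have h1 : ∑ C : Fin m → Fin k, (univ.filter (fun y => P (dp pi C Z y))).card =
      ∑ p : (Fin m → Fin k) × Mt k q m, if P (dp pi p.1 Z p.2) then 1 else 0 := by
    rw [Fintype.sum_prod_type]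
    exact sum_congr rfl (fun C _ => by rw [card_filter])
  have h2 : (univ.filter (fun c : Fin m → Fin k => P (pat Z c))).card *
      Fintype.card (Mt k q m) =
      ∑ p : (Fin m → Fin k) × Mt k q m, if P (pat Z p.1) then 1 else 0 := by
    rw [Fintype.sum_prod_type, card_filter, sum_mul]
    refine sum_congr rfl (fun c _ => ?_)
    by_cases h : P (pat Z c)
    · simp [h, card_univ]
    · simp [h]
  have h4 : ∑ p : (Fin m → Fin k) × Mt k q m, (if P (dp pi (sw pi Z p).1 Z (sw pi Z p).2)
      then 1 else 0) = ∑ p : (Fin m → Fin k) × Mt k q m,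
      if P (dp pi p.1 Z p.2) then 1 else 0 :=
    Equiv.sum_comp (Function.Involutive.toPerm (sw pi Z) (sw_invol (m := m) hpi hZ))
      (fun p => if P (dp pi p.1 Z p.2) then 1 else 0)
  rw [h1, h2, ← h4]
  refine sum_congr rfl (fun p _ => ?_)
  rw [← pat_sw hpi hZ (sw pi Z p), sw_invol hpi hZ p]

end Pool.Agent.DG
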