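import Pool.Agent.Lib.MP_66cd2e_lc.DG.Mix

/-!
Planted covers of the columns by one row in each of `k` groups of rows, local monotone
functions, closed functions.
-/

set_option autoImplicit false

namespace Pool.Agent.DG

open Finset

/-- the rows: `k` groups of `q` rows -/
abbrev Rw (k q : ℕ) : Type := Fin k × Fin q

/-- the matrices with `m` columns -/
abbrev Mt (k q m : ℕ) : Type := Rw k q → Fin m → Bool

variable {k q m : ℕ}

/-- the entrywise order -/
def Le (x y : Mt k q m) : Prop := ∀ a b, x a b = true → y a b = true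

/-- the rows outside `Z` are erased -/
def res (Z : Finset (Rw k q)) (x : Mt k q m) : Mt k q m := fun a b => decide (a ∈ Z) && x a b

/-- a term: at most `l` rows, at most one in each group -/
def Term (l : ℕ) (Z : Finset (Rw k q)) : Prop :=
  Z.card ≤ l ∧ ∀ a ∈ Z, ∀ b ∈ Z, a.1 = b.1 → a = b

open Classical in
/-- the terms -/
noncomputable def terms (k q l : ℕ) : Finset (Finset (Rw k q)) :=
  univ.filter (fun Z => Term l Z)

/-- the part on the rows `Z` of the planted cover with the colouring `c` of the columns -/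
def pat (Z : Finset (Rw k q)) (c : Fin m → Fin k) : Mt k q m :=
  fun a b => decide (a ∈ Z) && decide (c b = a.1)

/-- the rows of a transversal -/
def gr (s : Fin k → Fin q) : Finset (Rw k q) := univ.image (fun i => (i, s i))

/-- local monotone functions -/
structure Loc (l : ℕ) (f : Mt k q m → Prop) : Prop where
  mono : ∀ x y, Le x y → f x → f y
  loc : ∀ x, f x → ∃ Z, Term l Z ∧ f (res Z x)

open Classical in
/-- given the rows `K` of `x`, at most the fraction `1 / E` of the other rows fail -/
def phi (E : ℕ) (f : Mt k q m → Prop) (K : Finset (Rw k q)) (x : Mt k q m) : Prop :=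
  E * (univ.filter (fun y => ¬ f (mix K x y))).card ≤ Fintype.card (Mt k q m)

open Classical in
/-- closed up to the fraction `1 / H` of the colourings -/
def Closed (l E H : ℕ) (f : Mt k q m → Prop) : Prop :=
  ∀ K : Finset (Rw k q), Term l K → H * (univ.filter (fun c : Fin m → Fin k =>
    ¬ f (pat K c) ∧ phi E f K (pat K c))).card ≤ Fintype.card (Fin m → Fin k)

/-- a partner map for a set of groups -/
structure Partner (I : Finset (Fin k)) (pi : Fin k → Fin k) : Prop where
  inj : ∀ i ∈ I, ∀ j ∈ I, pi i = pi j → i = j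
  out : ∀ i ∈ I, pi i ∉ I

/-- the rows `Z` of `y`, the row `a` restricted to the columns with the colours `a.1` and
`pi a.1` -/
def dp (pi : Fin k → Fin k) (C : Fin m → Fin k) (Z : Finset (Rw k q)) (y : Mt k q m) :
    Mt k q m :=
  fun a b => decide (a ∈ Z) && (decide (C b = a.1 ∨ C b = pi a.1) && y a b)

open Classical in
/-- the terms with one row in each of the groups of `I` -/
noncomputable def tr (k q : ℕ) (I : Finset (Fin k)) : Finset (Finset (Rw k q)) :=
  univ.filter (fun Z => (∀ a ∈ Z, ∀ b ∈ Z, a.1 = b.1 → a = b) ∧ Z.image Prod.fst = I)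

/-- a good witness -/
def Wit (E : ℕ) (f : Mt k q m → Prop) (Z : Finset (Rw k q)) (x : Mt k q m) : Prop :=
  f (res Z x) ∧ ∀ K, K ⊂ Z → ¬ phi E f K (res K x)

open Classical in
/-- the number of good witnesses over the rows `K` -/
noncomputable def lam (E : ℕ) (f : Mt k q m → Prop) (pi : Fin k → Fin k) (C : Fin m → Fin k)
    (I : Finset (Fin k)) (K : Finset (Rw k q)) (y : Mt k q m) : ℕ :=
  ∑ Z ∈ (tr k q I).filter (fun Z => K ⊆ Z),
    (univ.filter (fun y' => Wit E f Z (dp pi C Z (mix K y y')))).card

/-- the positive tests -/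
def px (p : (Fin k → Fin q) × (Fin m → Fin k)) (e : Rw k q × Fin m) : Bool :=
  decide (p.1 e.1.1 = e.1.2 ∧ p.2 e.2 = e.1.1)

/-- the negative tests -/
def py (y : Mt k q m) (e : Rw k q × Fin m) : Bool := y e.1 e.2

theorem pat_res {Z K : Finset (Rw k q)} (h : K ⊆ Z) (c : Fin m → Fin k) :
    res K (pat Z c) = pat K c := by
  funext a b
  unfold res pat
  by_cases h1 : a ∈ K
  · simp [h1, h h1]
  · simp [h1]

theorem dp_res {pi : Fin k → Fin k} {C : Fin m → Fin k} {Z K : Finset (Rw k q)} (h : K ⊆ Z)
    (y : Mt k q m) : res K (dp pi C Z y) = dp pi C K y := by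
  funext a b
  unfold res dp
  by_cases h1 : a ∈ K
  · simp [h1, h h1]
  · simp [h1]

theorem res_res {Z K : Finset (Rw k q)} (h : K ⊆ Z) (x : Mt k q m) :
    res K (res Z x) = res K x := by
  funext a b
  unfold res
  by_cases h1 : a ∈ K
  · simp [h1, h h1]
  · simp [h1]

theorem res_le (Z : Finset (Rw k q)) (x : Mt k q m) : Le (res Z x) x := by
  intro a b h
  unfold res at h
  rw [Bool.and_eq_true] at h
  exact h.2

theorem mem_gr {s : Fin k → Fin q} {a : Rw k q} : a ∈ gr s ↔ s a.1 = a.2 := by
  unfold gr
  rw [mem_image]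
  constructor
  · rintro ⟨i, _, rfl⟩
    rfl
  · intro h
    exact ⟨a.1, mem_univ _, Prod.ext rfl h⟩

end Pool.Agent.DG
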