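import Pool.Agent.Lib.MP_66cd2e_lc.DN.Num

/-!
The choice of the parameters.
-/

set_option autoImplicit false

namespace Pool.Agent.DG

open Pool.Agent.DN (growth3 two_rpow_le)

/-- the union bound -/
theorem num_union {A Λ d n : ℕ} {x : ℝ} (hA : A ≤ n) (hn : (n : ℝ) = (2 : ℝ) ^ x)
    (hx : 1 ≤ x) (hd : (n : ℝ) ≤ 4 * d) (hΛ : (2 : ℝ) ^ Λ * (16 * x ^ 2) ≤ n)
    (hΛx : (Λ : ℝ) ≤ x) : 4 * A ^ Λ * (2 ^ Λ - 1) ^ d ≤ (2 ^ Λ) ^ d := by
  have hp : (0 : ℝ) < (2 : ℝ) ^ Λ := by positivity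
  have hx0 : (0 : ℝ) ≤ x := by linarith
  have h1 : (2 : ℝ) ^ Λ - 1 ≤ (2 : ℝ) ^ Λ * Real.exp (-(1 / (2 : ℝ) ^ Λ)) := by
    have h2 := Real.one_sub_le_exp_neg (1 / (2 : ℝ) ^ Λ)
    have h3 := mul_le_mul_of_nonneg_left h2 hp.le
    have h4 : (2 : ℝ) ^ Λ * (1 - 1 / (2 : ℝ) ^ Λ) = (2 : ℝ) ^ Λ - 1 := by
      field_simp
    linarith
  have h0 : (0 : ℝ) ≤ (2 : ℝ) ^ Λ - 1 := by
    have : (1 : ℝ) ≤ (2 : ℝ) ^ Λ := one_le_pow₀ (by norm_num)
    linarith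
  have h5 : ((2 : ℝ) ^ Λ - 1) ^ d ≤ ((2 : ℝ) ^ Λ) ^ d * Real.exp (-(4 * x ^ 2)) := by
    calc ((2 : ℝ) ^ Λ - 1) ^ d ≤ ((2 : ℝ) ^ Λ * Real.exp (-(1 / (2 : ℝ) ^ Λ))) ^ d :=
          pow_le_pow_left₀ h0 h1 d
      _ = ((2 : ℝ) ^ Λ) ^ d * Real.exp (-(d / (2 : ℝ) ^ Λ)) := by
          rw [mul_pow, ← Real.exp_nat_mul]
          congr 2
          ring
      _ ≤ ((2 : ℝ) ^ Λ) ^ d * Real.exp (-(4 * x ^ 2)) := by
          refine mul_le_mul_of_nonneg_left (Real.exp_le_exp.2 (neg_le_neg ?_)) (by positivity)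
          rw [le_div_iff₀ hp]
          linarith
  have h6 : 4 * (A : ℝ) ^ Λ ≤ Real.exp (4 * x ^ 2) := by
    have h7 : (A : ℝ) ^ Λ ≤ (2 : ℝ) ^ (x * x) := by
      calc (A : ℝ) ^ Λ ≤ (n : ℝ) ^ Λ :=
            pow_le_pow_left₀ (Nat.cast_nonneg A) (by exact_mod_cast hA) Λ
        _ = (2 : ℝ) ^ (x * Λ) := by
            rw [hn, ← Real.rpow_natCast, ← Real.rpow_mul (by norm_num)]
        _ ≤ (2 : ℝ) ^ (x * x) := two_rpow_le (mul_le_mul_of_nonneg_left hΛx hx0)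
    have h8 : 4 * (2 : ℝ) ^ (x * x) = (2 : ℝ) ^ (2 + x * x) := by
      rw [Real.rpow_add (by norm_num)]
      norm_num
    have h9 : 1 ≤ x * x := by
      have := mul_le_mul hx hx (by norm_num) hx0
      linarith
    have h10 : (2 : ℝ) ^ (2 + x * x) ≤ Real.exp (4 * x ^ 2) := by
      rw [Real.rpow_def_of_pos (by norm_num)]
      refine Real.exp_le_exp.2 ?_
      have h11 : Real.log 2 ≤ 1 := by
        have := Real.log_two_lt_d9
        linarith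
      have h12 : Real.log 2 * (2 + x * x) ≤ 1 * (2 + x * x) :=
        mul_le_mul_of_nonneg_right h11 (by linarith)
      have h13 : x ^ 2 = x * x := sq x
      rw [h13]
      linarith
    linarith
  have h7 : 4 * (A : ℝ) ^ Λ * ((2 : ℝ) ^ Λ - 1) ^ d ≤ ((2 : ℝ) ^ Λ) ^ d := by
    calc 4 * (A : ℝ) ^ Λ * ((2 : ℝ) ^ Λ - 1) ^ d
        ≤ Real.exp (4 * x ^ 2) * (((2 : ℝ) ^ Λ) ^ d * Real.exp (-(4 * x ^ 2))) :=
          mul_le_mul h6 h5 (pow_nonneg h0 _) (Real.exp_pos _).le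
      _ = ((2 : ℝ) ^ Λ) ^ d * (Real.exp (4 * x ^ 2) * Real.exp (-(4 * x ^ 2))) := by ring
      _ = ((2 : ℝ) ^ Λ) ^ d := by
          rw [← Real.exp_add, add_neg_cancel, Real.exp_zero, mul_one]
  have h8 : ((4 * A ^ Λ * (2 ^ Λ - 1) ^ d : ℕ) : ℝ) ≤ (((2 ^ Λ) ^ d : ℕ) : ℝ) := by
    push_cast [Nat.one_le_two_pow]
    exact h7
  exact_mod_cast h8

theorem numbersG (ε : ℝ) (hε : 0 < ε) (hε1 : ε ≤ 1) :
    ∃ c : ℝ, 0 < c ∧ ∃ K₀ : ℕ, ∀ n K : ℕ, K₀ ≤ K →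
    (K : ℝ) ≤ Real.logb 2 n - 2 * Real.logb 2 (Real.logb 2 n) - K₀ →
    ∃ k g l r L m Λ : ℕ, K = k + 1 ∧ 1 ≤ l ∧ 2 * l ≤ k ∧ 1 ≤ g ∧ k + 1 ≤ 2 ^ g ∧
      4 * l * (2 * r + 2 * k + 2 + 4 * g * l) + 1 ≤ 2 ^ g ∧ r + 3 ≤ g * (l / 2 + 1) ∧
      L * (k * 2 ^ (3 * g)) + m + 1 ≤ n ∧ Λ ≤ m ∧
      4 * (L * (k * 2 ^ (3 * g)) + m + 1) ^ Λ * (2 ^ Λ - 1) ^ (m - Λ) ≤
        (2 ^ Λ) ^ (m - Λ) ∧
      Real.logb 2 n - 2 * Real.logb 2 (Real.logb 2 n) - K₀ < Λ + 1 ∧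
      4 * (36 * (n : ℝ) ^ (1 - ε) + 2) ≤ (n : ℝ) ^ (-c) * L ∧
      8 * ((n : ℝ) ^ (c * K) + 9 * (n : ℝ) ^ (1 - ε) + 2) ≤ (n : ℝ) ^ (-c) * 2 ^ r := by
  obtain ⟨X1, hX1⟩ := growth3 (ε / 24) (by positivity) 400 3
  obtain ⟨K₀, hK₀⟩ := exists_nat_ge (max X1 (max 100 (4000 / ε)))
  refine ⟨ε / 400, by positivity, K₀, fun n K hK hK2 => ?_⟩
  have hKK : (K₀ : ℝ) ≤ K := by exact_mod_cast hK
  have hK1 : X1 ≤ K₀ := (le_max_left _ _).trans hK₀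
  have hK3 : (100 : ℝ) ≤ K₀ := ((le_max_left _ _).trans (le_max_right _ _)).trans hK₀
  have hK4 : 4000 / ε ≤ K₀ := ((le_max_right _ _).trans (le_max_right _ _)).trans hK₀
  obtain ⟨x, hxdef⟩ : ∃ x : ℝ, x = Real.logb 2 (n : ℝ) := ⟨_, rfl⟩
  rw [← hxdef] at hK2
  have hn2 : 2 ≤ n := by
    by_contra hcon
    have h01 : x = 0 := by
      rw [hxdef]
      interval_cases n
      · simp
      · simp
    rw [h01] at hK2
    simp at hK2
    linarith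
  have hn2' : (2 : ℝ) ≤ n := by exact_mod_cast hn2
  have hnpos : (0 : ℝ) < n := by linarith
  have hnx : (n : ℝ) = (2 : ℝ) ^ x := by
    rw [hxdef, Real.rpow_logb (by norm_num) (by norm_num) hnpos]
  have hx1 : 1 ≤ x := by
    rw [hxdef]
    have := Real.logb_le_logb_of_le (b := 2) (by norm_num) (by norm_num) hn2'
    rwa [Real.logb_self_eq_one (by norm_num)] at this
  have hlog : 0 ≤ Real.logb 2 x := Real.logb_nonneg (by norm_num) hx1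
  have hKx : (K : ℝ) ≤ x := by linarith
  have hx0 : (0 : ℝ) ≤ x := by linarith
  have hx100 : (100 : ℝ) ≤ x := by linarith
  have hεK : 4000 ≤ ε * K := by
    have h1 : 4000 / ε ≤ K := hK4.trans hKK
    rw [div_le_iff₀ hε] at h1
    linarith
  have hεx : 4000 ≤ ε * x := by
    have := mul_le_mul_of_nonneg_left hKx hε.le
    linarith
  have g1 := hX1 x (by linarith)
  clear hX1
  have hpos : ∀ a : ℝ, (0 : ℝ) < (2 : ℝ) ^ a := fun a => Real.rpow_pos_of_pos (by norm_num) a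
  have hp : ∀ a b : ℝ, a ≤ b → (2 : ℝ) ^ (a * x) ≤ (2 : ℝ) ^ (b * x) := fun a b hab =>
    two_rpow_le (mul_le_mul_of_nonneg_right hab hx0)
  have hxx2 : x ≤ x ^ 2 := by
    have := mul_le_mul_of_nonneg_right hx1 hx0
    linarith [sq x]
  have hx23 : x ^ 2 ≤ x ^ 3 := by
    have := mul_le_mul_of_nonneg_right hx1 (show (0 : ℝ) ≤ x ^ 2 by positivity)
    linarith [pow_succ x 2]
  -- the parameters
  obtain ⟨k, hk⟩ : ∃ k : ℕ, K = k + 1 := by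
    have : 1 ≤ K := by
      have h1 : (1 : ℝ) ≤ K := by linarith
      exact_mod_cast h1
    exact ⟨K - 1, by omega⟩
  have hkK : (K : ℝ) = k + 1 := by rw [hk]; push_cast; ring
  obtain ⟨g, hg1, hg2⟩ : ∃ g : ℕ, (g : ℝ) ≤ ε * x / 12 ∧ ε * x / 12 < (g : ℝ) + 1 :=
    ⟨⌊ε * x / 12⌋₊, Nat.floor_le (by positivity), Nat.lt_floor_add_one _⟩
  have hg3 : ε * x / 24 ≤ (g : ℝ) := by linarith
  have hgx : (g : ℝ) ≤ x := by
    have h1 : ε * x ≤ 1 * x := mul_le_mul_of_nonneg_right hε1 hx0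
    linarith
  have hg0 : 3 ≤ g := by
    have h1 : (3 : ℝ) ≤ g := by linarith
    exact_mod_cast h1
  have hgp : 400 * x ^ 3 ≤ (2 : ℝ) ^ g := by
    rw [← Real.rpow_natCast 2 g]
    refine g1.trans (two_rpow_le ?_)
    linarith
  obtain ⟨l, hl⟩ : ∃ l : ℕ, l = k / 2 := ⟨_, rfl⟩
  have hk99 : 99 ≤ k := by
    have h1 : (99 : ℝ) ≤ k := by linarith
    exact_mod_cast h1
  have hkx : (k : ℝ) ≤ x := by linarith
  have hlx : (l : ℝ) ≤ x := by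
    have h1 : l ≤ k := by omega
    have h2 : (l : ℝ) ≤ k := by exact_mod_cast h1
    linarith
  obtain ⟨L, hL1, hL2⟩ : ∃ L : ℕ, (L : ℝ) ≤ (2 : ℝ) ^ ((1 - ε / 2) * x) ∧
      (2 : ℝ) ^ ((1 - ε / 2) * x) < (L : ℝ) + 1 :=
    ⟨⌊(2 : ℝ) ^ ((1 - ε / 2) * x)⌋₊, Nat.floor_le (hpos _).le, Nat.lt_floor_add_one _⟩
  obtain ⟨r, hr⟩ : ∃ r : ℕ, r = g * (l / 2 + 1) - 3 := ⟨_, rfl⟩
  have hr1 : r + 3 = g * (l / 2 + 1) := by
    have h1 : g * 1 ≤ g * (l / 2 + 1) := Nat.mul_le_mul_left g (by omega)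
    omega
  have hy0 : 0 ≤ x - 2 * Real.logb 2 x - K₀ := by linarith
  obtain ⟨Λ, hΛ1, hΛ2⟩ : ∃ Λ : ℕ, (Λ : ℝ) ≤ x - 2 * Real.logb 2 x - K₀ ∧
      x - 2 * Real.logb 2 x - K₀ < (Λ : ℝ) + 1 :=
    ⟨⌊x - 2 * Real.logb 2 x - K₀⌋₊, Nat.floor_le hy0, Nat.lt_floor_add_one _⟩
  have hΛx : (Λ : ℝ) ≤ x - 100 := by linarith
  -- sizes
  have hn16 : 16 * x ≤ (n : ℝ) := by
    rw [hnx]
    have h1 := hp (ε / 24) 1 (by linarith)
    rw [one_mul] at h1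
    linarith
  have hLkq : (L : ℝ) * (k * (2 : ℝ) ^ (3 * g)) ≤ n / 4 := by
    have h1 : (2 : ℝ) ^ (3 * g) ≤ (2 : ℝ) ^ (ε / 4 * x) := by
      rw [← Real.rpow_natCast]
      refine two_rpow_le ?_
      push_cast
      linarith
    have h2 : (L : ℝ) * (k * (2 : ℝ) ^ (3 * g)) ≤
        (2 : ℝ) ^ ((1 - ε / 2) * x) * (x * (2 : ℝ) ^ (ε / 4 * x)) :=
      mul_le_mul hL1 (mul_le_mul hkx h1 (by positivity) hx0) (by positivity) (hpos _).le
    have h3 : (2 : ℝ) ^ x = (2 : ℝ) ^ ((1 - ε / 2) * x) * (2 : ℝ) ^ (ε / 4 * x) *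
        (2 : ℝ) ^ (ε / 4 * x) := by
      rw [← Real.rpow_add (by norm_num), ← Real.rpow_add (by norm_num)]
      congr 1
      ring
    have h4 : 4 * x ≤ (2 : ℝ) ^ (ε / 4 * x) := by
      have := hp (ε / 24) (ε / 4) (by linarith)
      linarith
    have h5 := mul_le_mul_of_nonneg_left h4
      (mul_nonneg (hpos ((1 - ε / 2) * x)).le (hpos (ε / 4 * x)).le)
    rw [hnx, h3]
    linarith
  obtain ⟨m, hm⟩ : ∃ m : ℕ, m = n / 2 := ⟨_, rfl⟩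
  have hm1 : (m : ℝ) ≤ n / 2 := by
    rw [hm]
    exact Nat.cast_div_le
  have hm2 : (n : ℝ) / 2 - 1 ≤ m := by
    have h1 : n ≤ 2 * m + 1 := by omega
    have h2 : (n : ℝ) ≤ 2 * m + 1 := by exact_mod_cast h1
    linarith
  have hA : L * (k * 2 ^ (3 * g)) + m + 1 ≤ n := by
    have h1 : ((L * (k * 2 ^ (3 * g)) + m + 1 : ℕ) : ℝ) ≤ n := by
      push_cast
      linarith
    exact_mod_cast h1
  have hΛm : Λ ≤ m := by
    have h1 : (Λ : ℝ) ≤ m := by linarith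
    exact_mod_cast h1
  have hd : (n : ℝ) ≤ 4 * ((m - Λ : ℕ) : ℝ) := by
    rw [Nat.cast_sub hΛm]
    linarith
  have hΛn : (2 : ℝ) ^ Λ * (16 * x ^ 2) ≤ n := by
    have h1 : (2 : ℝ) ^ Λ ≤ (2 : ℝ) ^ (x - 2 * Real.logb 2 x - 4) := by
      rw [← Real.rpow_natCast]
      refine two_rpow_le ?_
      linarith
    have h2 : (2 : ℝ) ^ (2 * Real.logb 2 x) = x ^ 2 := by
      rw [mul_comm, Real.rpow_mul (by norm_num), Real.rpow_logb (by norm_num) (by norm_num)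
        (by linarith)]
      norm_cast
    have h3 : (2 : ℝ) ^ (x - 2 * Real.logb 2 x - 4) * (16 * x ^ 2) = (2 : ℝ) ^ x := by
      rw [← h2]
      have h4 : (16 : ℝ) = (2 : ℝ) ^ (4 : ℝ) := by norm_num
      rw [h4, ← Real.rpow_add (by norm_num), ← Real.rpow_add (by norm_num)]
      congr 1
      ring
    rw [hnx, ← h3]
    exact mul_le_mul_of_nonneg_right h1 (by positivity)
  have hfin := num_union hA hnx hx1 hd hΛn (by linarith)
  refine ⟨k, g, l, r, L, m, Λ, hk, by omega, by omega, by omega, ?_, ?_, hr1.le, hA, hΛm, hfin,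
    ?_, ?_, ?_⟩
  · have h1 : ((k + 1 : ℕ) : ℝ) ≤ ((2 ^ g : ℕ) : ℝ) := by
      push_cast
      linarith
    exact_mod_cast h1
  · have h1 : (r : ℝ) ≤ x * x := by
      have h2 : r ≤ g * l := by
        have h3 : l / 2 + 1 ≤ l := by omega
        have h4 : g * (l / 2 + 1) ≤ g * l := Nat.mul_le_mul_left g h3
        omega
      have h3 : (r : ℝ) ≤ g * l := by exact_mod_cast h2
      exact h3.trans (mul_le_mul hgx hlx (Nat.cast_nonneg _) hx0)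
    have h5 : (g : ℝ) * l ≤ x * x := mul_le_mul hgx hlx (Nat.cast_nonneg _) hx0
    have h6 : 2 * (r : ℝ) + 2 * k + 2 + 4 * (g * l) ≤ 10 * x ^ 2 := by
      have h7 : x ^ 2 = x * x := sq x
      have h8 : 1 ≤ x ^ 2 := by linarith
      linarith
    have h7 : 4 * (l : ℝ) * (2 * (r : ℝ) + 2 * k + 2 + 4 * (g * l)) ≤
        4 * x * (10 * x ^ 2) :=
      mul_le_mul (by linarith) h6 (by positivity) (by positivity)
    have h8 : 4 * x * (10 * x ^ 2) = 40 * x ^ 3 := by ring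
    have h9 : ((4 * l * (2 * r + 2 * k + 2 + 4 * g * l) + 1 : ℕ) : ℝ) ≤ ((2 ^ g : ℕ) : ℝ) := by
      push_cast
      have h10 : (4 : ℝ) * g * l = 4 * (g * l) := by ring
      rw [h10]
      have h11 : (1 : ℝ) ≤ x ^ 3 := by linarith
      linarith
    exact_mod_cast h9
  · rw [← hxdef]
    exact hΛ2
  · -- the number of windows
    have h1 : (1 : ℝ) ≤ (2 : ℝ) ^ ((1 - ε) * x) :=
      Real.one_le_rpow (by norm_num) (mul_nonneg (by linarith) hx0)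
    have h2 : (n : ℝ) ^ (1 - ε) = (2 : ℝ) ^ ((1 - ε) * x) := by
      rw [hnx, ← Real.rpow_mul (by norm_num)]
      congr 1
      ring
    have h3 : (n : ℝ) ^ (-(ε / 400)) = (2 : ℝ) ^ (-(ε / 400) * x) := by
      rw [hnx, ← Real.rpow_mul (by norm_num)]
      congr 1
      ring
    have h4 : (2 : ℝ) ^ ((1 - ε / 2) * x) / 2 ≤ L := by
      have h5 : (1 : ℝ) ≤ (2 : ℝ) ^ ((1 - ε / 2) * x) / 2 := by
        have h6 := hp (ε / 24) (1 - ε / 2) (by linarith)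
        linarith
      linarith
    have h5 : (2 : ℝ) ^ (-(ε / 400) * x) * ((2 : ℝ) ^ ((1 - ε / 2) * x) / 2) ≤
        (2 : ℝ) ^ (-(ε / 400) * x) * L := mul_le_mul_of_nonneg_left h4 (hpos _).le
    have h6 : (2 : ℝ) ^ (-(ε / 400) * x) * ((2 : ℝ) ^ ((1 - ε / 2) * x) / 2) =
        (2 : ℝ) ^ ((1 - ε) * x) * (2 : ℝ) ^ ((ε / 2 - ε / 400) * x) / 2 := by
      rw [← mul_div_assoc, ← Real.rpow_add (by norm_num), ← Real.rpow_add (by norm_num)]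
      congr 2
      ring
    have h7 : (400 : ℝ) ≤ (2 : ℝ) ^ ((ε / 2 - ε / 400) * x) := by
      have h8 := hp (ε / 24) (ε / 2 - ε / 400) (by linarith)
      have h9 : (1 : ℝ) ≤ x ^ 3 := by linarith
      linarith
    have h8 := mul_le_mul_of_nonneg_left h7 (hpos ((1 - ε) * x)).le
    rw [h2, h3]
    linarith
  · -- the size
    have h2 : (n : ℝ) ^ (1 - ε) ≤ (2 : ℝ) ^ (ε / 400 * K * x) := by
      rw [hnx, ← Real.rpow_mul (by norm_num)]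
      refine two_rpow_le ?_
      have h3 : x * (1 - ε) ≤ x * 1 := mul_le_mul_of_nonneg_left (by linarith) hx0
      have h4 : 10 * x ≤ ε / 400 * K * x := mul_le_mul_of_nonneg_right (by linarith) hx0
      linarith
    have h3 : (n : ℝ) ^ (-(ε / 400)) = (2 : ℝ) ^ (-(ε / 400) * x) := by
      rw [hnx, ← Real.rpow_mul (by norm_num)]
      congr 1
      ring
    have h4 : (n : ℝ) ^ (ε / 400 * K) = (2 : ℝ) ^ (ε / 400 * K * x) := by
      rw [hnx, ← Real.rpow_mul (by norm_num)]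
      congr 1
      ring
    have h5 : (1 : ℝ) ≤ (2 : ℝ) ^ (ε / 400 * K * x) :=
      Real.one_le_rpow (by norm_num) (by positivity)
    have h6 : 8 * ((n : ℝ) ^ (ε / 400 * K) + 9 * (n : ℝ) ^ (1 - ε) + 2) ≤
        96 * (2 : ℝ) ^ (ε / 400 * K * x) := by
      rw [h4]
      linarith
    have h7 : (96 : ℝ) ≤ (2 : ℝ) ^ (7 : ℝ) := by norm_num
    have h8 : 96 * (2 : ℝ) ^ (ε / 400 * K * x) ≤ (2 : ℝ) ^ (7 + ε / 400 * K * x) := by
      rw [Real.rpow_add (by norm_num)]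
      exact mul_le_mul_of_nonneg_right h7 (hpos _).le
    have h9 : (2 : ℝ) ^ (7 + ε / 400 * K * x) ≤ (2 : ℝ) ^ (-(ε / 400) * x) * 2 ^ r := by
      rw [← Real.rpow_natCast, ← Real.rpow_add (by norm_num)]
      refine two_rpow_le ?_
      have h10 : (K : ℝ) / 4 ≤ ((l / 2 + 1 : ℕ) : ℝ) := by
        have h11 : K ≤ 4 * (l / 2 + 1) := by omega
        have h12 : (K : ℝ) ≤ 4 * ((l / 2 + 1 : ℕ) : ℝ) := by exact_mod_cast h11
        linarith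
      have h11 : ((r + 3 : ℕ) : ℝ) = g * ((l / 2 + 1 : ℕ) : ℝ) := by
        rw [hr1]
        push_cast
        ring
      have h12 : ε * x / 24 * (K / 4) ≤ g * ((l / 2 + 1 : ℕ) : ℝ) :=
        mul_le_mul hg3 h10 (by positivity) (Nat.cast_nonneg _)
      have h13 : ((r + 3 : ℕ) : ℝ) = r + 3 := by push_cast; ring
      rw [h13] at h11
      have h14 : 4000 * x ≤ ε * K * x := mul_le_mul_of_nonneg_right hεK hx0
      have h15 : ε / 400 * x ≤ x := by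
        have := mul_le_mul_of_nonneg_right (show ε / 400 ≤ 1 by linarith) hx0
        linarith
      have h16 : ε * x / 24 * (K / 4) = ε * K * x / 96 := by ring
      have h17 : ε / 400 * K * x = ε * K * x / 400 := by ring
      rw [h17]
      rw [h16] at h12
      linarith
    rw [h3]
    exact h6.trans (h8.trans h9)

end Pool.Agent.DG
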