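import Pool.Agent.Lib.MP_66cd2e_lc.DG.Tour

/-!
Random rows and a random tournament on the columns: no small set dominates the columns.
-/

set_option autoImplicit false

namespace Pool.Agent.DG

open Finset

/-- no small set of rows and columns dominates the columns -/
def Good {R : Type} {m : ℕ} (tb : Fin m → Fin m → Bool) (Λ : ℕ) (x : R → Fin m → Bool) : Prop :=
  ∀ (SA : Finset R) (SB : Finset (Fin m)), SA.card + SB.card ≤ Λ →
    ∃ b, b ∉ SB ∧ (∀ a ∈ SA, x a b = false) ∧ ∀ b' ∈ SB, ¬ arcB tb b' b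

namespace Rnd

theorem card_small (α : Type) [Fintype α] [DecidableEq α] (Λ : ℕ) :
    (univ.filter (fun S : Finset α => S.card ≤ Λ)).card ≤ (Fintype.card α + 1) ^ Λ := by
  induction Λ with
  | zero =>
    rw [pow_zero]
    refine Finset.card_le_one.2 fun a ha b hb => ?_
    rw [mem_filter] at ha hb
    rw [Finset.card_eq_zero.1 (Nat.le_zero.1 ha.2), Finset.card_eq_zero.1 (Nat.le_zero.1 hb.2)]
  | succ Λ ih =>
    have h1 : (univ.filter (fun S : Finset α => S.card ≤ Λ + 1)) ⊆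
        ((univ.filter (fun S : Finset α => S.card ≤ Λ)) ×ˢ (univ : Finset (Option α))).image
          (fun p => p.2.elim p.1 (fun a => insert a p.1)) := by
      intro S hS
      rw [mem_filter] at hS
      rw [mem_image]
      rcases Nat.lt_or_ge Λ S.card with h | h
      · have hpos : 0 < S.card := by omega
        obtain ⟨a, ha⟩ := Finset.card_pos.1 hpos
        refine ⟨(S.erase a, some a), ?_, ?_⟩
        · rw [mem_product, mem_filter]
          refine ⟨⟨mem_univ _, ?_⟩, mem_univ _⟩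
          change (S.erase a).card ≤ Λ
          rw [Finset.card_erase_of_mem ha]
          omega
        · exact Finset.insert_erase ha
      · refine ⟨(S, none), ?_, rfl⟩
        rw [mem_product, mem_filter]
        exact ⟨⟨mem_univ _, h⟩, mem_univ _⟩
    calc _ ≤ _ := card_le_card h1
      _ ≤ _ := card_image_le
      _ = (univ.filter (fun S : Finset α => S.card ≤ Λ)).card * (Fintype.card α + 1) := by
        rw [card_product, card_univ, Fintype.card_option]
      _ ≤ (Fintype.card α + 1) ^ Λ * (Fintype.card α + 1) := Nat.mul_le_mul_right _ ih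
      _ = _ := (pow_succ _ _).symm

theorem card_hit {J : Type} [Fintype J] [DecidableEq J] (c : J → Bool) :
    (univ.filter (fun v : J → Bool => ∃ j, v j = c j)).card = 2 ^ Fintype.card J - 1 := by
  have h1 : (univ.filter (fun v : J → Bool => ∃ j, v j = c j)) =
      univ.erase (fun j => !(c j)) := by
    ext v
    rw [mem_filter, mem_erase]
    constructor
    · rintro ⟨_, j, hj⟩
      refine ⟨fun h => ?_, mem_univ _⟩
      rw [h] at hj
      exact absurd hj (Bool.not_ne_self (c j))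
    · rintro ⟨h, _⟩
      refine ⟨mem_univ _, ?_⟩
      by_contra hn
      apply h
      funext j
      have h2 : v j ≠ c j := fun h3 => hn ⟨j, h3⟩
      cases hv : v j <;> cases hc : c j <;> simp_all
  rw [h1, Finset.card_erase_of_mem (mem_univ _), card_univ, Fintype.card_pi]
  simp

theorem card_prod {B J : Type} [Fintype B] [DecidableEq B] [Fintype J] [DecidableEq J]
    (c : B → J → Bool) :
    (univ.filter (fun v : B → J → Bool => ∀ b, ∃ j, v b j = c b j)).card =
      (2 ^ Fintype.card J - 1) ^ Fintype.card B := by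
  have h1 : (univ.filter (fun v : B → J → Bool => ∀ b, ∃ j, v b j = c b j)) =
      Fintype.piFinset (fun b => univ.filter (fun v : J → Bool => ∃ j, v j = c b j)) := by
    ext v
    rw [mem_filter, Fintype.mem_piFinset]
    constructor
    · rintro ⟨_, h⟩ b
      rw [mem_filter]
      exact ⟨mem_univ _, h b⟩
    · intro h
      exact ⟨mem_univ _, fun b => (mem_filter.1 (h b)).2⟩
  rw [h1, Fintype.card_piFinset]
  simp only [card_hit]
  rw [Finset.prod_const, card_univ]

/-- The cells `ι (b, j)` are independent. -/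
theorem card_dom {C B J : Type} [Fintype C] [DecidableEq C] [Fintype B] [DecidableEq B]
    [Fintype J] [DecidableEq J] (ι : B × J → C) (hι : Function.Injective ι) (c : B → J → Bool) :
    (univ.filter (fun ω : C → Bool => ∀ b, ∃ j, ω (ι (b, j)) = c b j)).card *
      (2 ^ Fintype.card J) ^ Fintype.card B ≤
        (2 ^ Fintype.card J - 1) ^ Fintype.card B * Fintype.card (C → Bool) := by
  have h1 : (univ.filter (fun ω : C → Bool => ∀ b, ∃ j, ω (ι (b, j)) = c b j)).card *
      (2 ^ Fintype.card J) ^ Fintype.card B =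
      ((univ.filter (fun ω : C → Bool => ∀ b, ∃ j, ω (ι (b, j)) = c b j)) ×ˢ
        (univ : Finset (B → J → Bool))).card := by
    rw [card_product, card_univ, Fintype.card_pi]
    simp
  have h2 : (2 ^ Fintype.card J - 1) ^ Fintype.card B * Fintype.card (C → Bool) =
      ((univ.filter (fun v : B → J → Bool => ∀ b, ∃ j, v b j = c b j)) ×ˢ
        (univ : Finset (C → Bool))).card := by
    rw [card_product, card_prod, card_univ]
  rw [h1, h2]
  refine Finset.card_le_card_of_injOn (fun p => (fun b j => p.1 (ι (b, j)),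
    Function.extend ι (fun q => p.2 q.1 q.2) p.1)) ?_ ?_
  · intro p hp
    rw [mem_coe, mem_product, mem_filter] at hp
    rw [mem_coe, mem_product, mem_filter]
    exact ⟨⟨mem_univ _, hp.1.2⟩, mem_univ _⟩
  · intro p hp q hq hpq
    obtain ⟨h3, h4⟩ := Prod.mk.inj hpq
    have h5 : ∀ b j, p.1 (ι (b, j)) = q.1 (ι (b, j)) := fun b j => congrFun (congrFun h3 b) j
    refine Prod.ext ?_ ?_
    · funext x
      by_cases hx : ∃ i, ι i = x
      · obtain ⟨i, rfl⟩ := hx
        exact h5 i.1 i.2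
      · have h6 := congrFun h4 x
        rwa [Function.extend_apply' _ _ _ hx, Function.extend_apply' _ _ _ hx] at h6
    · funext b j
      have h6 := congrFun h4 (ι (b, j))
      rwa [hι.extend_apply, hι.extend_apply] at h6

variable {R : Type} {m : ℕ}

/-- The cell which decides whether `j` hits the column `b`. -/
def cell : R ⊕ Fin m → Fin m → (R ⊕ Fin m) × Fin m
  | Sum.inl a, b => (Sum.inl a, b)
  | Sum.inr b', b => if b' < b then (Sum.inr b', b) else (Sum.inr b, b')

/-- The value of the cell if `j` hits the column `b`. -/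
def bit : R ⊕ Fin m → Fin m → Bool
  | Sum.inl _, _ => true
  | Sum.inr b', b => decide (b' < b)

theorem cell_inj (S : Finset (R ⊕ Fin m)) :
    Function.Injective (fun p : {b : Fin m // Sum.inr b ∉ S} × {j // j ∈ S} =>
      cell p.2.1 p.1.1) := by
  rintro ⟨⟨b, hb⟩, ⟨j, hj⟩⟩ ⟨⟨c, hc⟩, ⟨i, hi⟩⟩ h
  change cell j b = cell i c at h
  rcases j with a | b' <;> rcases i with a' | c'
  · simp only [cell, Prod.mk.injEq, Sum.inl.injEq] at h
    obtain ⟨rfl, rfl⟩ := h
    rfl
  · simp only [cell] at h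
    split_ifs at h
    · simp at h
    · simp at h
  · simp only [cell] at h
    split_ifs at h
    · simp at h
    · simp at h
  · simp only [cell] at h
    split_ifs at h with h1 h2
    · simp only [Prod.mk.injEq, Sum.inr.injEq] at h
      obtain ⟨rfl, rfl⟩ := h
      rfl
    · simp only [Prod.mk.injEq, Sum.inr.injEq] at h
      obtain ⟨rfl, rfl⟩ := h
      exact absurd hj hc
    · simp only [Prod.mk.injEq, Sum.inr.injEq] at h
      obtain ⟨rfl, rfl⟩ := h
      exact absurd hi hb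
    · simp only [Prod.mk.injEq, Sum.inr.injEq] at h
      obtain ⟨rfl, rfl⟩ := h
      rfl

/-- All columns outside `S` are hit. -/
def Dom (S : Finset (R ⊕ Fin m)) (ω : (R ⊕ Fin m) × Fin m → Bool) : Prop :=
  ∀ b : {b : Fin m // Sum.inr b ∉ S}, ∃ j : {j // j ∈ S}, ω (cell j.1 b.1) = bit j.1 b.1

open Classical in
theorem card_Dom [Fintype R] [DecidableEq R] (S : Finset (R ⊕ Fin m)) {Λ : ℕ} (hS : S.card ≤ Λ) (hΛ : Λ ≤ m) :
    (univ.filter (fun ω : (R ⊕ Fin m) × Fin m → Bool => Dom S ω)).card * (2 ^ Λ) ^ (m - Λ) ≤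
      (2 ^ Λ - 1) ^ (m - Λ) * Fintype.card ((R ⊕ Fin m) × Fin m → Bool) := by
  have h := card_dom (fun p : {b : Fin m // Sum.inr b ∉ S} × {j // j ∈ S} => cell p.2.1 p.1.1)
    (cell_inj S) (fun b j => bit j.1 b.1)
  obtain ⟨D, hD⟩ : ∃ D, D = (univ.filter (fun ω : (R ⊕ Fin m) × Fin m → Bool => Dom S ω)).card :=
    ⟨_, rfl⟩
  obtain ⟨W, hW⟩ : ∃ W, W = Fintype.card ((R ⊕ Fin m) × Fin m → Bool) := ⟨_, rfl⟩
  have hs : Fintype.card {j // j ∈ S} = S.card := Fintype.card_coe S
  have hB : m - Λ ≤ Fintype.card {b : Fin m // Sum.inr b ∉ S} := by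
    have h1 : Fintype.card {b : Fin m // (Sum.inr b : R ⊕ Fin m) ∈ S} ≤ S.card := by
      rw [← hs]
      refine Fintype.card_le_of_injective
        (fun b => (⟨Sum.inr b.1, b.2⟩ : {j // j ∈ S})) ?_
      intro b c hbc
      have := congrArg Subtype.val hbc
      exact Subtype.ext (Sum.inr_injective this)
    have h2 := Fintype.card_subtype_compl (fun b : Fin m => (Sum.inr b : R ⊕ Fin m) ∈ S)
    rw [Fintype.card_fin] at h2
    rw [h2]
    omega
  rw [hs] at h
  have hD' : (univ.filter (fun ω : (R ⊕ Fin m) × Fin m → Bool => ∀ b : {b : Fin m // Sum.inr b ∉ S},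
      ∃ j : {j // j ∈ S}, ω (cell j.1 b.1) = bit j.1 b.1)).card = D := by
    rw [hD]
    refine congrArg Finset.card ?_
    ext ω
    rw [mem_filter, mem_filter]
    rfl
  have h' : D * (2 ^ S.card) ^ Fintype.card {b : Fin m // Sum.inr b ∉ S} ≤
      (2 ^ S.card - 1) ^ Fintype.card {b : Fin m // Sum.inr b ∉ S} * W := by
    rw [← hD', hW]
    refine le_trans (le_of_eq ?_) h
    congr 2
  obtain ⟨B, hBd⟩ : ∃ B, B = Fintype.card {b : Fin m // Sum.inr b ∉ S} := ⟨_, rfl⟩
  rw [← hBd] at hB h'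
  -- real numbers
  have e1 : ∀ s : ℕ, ((2 ^ s - 1 : ℕ) : ℝ) = 2 ^ s - 1 := by
    intro s
    rw [Nat.cast_sub Nat.one_le_two_pow]
    push_cast
    ring
  have h3 : (D : ℝ) * (2 ^ S.card) ^ B ≤ (2 ^ S.card - 1) ^ B * W := by
    rw [← e1]
    exact_mod_cast h'
  have h4 : (D : ℝ) ≤ (1 - 1 / 2 ^ S.card) ^ B * W := by
    have hp : (0 : ℝ) < (2 ^ S.card) ^ B := by positivity
    rw [← mul_le_mul_iff_left₀ hp]
    calc (D : ℝ) * (2 ^ S.card) ^ B ≤ (2 ^ S.card - 1) ^ B * W := h3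
      _ = (1 - 1 / 2 ^ S.card) ^ B * W * (2 ^ S.card) ^ B := by
        have : ((2 : ℝ) ^ S.card - 1) ^ B = (1 - 1 / 2 ^ S.card) ^ B * (2 ^ S.card) ^ B := by
          rw [← mul_pow]
          congr 1
          field_simp
        rw [this]
        ring
  have h5 : (0 : ℝ) ≤ 1 - 1 / 2 ^ S.card := by
    have : (1 : ℝ) / 2 ^ S.card ≤ 1 := by
      rw [div_le_one (by positivity)]
      exact one_le_pow₀ (by norm_num)
    linarith
  have h6 : (1 : ℝ) - 1 / 2 ^ S.card ≤ 1 - 1 / 2 ^ Λ := by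
    have : (1 : ℝ) / 2 ^ Λ ≤ 1 / 2 ^ S.card :=
      one_div_le_one_div_of_le (by positivity) (pow_le_pow_right₀ (by norm_num) hS)
    linarith
  have h7 : (1 : ℝ) - 1 / 2 ^ Λ ≤ 1 := by
    have : (0 : ℝ) ≤ 1 / 2 ^ Λ := by positivity
    linarith
  have h8 : ((1 : ℝ) - 1 / 2 ^ S.card) ^ B ≤ (1 - 1 / 2 ^ Λ) ^ (m - Λ) :=
    (pow_le_pow_left₀ h5 h6 B).trans (pow_le_pow_of_le_one (h5.trans h6) h7 hB)
  have h9 : (D : ℝ) * (2 ^ Λ) ^ (m - Λ) ≤ (2 ^ Λ - 1) ^ (m - Λ) * W := by
    have h10 : (D : ℝ) ≤ (1 - 1 / 2 ^ Λ) ^ (m - Λ) * W :=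
      h4.trans (mul_le_mul_of_nonneg_right h8 (Nat.cast_nonneg _))
    calc (D : ℝ) * (2 ^ Λ) ^ (m - Λ) ≤ (1 - 1 / 2 ^ Λ) ^ (m - Λ) * W * (2 ^ Λ) ^ (m - Λ) :=
          mul_le_mul_of_nonneg_right h10 (by positivity)
      _ = (2 ^ Λ - 1) ^ (m - Λ) * W := by
        have : ((2 : ℝ) ^ Λ - 1) ^ (m - Λ) = (1 - 1 / 2 ^ Λ) ^ (m - Λ) * (2 ^ Λ) ^ (m - Λ) := by
          rw [← mul_pow]
          congr 1
          field_simp
        rw [this]
        ring
  rw [← hD, ← hW]
  have h11 : ((D * (2 ^ Λ) ^ (m - Λ) : ℕ) : ℝ) ≤ (((2 ^ Λ - 1) ^ (m - Λ) * W : ℕ) : ℝ) := by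
    push_cast
    rw [e1]
    exact h9
  exact_mod_cast h11

end Rnd

open Rnd

open Classical in
/-- a tournament on the columns such that most matrices are good; union bound over all pairs
of a matrix and a tournament, then average -/
theorem exists_tb (R : Type) [Fintype R] [DecidableEq R] (m Λ : ℕ) (hΛ : Λ ≤ m)
    (h : 4 * (Fintype.card R + m + 1) ^ Λ * (2 ^ Λ - 1) ^ (m - Λ) ≤ (2 ^ Λ) ^ (m - Λ)) :
    ∃ tb : Fin m → Fin m → Bool,
      4 * (univ.filter (fun x : R → Fin m → Bool => ¬ Good tb Λ x)).card ≤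
        Fintype.card (R → Fin m → Bool) := by
  -- the pairs of a matrix and a tournament as functions on the cells
  let tbo : ((R ⊕ Fin m) × Fin m → Bool) → Fin m → Fin m → Bool := fun ω b b' => ω (Sum.inr b, b')
  let xo : ((R ⊕ Fin m) × Fin m → Bool) → R → Fin m → Bool := fun ω a b => ω (Sum.inl a, b)
  let mk : (Fin m → Fin m → Bool) → (R → Fin m → Bool) → (R ⊕ Fin m) × Fin m → Bool :=
    fun tb x c => Sum.elim x tb c.1 c.2
  have hmk : ∀ tb x, tbo (mk tb x) = tb ∧ xo (mk tb x) = x := fun tb x => ⟨rfl, rfl⟩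
  have hmk' : ∀ ω, mk (tbo ω) (xo ω) = ω := by
    intro ω
    funext ⟨c, b⟩
    rcases c with a | b'
    · rfl
    · rfl
  have hbad : ∀ ω, ¬ Good (tbo ω) Λ (xo ω) →
      ∃ S : Finset (R ⊕ Fin m), S.card ≤ Λ ∧ Dom S ω := by
    intro ω hω
    unfold Good at hω
    simp only [not_forall, not_exists] at hω
    obtain ⟨SA, SB, hc, hd⟩ := hω
    refine ⟨SA.disjSum SB, by rw [Finset.card_disjSum]; exact hc, ?_⟩
    rintro ⟨b, hb⟩
    have hb' : b ∉ SB := fun h1 => hb (Finset.inr_mem_disjSum.2 h1)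
    have h1 := hd b
    by_contra hn
    rw [not_exists] at hn
    apply h1
    refine ⟨hb', fun a ha => ?_, fun b' hb'' harc => ?_⟩
    · have h2 := hn ⟨Sum.inl a, Finset.inl_mem_disjSum.2 ha⟩
      change ¬ ω (Sum.inl a, b) = true at h2
      exact Bool.eq_false_iff.2 h2
    · have h2 := hn ⟨Sum.inr b', Finset.inr_mem_disjSum.2 hb''⟩
      apply h2
      change ω (if b' < b then (Sum.inr b', b) else (Sum.inr b, b')) = decide (b' < b)
      rcases harc with ⟨h3, h4⟩ | ⟨h3, h4⟩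
      · rw [if_pos h3, decide_eq_true h3]
        exact h4
      · rw [if_neg (not_lt.2 h3.le), decide_eq_false (not_lt.2 h3.le)]
        exact h4
  -- the number of bad pairs
  obtain ⟨W, hW⟩ : ∃ W, W = Fintype.card ((R ⊕ Fin m) × Fin m → Bool) := ⟨_, rfl⟩
  obtain ⟨D, hD⟩ : ∃ D, D = (univ.filter (fun ω : (R ⊕ Fin m) × Fin m → Bool =>
    ¬ Good (tbo ω) Λ (xo ω))).card := ⟨_, rfl⟩
  have hsum : D * (2 ^ Λ) ^ (m - Λ) ≤
      (Fintype.card R + m + 1) ^ Λ * ((2 ^ Λ - 1) ^ (m - Λ) * W) := by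
    have h1 : D ≤ ∑ S ∈ univ.filter (fun S : Finset (R ⊕ Fin m) => S.card ≤ Λ),
        (univ.filter (fun ω : (R ⊕ Fin m) × Fin m → Bool => Dom S ω)).card := by
      rw [hD]
      refine le_trans (card_le_card ?_) card_biUnion_le
      intro ω hω
      obtain ⟨S, hS, hd⟩ := hbad ω (mem_filter.1 hω).2
      rw [mem_biUnion]
      exact ⟨S, mem_filter.2 ⟨mem_univ _, hS⟩, mem_filter.2 ⟨mem_univ _, hd⟩⟩
    calc D * (2 ^ Λ) ^ (m - Λ) ≤ (∑ S ∈ univ.filter (fun S : Finset (R ⊕ Fin m) => S.card ≤ Λ),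
          (univ.filter (fun ω : (R ⊕ Fin m) × Fin m → Bool => Dom S ω)).card) *
            (2 ^ Λ) ^ (m - Λ) := Nat.mul_le_mul_right _ h1
      _ = ∑ S ∈ univ.filter (fun S : Finset (R ⊕ Fin m) => S.card ≤ Λ),
          (univ.filter (fun ω : (R ⊕ Fin m) × Fin m → Bool => Dom S ω)).card *
            (2 ^ Λ) ^ (m - Λ) := by rw [Finset.sum_mul]
      _ ≤ ∑ _S ∈ univ.filter (fun S : Finset (R ⊕ Fin m) => S.card ≤ Λ),
          (2 ^ Λ - 1) ^ (m - Λ) * W := by
        refine Finset.sum_le_sum fun S hS => ?_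
        rw [hW]
        exact card_Dom S (mem_filter.1 hS).2 hΛ
      _ = (univ.filter (fun S : Finset (R ⊕ Fin m) => S.card ≤ Λ)).card *
          ((2 ^ Λ - 1) ^ (m - Λ) * W) := by rw [Finset.sum_const, smul_eq_mul]
      _ ≤ _ := by
        refine Nat.mul_le_mul_right _ ?_
        have h2 := card_small (R ⊕ Fin m) Λ
        rwa [Fintype.card_sum, Fintype.card_fin] at h2
  have h4 : 4 * D ≤ W := by
    have hp : 0 < (2 ^ Λ) ^ (m - Λ) := by positivity
    refine Nat.le_of_mul_le_mul_right ?_ hp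
    calc 4 * D * (2 ^ Λ) ^ (m - Λ) = 4 * (D * (2 ^ Λ) ^ (m - Λ)) := by ring
      _ ≤ 4 * ((Fintype.card R + m + 1) ^ Λ * ((2 ^ Λ - 1) ^ (m - Λ) * W)) :=
        Nat.mul_le_mul_left _ hsum
      _ = 4 * (Fintype.card R + m + 1) ^ Λ * (2 ^ Λ - 1) ^ (m - Λ) * W := by ring
      _ ≤ (2 ^ Λ) ^ (m - Λ) * W := Nat.mul_le_mul_right _ h
      _ = W * (2 ^ Λ) ^ (m - Λ) := by ring
  -- average
  have hDs : D = ∑ tb : Fin m → Fin m → Bool,
      (univ.filter (fun x : R → Fin m → Bool => ¬ Good tb Λ x)).card := by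
    rw [hD, Finset.card_eq_sum_card_fiberwise (f := tbo) (t := univ) (fun _ _ => mem_univ _)]
    refine Finset.sum_congr rfl fun tb _ => ?_
    refine Finset.card_bij' (fun ω _ => xo ω) (fun x _ => mk tb x) ?_ ?_ ?_ ?_
    · intro ω hω
      rw [mem_filter, mem_filter] at hω
      rw [mem_filter]
      exact ⟨mem_univ _, by rw [← hω.2]; exact hω.1.2⟩
    · intro x hx
      rw [mem_filter] at hx
      rw [mem_filter, mem_filter]
      exact ⟨⟨mem_univ _, hx.2⟩, rfl⟩
    · intro ω hω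
      rw [mem_filter] at hω
      rw [← hω.2]
      exact hmk' ω
    · intro x hx
      rfl
  have hWs : W = ∑ _tb : Fin m → Fin m → Bool, Fintype.card (R → Fin m → Bool) := by
    rw [hW, Finset.sum_const, smul_eq_mul, card_univ, ← Fintype.card_prod]
    exact Fintype.card_congr
      { toFun := fun ω => (tbo ω, xo ω)
        invFun := fun p => mk p.1 p.2
        left_inv := hmk'
        right_inv := fun p => rfl }
  by_contra hn
  simp only [not_exists, not_le] at hn
  have h5 : W < 4 * D := by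
    rw [hWs, hDs, Finset.mul_sum]
    refine Finset.sum_lt_sum_of_nonempty univ_nonempty fun tb _ => hn tb
  omega

end Pool.Agent.DG
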