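import Pool.Agent.Lib.MP_66cd2e_lc.DN.Stmt

/-!
Circuits which separate tournaments with small domination number from tournaments with large
domination number.
-/

set_option autoImplicit false

namespace Pool.Agent.DG

open Pool.Agent.NEG Pool.Agent.DN Pool.Agent.Lib.MP_66cd2e_lc

/-- among the tournaments `T` which agree with `T0` except for the arcs between `A` and `B`, `C`
accepts those with `γ(T) ≤ K` and rejects those with `γ(T) > Λ` -/
def Separates {n : ℕ} (T0 : Tournament (Fin n)) (A B : Finset (Fin n)) (K : ℕ) (Λ : ℝ) {G : Type}
    (C : Circuit ({x // x ∈ A} × {x // x ∈ B}) G) : Prop :=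
  ∀ T, SameOff T0 T A B → ∀ v, C.Consistent (inp A B T) v →
    (domNumber T ≤ K → v C.out = true) ∧ (Λ < domNumber T → v C.out = false)

end Pool.Agent.DG
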