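import Pool.Agent.Lib.MP_66cd2e_lc.DN.Win
import Pool.Agent.Lib.MP_66cd2e_lc.DN.Chain

/-!
The window step and the sum over the windows, with an additive slack in the dichotomy and for
arbitrary tests.
-/

set_option autoImplicit false

namespace Pool.Agent.DG

open Finset Pool.Agent.NEG Pool.Agent.NEGS Pool.Agent.DN

section Or

variable {E P N J G : Type} [Fintype P] [Fintype N] {px : P → E → Bool} {py : N → E → Bool}
  {ep en : ℝ} (S : Sys E P N px py ep en)

/-- the OR of a list of nodes of a forced circuit accepts, up to small errors, at most the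
fraction of the positive tests which it accepts of the negative tests, with a slack -/
theorem or_le' [Fintype G] {δ : ℝ} (hδ : 0 ≤ δ) (C : Circuit J G) (l : Lev C) (z : G → Bool) (f : J → E ⊕ Bool)
    (Z : List ((J ⊕ Bool) ⊕ G))
    (hdich : ∀ a : S.A, (∀ w, S.ev a w = true) ∨
      (({p : P | S.ev a (px p) = true} : Set P).ncard : ℝ) * Fintype.card N ≤
        (({p : N | S.ev a (py p) = true} : Set N).ncard : ℝ) * Fintype.card P + δ) :
    (({p : P | ∃ nd ∈ Z, nv C l z nd (pl f (px p)) = true} : Set P).ncard : ℝ) *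
        Fintype.card N ≤
      (({p : N | ∃ nd ∈ Z, nv C l z nd (pl f (py p)) = true} : Set N).ncard : ℝ) *
        Fintype.card P +
      (Fintype.card G + Z.length) * (ep * Fintype.card N + en * Fintype.card P) + δ := by
  classical
  obtain ⟨a, E, F, hE, hF, h1, h2⟩ := along S C l z f l.top
  obtain ⟨c, E', F', hE', hF', h3, h4⟩ := or_list S (Z.map (an S f a))
  rw [List.length_map] at hE' hF'
  have hcE : (((⋃ g, E g : Set P)).ncard : ℝ) ≤ Fintype.card G * ep := by
    calc (((⋃ g, E g : Set P)).ncard : ℝ) ≤ ((∑ g, (E g).ncard : ℕ) : ℝ) := by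
          exact_mod_cast Set.ncard_iUnion_le_of_fintype E
      _ = ∑ g, ((E g).ncard : ℝ) := by push_cast; rfl
      _ ≤ ∑ _g : G, ep := Finset.sum_le_sum (fun g _ => hE g)
      _ = Fintype.card G * ep := by
          rw [Finset.sum_const, Finset.card_univ, nsmul_eq_mul]
  have hcF : (((⋃ g, F g : Set N)).ncard : ℝ) ≤ Fintype.card G * en := by
    calc (((⋃ g, F g : Set N)).ncard : ℝ) ≤ ((∑ g, (F g).ncard : ℕ) : ℝ) := by
          exact_mod_cast Set.ncard_iUnion_le_of_fintype F
      _ = ∑ g, ((F g).ncard : ℝ) := by push_cast; rfl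
      _ ≤ ∑ _g : G, en := Finset.sum_le_sum (fun g _ => hF g)
      _ = Fintype.card G * en := by
          rw [Finset.sum_const, Finset.card_univ, nsmul_eq_mul]
  set EE : Set P := (⋃ g, E g) ∪ E' with hEE
  set FF : Set N := (⋃ g, F g) ∪ F' with hFF
  have hcEE : (EE.ncard : ℝ) ≤ (Fintype.card G + Z.length) * ep := by
    have h5 : (EE.ncard : ℝ) ≤ ((⋃ g, E g : Set P).ncard : ℝ) + (E'.ncard : ℝ) := by
      exact_mod_cast Set.ncard_union_le _ _
    rw [add_mul]
    linarith
  have hcFF : (FF.ncard : ℝ) ≤ (Fintype.card G + Z.length) * en := by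
    have h5 : (FF.ncard : ℝ) ≤ ((⋃ g, F g : Set N).ncard : ℝ) + (F'.ncard : ℝ) := by
      exact_mod_cast Set.ncard_union_le _ _
    rw [add_mul]
    linarith
  -- the approximator of the OR
  have hup : ∀ p, p ∉ EE → (∃ nd ∈ Z, nv C l z nd (pl f (px p)) = true) →
      S.ev c (px p) = true := by
    rintro p hp ⟨nd, hnd, hv⟩
    rw [hEE, Set.mem_union, not_or, Set.mem_iUnion] at hp
    obtain ⟨hp1, hp2⟩ := hp
    push Not at hp1
    refine h3 p hp2 ⟨an S f a nd, List.mem_map_of_mem hnd, ?_⟩
    cases nd with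
    | inl w =>
        rw [an_inl S f a w (fval C l z (pl f (px p)))]
        exact hv
    | inr g => exact h1 p (fun g _ => hp1 g) g (l.le_top g) hv
  have hdown : ∀ p, p ∉ FF → S.ev c (py p) = true →
      ∃ nd ∈ Z, nv C l z nd (pl f (py p)) = true := by
    intro p hp hv
    rw [hFF, Set.mem_union, not_or, Set.mem_iUnion] at hp
    obtain ⟨hp1, hp2⟩ := hp
    push Not at hp1
    obtain ⟨b, hb, hbe⟩ := h4 p hp2 hv
    obtain ⟨nd, hnd, rfl⟩ := List.mem_map.mp hb
    refine ⟨nd, hnd, ?_⟩
    cases nd with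
    | inl w =>
        rw [an_inl S f a w (fval C l z (pl f (py p)))] at hbe
        exact hbe
    | inr g => exact h2 p (fun g _ => hp1 g) g (l.le_top g) hbe
  have hep0 := ep_nonneg S
  have hen0 := en_nonneg S
  have hP0 : (0 : ℝ) ≤ Fintype.card P := Nat.cast_nonneg _
  have hN0 : (0 : ℝ) ≤ Fintype.card N := Nat.cast_nonneg _
  have hK0 : (0 : ℝ) ≤ (Fintype.card G : ℝ) + Z.length := by positivity
  rcases hdich c with h | h
  · have h5 : (({p : P | ∃ nd ∈ Z, nv C l z nd (pl f (px p)) = true} : Set P).ncard : ℝ) ≤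
        Fintype.card P := by
      have h6 := Set.ncard_le_ncard (Set.subset_univ
        ({p : P | ∃ nd ∈ Z, nv C l z nd (pl f (px p)) = true} : Set P)) (Set.toFinite _)
      rw [Set.ncard_univ, Nat.card_eq_fintype_card] at h6
      exact_mod_cast h6
    have h7 : (Fintype.card N : ℝ) ≤
        (({p : N | ∃ nd ∈ Z, nv C l z nd (pl f (py p)) = true} : Set N).ncard : ℝ) +
          (Fintype.card G + Z.length) * en := by
      have hsub : (Set.univ : Set N) ⊆
          {p : N | ∃ nd ∈ Z, nv C l z nd (pl f (py p)) = true} ∪ FF := by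
        intro p _
        by_cases hpF : p ∈ FF
        · exact Or.inr hpF
        · exact Or.inl (hdown p hpF (h _))
      have h8 := (Set.ncard_le_ncard hsub (Set.toFinite _)).trans (Set.ncard_union_le _ _)
      rw [Set.ncard_univ, Nat.card_eq_fintype_card] at h8
      have h9 : (Fintype.card N : ℝ) ≤
          (({p : N | ∃ nd ∈ Z, nv C l z nd (pl f (py p)) = true} : Set N).ncard : ℝ) +
            (FF.ncard : ℝ) := by exact_mod_cast h8
      linarith
    have h8 := mul_le_mul_of_nonneg_right h5 hN0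
    have h9 := mul_le_mul_of_nonneg_left h7 hP0
    have h10 : 0 ≤ ((Fintype.card G : ℝ) + Z.length) * (ep * Fintype.card N) := by positivity
    linarith
  · have hP : (({p : P | ∃ nd ∈ Z, nv C l z nd (pl f (px p)) = true} : Set P).ncard : ℝ) ≤
        (({p : P | S.ev c (px p) = true} : Set P).ncard : ℝ) +
          (Fintype.card G + Z.length) * ep := by
      have hsub : ({p : P | ∃ nd ∈ Z, nv C l z nd (pl f (px p)) = true} : Set P) ⊆
          {p : P | S.ev c (px p) = true} ∪ EE := by
        intro p hp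
        by_cases hpE : p ∈ EE
        · exact Or.inr hpE
        · exact Or.inl (hup p hpE hp)
      have h5 : (({p : P | ∃ nd ∈ Z, nv C l z nd (pl f (px p)) = true} : Set P).ncard : ℝ) ≤
          (({p : P | S.ev c (px p) = true} : Set P).ncard : ℝ) + (EE.ncard : ℝ) := by
        exact_mod_cast (Set.ncard_le_ncard hsub (Set.toFinite _)).trans (Set.ncard_union_le _ _)
      linarith
    have hN : (({p : N | S.ev c (py p) = true} : Set N).ncard : ℝ) ≤
        (({p : N | ∃ nd ∈ Z, nv C l z nd (pl f (py p)) = true} : Set N).ncard : ℝ) +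
          (Fintype.card G + Z.length) * en := by
      have hsub : ({p : N | S.ev c (py p) = true} : Set N) ⊆
          {p : N | ∃ nd ∈ Z, nv C l z nd (pl f (py p)) = true} ∪ FF := by
        intro p hp
        by_cases hpF : p ∈ FF
        · exact Or.inr hpF
        · exact Or.inl (hdown p hpF hp)
      have h5 : (({p : N | S.ev c (py p) = true} : Set N).ncard : ℝ) ≤
          (({p : N | ∃ nd ∈ Z, nv C l z nd (pl f (py p)) = true} : Set N).ncard : ℝ) +
            (FF.ncard : ℝ) := by
        exact_mod_cast (Set.ncard_le_ncard hsub (Set.toFinite _)).trans (Set.ncard_union_le _ _)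
      linarith
    have h6 := mul_le_mul_of_nonneg_right hP hN0
    have h7 := mul_le_mul_of_nonneg_right hN hP0
    linarith

end Or

/-- composition of substitutions -/
theorem pl_cmpG {I J K : Type} (f : K → J ⊕ Bool) (g : J → I ⊕ Bool) (x : I → Bool) :
    pl (NEGS.cmp f g) x = pl f (pl g x) := by
  funext k
  unfold pl NEGS.cmp
  cases f k <;> rfl

section Window

variable {J G : Type} {E P N : Type} [Fintype P] [Fintype N] {px : P → E → Bool}
  {py : N → E → Bool} {ep en : ℝ} (S : Sys E P N px py ep en)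

include S in
open Classical in
/-- `window_le` with an additive slack `δ` in the dichotomy -/
theorem window_le' {δ : ℝ} (hdich : ∀ a : S.A, (∀ w, S.ev a w = true) ∨
      (({p : P | S.ev a (px p) = true} : Set P).ncard : ℝ) * Fintype.card N ≤
        (({p : N | S.ev a (py p) = true} : Set N).ncard : ℝ) * Fintype.card P + δ)
    (hδ : 0 ≤ δ) [Finite G]
    (C : Circuit J G) (hC : ∃ d, C.DepthLE d) (Vf : (J → Bool) → G → Bool)
    (hV : ∀ x, C.Consistent x (Vf x)) (sub : J → E ⊕ Bool) :
    ((univ.filter (fun p : P => Chg C Vf (pl sub (fun _ => false)) (pl sub (px p)))).card : ℝ) *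
        Fintype.card N ≤
      ((univ.filter (fun c : N => Chg C Vf (pl sub (fun _ => false)) (pl sub (py c)))).card : ℝ) *
        Fintype.card P +
      ((Nat.card G + Nat.card (SW C) + 1 : ℕ) : ℝ) *
        (ep * Fintype.card N + en * Fintype.card P) + δ := by
  obtain ⟨d, lev, hlev1, hlev2⟩ := hC
  let l : Lev C := ⟨lev, d, fun g => (hlev1 g).2, hlev2⟩
  have : Fintype G := Fintype.ofFinite G
  set X0 : J → Bool := pl sub (fun _ => false) with hX0
  -- the nodes: the special wires and the output which are zero at the empty window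
  let W0 : List ((J ⊕ Bool) ⊕ G) :=
    Sum.inr C.out :: (univ : Finset (SW C)).toList.map (fun p => C.src p.1.1 p.1.2)
  let Z : List ((J ⊕ Bool) ⊕ G) := W0.filter (fun nd => !(Circuit.node X0 (Vf X0) nd))
  have hW0 : W0.length = Nat.card (SW C) + 1 := by
    simp only [W0, List.length_cons, List.length_map, length_toList]
    rw [Nat.card_eq_fintype_card, card_univ]
  have hZ : Z.length ≤ Nat.card (SW C) + 1 := by
    rw [← hW0]
    exact List.length_filter_le _ _
  have hZmem : ∀ nd, nd ∈ Z ↔ nd ∈ W0 ∧ Circuit.node X0 (Vf X0) nd = false := by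
    intro nd
    simp only [Z, List.mem_filter, Bool.not_eq_true']
  have hW0mem : ∀ nd, nd ∈ W0 ↔ nd = Sum.inr C.out ∨
      ∃ s, ¬ C.Plain s ∧ ∃ k : Fin (C.arity s), nd = C.src s k := by
    intro nd
    simp only [W0, List.mem_cons, List.mem_map, mem_toList, mem_univ, true_and]
    constructor
    · rintro (h | ⟨p, rfl⟩)
      · exact Or.inl h
      · exact Or.inr ⟨p.1.1, p.2, p.1.2, rfl⟩
    · rintro (h | ⟨s, hs, k, rfl⟩)
      · exact Or.inl h
      · exact Or.inr ⟨⟨⟨s, k⟩, hs⟩, rfl⟩
  have hle : ∀ x : E → Bool, ∀ j, X0 j = true → pl sub x j = true := by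
    intro x j hj
    exact pl_mono sub (fun i hi => absurd hi (by simp)) j hj
  have e0 : ∀ nd, nv C l (Vf X0) nd X0 = Circuit.node X0 (Vf X0) nd := fun nd =>
    nv_true C l (Vf X0) X0 (Vf X0) (hV X0) (fun _ _ => rfl) nd
  have key : ∀ x : E → Bool, Chg C Vf X0 (pl sub x) ↔
      ∃ nd ∈ Z, nv C l (Vf X0) nd (pl sub x) = true := by
    intro x
    constructor
    · -- if no node of the list is one, then nothing changes
      intro hch
      by_contra hcon
      push Not at hcon
      have h0 : ∀ nd ∈ W0, nv C l (Vf X0) nd (pl sub x) = nv C l (Vf X0) nd X0 := by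
        intro nd hnd
        cases h2 : nv C l (Vf X0) nd X0
        · rw [e0] at h2
          exact Bool.eq_false_iff.mpr (hcon nd ((hZmem nd).mpr ⟨hnd, h2⟩))
        · exact nv_mono C l _ _ (hle x) h2
      have h1 : ∀ s, ¬ C.Plain s → ∀ k : Fin (C.arity s),
          nv C l (Vf X0) (C.src s k) (pl sub x) = nv C l (Vf X0) (C.src s k) X0 :=
        fun s hs k => h0 _ ((hW0mem _).mpr (Or.inr ⟨s, hs, k, rfl⟩))
      have h2 := special_frozen C l Vf hV X0 (pl sub x) h1
      have h3 : ∀ nd, nv C l (Vf X0) nd (pl sub x) =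
          Circuit.node (pl sub x) (Vf (pl sub x)) nd := fun nd =>
        nv_true C l (Vf X0) (pl sub x) (Vf (pl sub x)) (hV _) h2 nd
      rcases hch with ⟨s, hs, k, hk⟩ | hout
      · apply hk
        rw [← e0, ← h3]
        exact (h1 s hs k).symm
      · apply hout
        have h4 := h0 (Sum.inr C.out) ((hW0mem _).mpr (Or.inl rfl))
        rw [h3, e0] at h4
        exact h4.symm
    · rintro ⟨nd, hnd, hv⟩
      by_contra hch
      unfold Chg at hch
      push Not at hch
      obtain ⟨hbad, hout⟩ := hch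
      have h1 : ∀ s, ¬ C.Plain s → ∀ k : Fin (C.arity s),
          Circuit.node X0 (Vf X0) (C.src s k) =
            Circuit.node (pl sub x) (Vf (pl sub x)) (C.src s k) := by
        intro s hs k
        by_contra hne
        exact hbad ⟨s, hs, k, hne⟩
      have h2 : ∀ s, ¬ C.Plain s → Vf X0 s = Vf (pl sub x) s := fun s hs =>
        special_eq C (hV X0) (hV (pl sub x)) s (h1 s hs)
      have h3 : nv C l (Vf X0) nd (pl sub x) =
          Circuit.node (pl sub x) (Vf (pl sub x)) nd :=
        nv_true C l (Vf X0) (pl sub x) (Vf (pl sub x)) (hV _) h2 nd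
      rw [h3] at hv
      obtain ⟨hnd1, hnd2⟩ := (hZmem nd).mp hnd
      rcases (hW0mem nd).mp hnd1 with rfl | ⟨s, hs, k, rfl⟩
      · change Vf (pl sub x) C.out = true at hv
        change Vf X0 C.out = false at hnd2
        rw [hout, hv] at hnd2
        exact absurd hnd2 (by decide)
      · have h4 := h1 s hs k
        rw [hnd2, hv] at h4
        exact absurd h4 (by decide)
  have h1 := or_le' S hδ C l (Vf X0) sub Z hdich
  have e1 : ({p : P | ∃ nd ∈ Z, nv C l (Vf X0) nd (pl sub (px p)) = true} : Set P) =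
      ((univ.filter (fun p : P => Chg C Vf X0 (pl sub (px p))) : Finset P) : Set P) := by
    ext p
    rw [coe_filter, Set.mem_ofPred_eq, Set.mem_ofPred_eq, key]
    simp
  have e2 : ({p : N | ∃ nd ∈ Z, nv C l (Vf X0) nd (pl sub (py p)) = true} : Set N) =
      ((univ.filter (fun p : N => Chg C Vf X0 (pl sub (py p))) : Finset N) : Set N) := by
    ext p
    rw [coe_filter, Set.mem_ofPred_eq, Set.mem_ofPred_eq, key]
    simp
  rw [e1, e2, Set.ncard_coe_finset, Set.ncard_coe_finset] at h1
  refine h1.trans ?_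
  have hep0 := ep_nonneg S
  have hen0 := en_nonneg S
  have hcardK : ((Fintype.card G : ℝ) + Z.length) ≤
      ((Nat.card G + Nat.card (SW C) + 1 : ℕ) : ℝ) := by
    rw [Nat.card_eq_fintype_card (α := G)]
    have : Fintype.card G + Z.length ≤ Fintype.card G + Nat.card (SW C) + 1 := by omega
    exact_mod_cast this
  have h2 : 0 ≤ ep * (Fintype.card N : ℝ) + en * Fintype.card P := by positivity
  have h3 := mul_le_mul_of_nonneg_right hcardK h2
  linarith

end Window

section Core

variable {E PT NT : Type} {L : ℕ}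

/-- the positive member of a pair: a window, tests for the windows before it, a positive test -/
def Xp (px : PT → E → Bool) (py : NT → E → Bool) (i : Fin L × (Fin L → NT) × PT) :
    Fin L × E → Bool :=
  pl (sb py i.1 i.2.1) (px i.2.2)

/-- the negative member of a pair -/
def Xn (py : NT → E → Bool) (i : Fin L × (Fin L → NT) × PT) : Fin L × E → Bool :=
  pl (sb py i.1 i.2.1) (fun _ => false)

open Classical in
/-- a small circuit whose special gates seldom change along chains gives different answers on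
few of the pairs -/
theorem coreG [Fintype PT] [Fintype NT] [Nonempty NT] {px : PT → E → Bool}
    {py : NT → E → Bool} {ep en : ℝ} (S : Sys E PT NT px py ep en) {r D : ℕ}
    (hep : (2 : ℝ) ^ r * ep ≤ Fintype.card PT) (hen : (2 : ℝ) ^ r * en ≤ Fintype.card NT)
    (hdich : ∀ a : S.A, (∀ w, S.ev a w = true) ∨
      (2 : ℝ) ^ r * ((({p | S.ev a (px p) = true} : Set PT).ncard : ℝ) * Fintype.card NT) ≤
        (2 : ℝ) ^ r * ((({p | S.ev a (py p) = true} : Set NT).ncard : ℝ) * Fintype.card PT) +
        (Fintype.card PT : ℝ) * Fintype.card NT)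
    {I G : Type} [Finite G] (C : Circuit I G) (hC : ∃ d, C.DepthLE d)
    (hD : ∀ (X : ℕ → I → Bool) (v : ℕ → G → Bool),
      (∀ i e, X i e = true → X (i + 1) e = true) → (∀ i, C.Consistent (X i) (v i)) →
      ∀ N : ℕ, ((Finset.range N).filter (fun i => ChO C X v i)).card ≤ D)
    (sub : I → (Fin L × E) ⊕ Bool) (Vf : (I → Bool) → G → Bool)
    (hV : ∀ x, C.Consistent x (Vf x)) {θ : ℝ} (hθ : 0 ≤ θ) (h1 : 2 * (D : ℝ) ≤ θ * L)
    (h3 : 2 * (2 * ((Nat.card G + Nat.card (SW C) + 1 : ℕ) : ℝ) + 1) ≤ θ * 2 ^ r) :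
    (({i | Chg C Vf (pl sub (Xn py i)) (pl sub (Xp px py i))} :
        Set (Fin L × (Fin L → NT) × PT)).ncard : ℝ) ≤
      θ * Nat.card (Fin L × (Fin L → NT) × PT) := by
  have hep0 := ep_nonneg S
  have hen0 := en_nonneg S
  set N0 : ℝ := (Fintype.card NT : ℝ) with hN0
  set PP : ℝ := (Fintype.card PT : ℝ) with hPP
  set M1 : ℕ := Fintype.card (Fin L → NT) with hM1
  set Kk : ℝ := ((Nat.card G + Nat.card (SW C) + 1 : ℕ) : ℝ) with hKk
  have hN0pos : 0 < N0 := by
    rw [hN0]
    exact_mod_cast Fintype.card_pos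
  have hPP0 : 0 ≤ PP := Nat.cast_nonneg _
  have hKk0 : 0 ≤ Kk := Nat.cast_nonneg _
  have h2r : (0 : ℝ) < 2 ^ r := by positivity
  set δ : ℝ := PP * N0 / 2 ^ r with hδd
  have hδ : 0 ≤ δ := by positivity
  have hδr : (2 : ℝ) ^ r * δ = PP * N0 := by
    rw [hδd]
    field_simp
  have hdich' : ∀ a : S.A, (∀ w, S.ev a w = true) ∨
      (({p : PT | S.ev a (px p) = true} : Set PT).ncard : ℝ) * N0 ≤
        (({p : NT | S.ev a (py p) = true} : Set NT).ncard : ℝ) * PP + δ := by
    intro a
    rcases hdich a with h | h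
    · exact Or.inl h
    · right
      have h4 : (2 : ℝ) ^ r * ((({p : PT | S.ev a (px p) = true} : Set PT).ncard : ℝ) * N0) ≤
          2 ^ r * ((({p : NT | S.ev a (py p) = true} : Set NT).ncard : ℝ) * PP + δ) := by
        rw [mul_add, hδr]
        exact h
      exact le_of_mul_le_mul_left h4 h2r
  -- one block
  have hone : ∀ (j : Fin L) (τ : Fin L → NT),
      ((univ.filter (fun s : PT =>
        Chg C Vf (pl sub (Xn (PT := PT) py (j, τ, s))) (pl sub (Xp px py (j, τ, s))))).card : ℝ) *
          N0 ≤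
      ((univ.filter (fun c : NT => Chg C Vf (pl sub (pl (sb py j τ) (fun _ => false)))
        (pl sub (pl (sb py j τ) (py c))))).card : ℝ) * PP + Kk * (ep * N0 + en * PP) + δ := by
    intro j τ
    have h4 := window_le' S hdich' hδ C hC Vf hV (NEGS.cmp sub (sb py j τ))
    simp only [pl_cmpG] at h4
    exact h4
  -- the sum over the blocks
  have hsum := chain_sum (L := L) py (fun x y => Chg C Vf (pl sub x) (pl sub y)) (D := D) (by
    intro τ
    have h4 := hD (fun i => pl sub (Wc py i τ)) (fun i => Vf (pl sub (Wc py i τ)))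
      (fun i e he => pl_mono sub (Wc_mono py i τ) e he) (fun i => hV _) L
    refine le_trans ?_ h4
    refine card_le_card_of_injOn (fun j : Fin L => (j : ℕ)) ?_ (fun a _ b _ h => Fin.ext h)
    intro j hj
    rw [mem_coe, mem_filter] at hj
    rw [mem_coe, mem_filter, mem_range]
    refine ⟨j.2, ?_⟩
    rcases hj.2 with ⟨s, hs, k', hk'⟩ | h5
    · exact Or.inl ⟨s, hs, trivial, k', hk'⟩
    · exact Or.inr h5)
  have hA : (({i | Chg C Vf (pl sub (Xn py i)) (pl sub (Xp px py i))} :
      Set (Fin L × (Fin L → NT) × PT)).ncard) =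
      ∑ j : Fin L, ∑ τ : Fin L → NT, (univ.filter (fun s : PT =>
        Chg C Vf (pl sub (Xn (PT := PT) py (j, τ, s))) (pl sub (Xp px py (j, τ, s))))).card := by
    have e : ({i | Chg C Vf (pl sub (Xn py i)) (pl sub (Xp px py i))} :
        Set (Fin L × (Fin L → NT) × PT)) =
        ((univ.filter (fun i : Fin L × (Fin L → NT) × PT =>
          Chg C Vf (pl sub (Xn py i)) (pl sub (Xp px py i))) : Finset _) : Set _) := by
      ext i
      simp
    rw [e, Set.ncard_coe_finset, card_filter, Fintype.sum_prod_type]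
    refine sum_congr rfl (fun j _ => ?_)
    rw [Fintype.sum_prod_type]
    refine sum_congr rfl (fun τ _ => ?_)
    rw [card_filter]
  have hcard : (Nat.card (Fin L × (Fin L → NT) × PT) : ℝ) = L * (M1 * PP) := by
    rw [Nat.card_eq_fintype_card, Fintype.card_prod, Fintype.card_prod, Fintype.card_fin]
    push_cast
    rfl
  rw [hcard, hA]
  -- numbers
  have hsumR : ((∑ j : Fin L, ∑ τ : Fin L → NT, (univ.filter (fun c : NT =>
      Chg C Vf (pl sub (pl (sb py j τ) (fun _ => false)))
        (pl sub (pl (sb py j τ) (py c))))).card : ℕ) : ℝ) ≤ N0 * (D * M1) := by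
    have h4 := (Nat.cast_le (α := ℝ)).2 hsum
    rw [Nat.cast_mul, Nat.cast_mul] at h4
    exact h4
  have hM0 : (0 : ℝ) ≤ M1 := Nat.cast_nonneg _
  have hL0 : (0 : ℝ) ≤ L := Nat.cast_nonneg _
  -- the small errors of one block
  have herr : 2 * (Kk * (ep * N0 + en * PP) + δ) ≤ θ * (PP * N0) := by
    have h5 : (2 : ℝ) ^ r * (Kk * (ep * N0 + en * PP) + δ) ≤ (2 * Kk + 1) * (PP * N0) := by
      have h6 := mul_le_mul_of_nonneg_right hep hN0pos.le
      have h7 := mul_le_mul_of_nonneg_right hen hPP0
      have h8 := mul_le_mul_of_nonneg_left h6 hKk0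
      have h9 := mul_le_mul_of_nonneg_left h7 hKk0
      linarith
    have h6 : (2 : ℝ) ^ r * (2 * (Kk * (ep * N0 + en * PP) + δ)) ≤
        2 ^ r * (θ * (PP * N0)) := by
      have h7 : (0 : ℝ) ≤ PP * N0 := mul_nonneg hPP0 hN0pos.le
      have h8 := mul_le_mul_of_nonneg_right h3 h7
      linarith
    exact le_of_mul_le_mul_left h6 h2r
  have htot : ((∑ j : Fin L, ∑ τ : Fin L → NT, (univ.filter (fun s : PT =>
        Chg C Vf (pl sub (Xn (PT := PT) py (j, τ, s)))
          (pl sub (Xp px py (j, τ, s))))).card : ℕ) : ℝ) * N0 ≤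
      (θ * (L * (M1 * PP))) * N0 := by
    calc ((∑ j : Fin L, ∑ τ : Fin L → NT, (univ.filter (fun s : PT =>
        Chg C Vf (pl sub (Xn (PT := PT) py (j, τ, s)))
          (pl sub (Xp px py (j, τ, s))))).card : ℕ) : ℝ) * N0
        = ∑ j : Fin L, ∑ τ : Fin L → NT, ((univ.filter (fun s : PT =>
        Chg C Vf (pl sub (Xn (PT := PT) py (j, τ, s)))
          (pl sub (Xp px py (j, τ, s))))).card : ℝ) * N0 := by
          push_cast
          rw [sum_mul]
          refine sum_congr rfl (fun j _ => ?_)
          rw [sum_mul]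
      _ ≤ ∑ j : Fin L, ∑ τ : Fin L → NT, (((univ.filter (fun c : NT =>
          Chg C Vf (pl sub (pl (sb py j τ) (fun _ => false)))
          (pl sub (pl (sb py j τ) (py c))))).card : ℝ) * PP +
            Kk * (ep * N0 + en * PP) + δ) :=
          sum_le_sum (fun j _ => sum_le_sum (fun τ _ => hone j τ))
      _ = ((∑ j : Fin L, ∑ τ : Fin L → NT, (univ.filter (fun c : NT =>
          Chg C Vf (pl sub (pl (sb py j τ) (fun _ => false)))
          (pl sub (pl (sb py j τ) (py c))))).card : ℕ) : ℝ) * PP +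
            L * M1 * (Kk * (ep * N0 + en * PP) + δ) := by
          push_cast
          simp only [sum_add_distrib, sum_const, card_univ, nsmul_eq_mul,
            Fintype.card_fin, ← hM1, sum_mul]
          ring
      _ ≤ N0 * (D * M1) * PP + L * M1 * (Kk * (ep * N0 + en * PP) + δ) := by
          apply add_le_add_left
          exact mul_le_mul_of_nonneg_right hsumR hPP0
      _ ≤ (θ * (L * (M1 * PP))) * N0 := by
          have k1 : 2 * (N0 * (D * M1) * PP) ≤ θ * L * (N0 * M1 * PP) := by
            have h4 : (0 : ℝ) ≤ N0 * M1 * PP := by positivity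
            have h5 := mul_le_mul_of_nonneg_right h1 h4
            linarith
          have h6 : (0 : ℝ) ≤ L * M1 := by positivity
          have k6 := mul_le_mul_of_nonneg_left herr h6
          linarith
  exact le_of_mul_le_mul_right htot hN0pos

end Core

end Pool.Agent.DG
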