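import Pool.Agent.Lib.MP_66cd2e_lc.DG.Sys
import Pool.Agent.Lib.MP_66cd2e_lc.DG.Win
import Pool.Agent.Lib.MP_66cd2e_lc.DG.Rnd
import Pool.Agent.Lib.MP_66cd2e_lc.DG.Num
import Pool.Agent.Lib.MP_66cd2e_lc.DG.Stmt
import Pool.Agent.Lib.MP_66cd2e_lc.DN.FamC

/-!
The final statement.
-/

set_option autoImplicit false

namespace Pool.Agent.DG

open Finset Pool.Agent.NEG Pool.Agent.NEGS Pool.Agent.DN Pool.Agent.Lib.MP_66cd2e_lc

/-- the values of the gates of an acyclic circuit are unique -/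
theorem val_unique {I G : Type} (C : Circuit I G) (hC : ∃ d, C.DepthLE d) (x : I → Bool)
    (v w : G → Bool) (hv : C.Consistent x v) (hw : C.Consistent x w) : v = w := by
  obtain ⟨d, lev, _, hlev⟩ := hC
  have key : ∀ m : ℕ, ∀ g, lev g ≤ m → v g = w g := by
    intro m
    induction m with
    | zero =>
        intro g hg
        rw [hv g, hw g]
        congr 1
        funext i
        cases h : C.src g i with
        | inl a => cases a <;> rfl
        | inr g' =>
            have := hlev g i g' h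
            omega
    | succ m ih =>
        intro g hg
        rw [hv g, hw g]
        congr 1
        funext i
        cases h : C.src g i with
        | inl a => cases a <;> rfl
        | inr g' =>
            have := hlev g i g' h
            exact ih g' (by omega)
  funext g
  exact key (lev g) g le_rfl

theorem few_mono {I G : Type} {C : Circuit I G} {M M' : ℝ} (h : Few C M) (hM : M ≤ M') :
    Few C M' := by
  rcases h with ⟨t, m, h1, h2, h3⟩ | ⟨m, r, rho, h1, h2, h3, h4⟩ | ⟨h1, h2⟩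
  · exact Or.inl ⟨t, m, h1, h2, h3.trans hM⟩
  · exact Or.inr (Or.inl ⟨m, r, rho, h1, h2, h3, h4.trans hM⟩)
  · exact Or.inr (Or.inr ⟨h1, h2.trans hM⟩)

theorem card_good {A B C : Type} [Finite A] [Finite B] [Finite C] (p : B → Prop)
    (h : Nat.card B ≤ 2 * Nat.card {b // p b}) :
    Nat.card (A × B × C) ≤ 2 * Nat.card {i : A × B × C // p i.2.1} := by
  have h1 : Nat.card {i : A × B × C // p i.2.1} = Nat.card (A × {b // p b} × C) :=
    Nat.card_congr
      { toFun := fun i => (i.1.1, ⟨i.1.2.1, i.2⟩, i.1.2.2)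
        invFun := fun j => ⟨(j.1, j.2.1.1, j.2.2), j.2.1.2⟩
        left_inv := fun _ => rfl
        right_inv := fun _ => rfl }
  rw [h1, Nat.card_prod, Nat.card_prod, Nat.card_prod, Nat.card_prod]
  calc Nat.card A * (Nat.card B * Nat.card C)
      ≤ Nat.card A * ((2 * Nat.card {b // p b}) * Nat.card C) :=
        Nat.mul_le_mul_left _ (Nat.mul_le_mul_right _ h)
    _ = _ := by ring

open Classical in
theorem card_gd {L k q m Λ : ℕ} {tb : Fin m → Fin m → Bool}
    (h : 4 * (univ.filter (fun x : Fin L × Rw k q → Fin m → Bool => ¬ Good tb Λ x)).card ≤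
      Fintype.card (Fin L × Rw k q → Fin m → Bool)) :
    Nat.card (Fin L → Mt k q m) ≤ 2 * Nat.card {τ : Fin L → Mt k q m //
      Good tb Λ (fun (a : Fin L × Rw k q) (b : Fin m) => τ a.1 a.2 b)} := by
  let e : (Fin L → Mt k q m) ≃ (Fin L × Rw k q → Fin m → Bool) :=
    (Equiv.curry (Fin L) (Rw k q) (Fin m → Bool)).symm
  have h1 : Nat.card {τ : Fin L → Mt k q m //
      Good tb Λ (fun (a : Fin L × Rw k q) (b : Fin m) => τ a.1 a.2 b)} =
      Nat.card {x : Fin L × Rw k q → Fin m → Bool // Good tb Λ x} :=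
    Nat.card_congr (e.subtypeEquiv (fun τ => Iff.rfl))
  have h2 : Nat.card (Fin L → Mt k q m) = Nat.card (Fin L × Rw k q → Fin m → Bool) :=
    Nat.card_congr e
  rw [h1, h2, Nat.card_eq_fintype_card, Nat.card_eq_fintype_card, Fintype.card_subtype]
  have h3 := card_filter_add_card_filter_not
    (s := (univ : Finset (Fin L × Rw k q → Fin m → Bool))) (fun x => Good tb Λ x)
  rw [card_univ] at h3
  omega

/-- the planted bits -/
theorem Xp_bit {L k q m : ℕ} (i : Fin L × (Fin L → Mt k q m) × (Fin k → Fin q) × (Fin m → Fin k))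
    (b : Fin m) :
    Xp px py i (i.1, ((i.2.2.2 b, i.2.2.1 (i.2.2.2 b)), b)) = true := by
  unfold Xp pl DN.sb
  rw [if_neg (lt_irrefl _), if_pos rfl]
  change px i.2.2 _ = true
  unfold px
  rw [decide_eq_true_eq]
  exact ⟨rfl, rfl⟩

/-- the bits of the negative member are bits of the tests -/
theorem Xn_bit {L k q m : ℕ} (i : Fin L × (Fin L → Mt k q m) × (Fin k → Fin q) × (Fin m → Fin k))
    (a : Fin L × Rw k q) (b : Fin m) (h : i.2.1 a.1 a.2 b = false) :
    Xn py i (a.1, (a.2, b)) = false := by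
  unfold Xn pl DN.sb
  by_cases h1 : (a.1 : ℕ) < i.1
  · rw [if_pos h1]
    exact h
  · rw [if_neg h1]
    by_cases h2 : a.1 = i.1
    · rw [if_pos h2]
    · rw [if_neg h2]

theorem final (ε : ℝ) (hε : 0 < ε) : ∃ c : ℝ, 0 < c ∧ ∃ K₀ : ℕ, ∀ n K : ℕ, K₀ ≤ K →
    (K : ℝ) ≤ Real.logb 2 n - 2 * Real.logb 2 (Real.logb 2 n) - K₀ →
    ∃ (T0 : Tournament (Fin n)) (A B : Finset (Fin n)) (N : ℕ)
      (P Q : Fin N → Tournament (Fin n)), Disjoint A B ∧ 0 < N ∧
      (∀ S T, SameOff T0 S A B → SameOff T0 T A B → (∀ a ∈ A, ∀ b ∈ B, S.arc a b → T.arc a b) →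
        domNumber T ≤ domNumber S + 1) ∧
      (∀ i, SameOff T0 (P i) A B ∧ SameOff T0 (Q i) A B ∧ domNumber (P i) ≤ K ∧
        Real.logb 2 n - 2 * Real.logb 2 (Real.logb 2 n) - K₀ < domNumber (Q i)) ∧
      ∀ (G : Type) [Finite G] (C : Circuit ({x // x ∈ A} × {x // x ∈ B}) G),
        (∃ d, C.DepthLE d) → Few C ((n : ℝ) ^ (1 - ε)) → (Nat.card G : ℝ) ≤ (n : ℝ) ^ (c * K) →
        ¬ Separates T0 A B K (Real.logb 2 n - 2 * Real.logb 2 (Real.logb 2 n) - K₀) C ∧
        ({i | Differs A B C (P i) (Q i)}.ncard : ℝ) ≤ (n : ℝ) ^ (-c) * N := by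
  classical
  obtain ⟨c, hc, K₀, hnum⟩ := numbersG (min ε 1) (lt_min hε one_pos) (min_le_right _ _)
  refine ⟨c, hc, K₀, fun n K hK1 hK2 => ?_⟩
  obtain ⟨k, g, l, r, L, m, Λ, rfl, hl, h2l, hg, hkg, hB, hr, hn, hΛm, htb, hLam, hL, hG⟩ :=
    hnum n K hK1 hK2
  set q : ℕ := 2 ^ (3 * g) with hq
  have hq0 : 0 < q := by positivity
  have hk0 : 0 < k := by omega
  have hL0 : 0 < L := by
    rcases Nat.eq_zero_or_pos L with h | h
    · exfalso
      rw [h] at hL
      have h1 : (0 : ℝ) ≤ (n : ℝ) ^ (1 - min ε 1) := Real.rpow_nonneg (Nat.cast_nonneg _) _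
      push_cast at hL
      linarith
    · exact h
  have hn2 : 2 ≤ n := by
    have h1 : 1 ≤ L * (k * q) := Nat.succ_le_of_lt (by positivity)
    omega
  have hn1 : (1 : ℝ) < n := by exact_mod_cast hn2
  have hn0 : (0 : ℝ) < n := by linarith
  have hM0 : (0 : ℝ) ≤ (n : ℝ) ^ (1 - min ε 1) := Real.rpow_nonneg (Nat.cast_nonneg _) _
  have hθ0 : (0 : ℝ) < (n : ℝ) ^ (-c) := Real.rpow_pos_of_pos hn0 _
  have hθ1 : (n : ℝ) ^ (-c) < 1 := Real.rpow_lt_one_of_one_lt_of_neg hn1 (by linarith)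
  obtain ⟨tb, htb1⟩ := exists_tb (Fin L × Rw k q) m Λ hΛm (by
    simp only [Fintype.card_prod, Fintype.card_fin]
    exact htb)
  obtain ⟨T0, A, B, ea, eb, hAB, hX, hmon, hPd, hQd⟩ := tour hn tb
  -- the tournament of an input of the chain
  let sub : {x // x ∈ A} × {x // x ∈ B} → (Fin L × (Rw k q × Fin m)) ⊕ Bool :=
    fun e => Sum.inl ((ea.symm e.1).1, ((ea.symm e.1).2, eb.symm e.2))
  have hTY : ∀ Y : Fin L × (Rw k q × Fin m) → Bool, ∃ T, SameOff T0 T A B ∧
      inp A B T = pl sub Y ∧ ∀ a b, T.arc (ea a).1 (eb b).1 ↔ Y (a.1, (a.2, b)) = true := by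
    intro Y
    obtain ⟨T, hT1, hT2⟩ := hX (fun a b => Y (a.1, (a.2, b)) = true)
    refine ⟨T, hT1, ?_, hT2⟩
    funext e
    unfold inp
    rw [Bool.eq_iff_iff, decide_eq_true_eq]
    have h1 := hT2 (ea.symm e.1) (eb.symm e.2)
    rw [Equiv.apply_symm_apply, Equiv.apply_symm_apply] at h1
    exact h1
  choose TY hTY1 hTY2 hTY3 using hTY
  let PT : Type := (Fin k → Fin q) × (Fin m → Fin k)
  let Ix : Type := Fin L × (Fin L → Mt k q m) × PT
  let gd : (Fin L → Mt k q m) → Prop :=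
    fun τ => Good tb Λ (fun (a : Fin L × Rw k q) (b : Fin m) => τ a.1 a.2 b)
  have hcard : Nat.card Ix ≤ 2 * Nat.card {i : Ix // gd i.2.1} :=
    card_good gd (card_gd htb1)
  have hIx : 0 < Nat.card Ix := by
    have h1 : Nonempty Ix :=
      ⟨(⟨0, hL0⟩, fun _ _ _ => false, (fun _ => ⟨0, hq0⟩, fun _ => ⟨0, hk0⟩))⟩
    exact Nat.card_pos
  have hpairs : ∃ (N : ℕ) (PP QQ : Fin N → Tournament (Fin n)), 0 < N ∧
        (∀ i, SameOff T0 (PP i) A B ∧ SameOff T0 (QQ i) A B ∧ domNumber (PP i) ≤ k + 1 ∧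
          Real.logb 2 n - 2 * Real.logb 2 (Real.logb 2 n) - K₀ < domNumber (QQ i)) ∧
        ∀ (G : Type) [Finite G] (C : Circuit ({x // x ∈ A} × {x // x ∈ B}) G),
          (∃ d, C.DepthLE d) → Few C ((n : ℝ) ^ (1 - ε)) →
          (Nat.card G : ℝ) ≤ (n : ℝ) ^ (c * ((k + 1 : ℕ) : ℝ)) →
          ({i | Differs A B C (PP i) (QQ i)}.ncard : ℝ) ≤ (n : ℝ) ^ (-c) * N := by
    let eN : {i : Ix // gd i.2.1} ≃ Fin (Nat.card {i : Ix // gd i.2.1}) := Finite.equivFin _
    refine ⟨Nat.card {i : Ix // gd i.2.1}, fun i => TY (Xp px py (eN.symm i).1),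
      fun i => TY (Xn py (eN.symm i).1), by omega, ?_, ?_⟩
    · intro i
      refine ⟨hTY1 _, hTY1 _, ?_, ?_⟩
      · refine hPd _ (hTY1 _) (eN.symm i).1.1 (eN.symm i).1.2.2.1 (fun b =>
          ⟨(eN.symm i).1.2.2.2 b, ?_⟩)
        rw [hTY3]
        exact Xp_bit _ b
      · have h1 : Λ < domNumber (TY (Xn py (eN.symm i).1)) := by
          refine hQd _ Λ (hTY1 _) (fun SA SB hS => ?_)
          obtain ⟨b, hb1, hb2, hb3⟩ := (eN.symm i).2 SA SB hS
          refine ⟨b, hb1, fun a ha => ?_, hb3⟩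
          rw [hTY3, Bool.not_eq_true]
          exact Xn_bit _ a b (hb2 a ha)
        have h2 : ((Λ + 1 : ℕ) : ℝ) ≤ domNumber (TY (Xn py (eN.symm i).1)) := by exact_mod_cast h1
        push_cast at h2
        linarith
    · intro G _ C hC hfew hsize'
      have hfew' : Few C ((n : ℝ) ^ (1 - min ε 1)) := by
        refine few_mono hfew (Real.rpow_le_rpow_of_exponent_le hn1.le ?_)
        have := min_le_left ε 1
        linarith
      obtain ⟨C', hC', hcons, hout, hSW, hCh⟩ := few_ctl C hC hM0 hfew'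
      have hVx : ∀ x, ∃ v, C'.Consistent x v := fun x => by
        obtain ⟨d, lev, h1, h2⟩ := hC'
        exact exists_consistent C' lev d (fun g => (h1 g).2) h2 x
      choose Vf hV using hVx
      set D : ℕ := ⌊36 * (n : ℝ) ^ (1 - min ε 1) + 2⌋₊ with hD
      have hDle : (D : ℝ) ≤ 36 * (n : ℝ) ^ (1 - min ε 1) + 2 := Nat.floor_le (by positivity)
      obtain ⟨ep, en, S, hep, hen, hdich⟩ := good_sys (m := m) hl h2l hg hkg hB hr
      have hmain := coreG (L := L) (r := r) (D := D) S hep hen hdich C' hC'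
        (fun X v hX hv N => by
          rw [hD]
          exact Nat.le_floor (hCh X v hX hv N)) sub Vf hV (θ := (n : ℝ) ^ (-c) / 2)
        (by positivity) ?_ ?_
      · have hle : ({i | Differs A B C (TY (Xp px py (eN.symm i).1)) (TY (Xn py (eN.symm i).1))} :
            Set (Fin (Nat.card {i : Ix // gd i.2.1}))).ncard ≤
            ({i | Chg C' Vf (pl sub (Xn py i)) (pl sub (Xp px py i))} : Set Ix).ncard := by
          refine Set.ncard_le_ncard_of_injOn (fun i => (eN.symm i).1) ?_ ?_ (Set.toFinite _)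
          · intro i hi
            obtain ⟨v, w, hv, hw, hvw⟩ := hi
            rw [hTY2] at hv hw
            have e1 : v = Vf (pl sub (Xp px py (eN.symm i).1)) :=
              val_unique C hC _ _ _ hv ((hcons _ _).mp (hV _))
            have e2 : w = Vf (pl sub (Xn py (eN.symm i).1)) :=
              val_unique C hC _ _ _ hw ((hcons _ _).mp (hV _))
            refine Or.inr ?_
            rw [hout, ← e1, ← e2]
            exact hvw.symm
          · intro i _ j _ hij
            exact eN.symm.injective (Subtype.ext hij)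
        have hle' : (({i | Differs A B C (TY (Xp px py (eN.symm i).1))
            (TY (Xn py (eN.symm i).1))} : Set (Fin (Nat.card {i : Ix // gd i.2.1}))).ncard : ℝ) ≤
            (({i | Chg C' Vf (pl sub (Xn py i)) (pl sub (Xp px py i))} : Set Ix).ncard : ℝ) := by
          exact_mod_cast hle
        have hcard' : (Nat.card Ix : ℝ) ≤ 2 * (Nat.card {i : Ix // gd i.2.1} : ℝ) := by
          exact_mod_cast hcard
        calc _ ≤ _ := hle'
          _ ≤ (n : ℝ) ^ (-c) / 2 * Nat.card Ix := hmain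
          _ ≤ (n : ℝ) ^ (-c) / 2 * (2 * (Nat.card {i : Ix // gd i.2.1} : ℝ)) :=
            mul_le_mul_of_nonneg_left hcard' (by positivity)
          _ = _ := by ring
      · linarith
      · push_cast at hsize' hG hSW ⊢
        linarith
  obtain ⟨N, PP, QQ, hN, hPQ, hall⟩ := hpairs
  refine ⟨T0, A, B, N, PP, QQ, hAB, hN, hmon, hPQ, ?_⟩
  intro G _ C hC hfew hcon
  have h1 := hall G C hC hfew hcon
  refine ⟨fun hdec => ?_, h1⟩
  have h2 : ({i | Differs A B C (PP i) (QQ i)} : Set (Fin N)) = Set.univ := by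
    ext i
    simp only [Set.mem_ofPred_eq, Set.mem_univ, iff_true]
    obtain ⟨h3, h4, h5, h6⟩ := hPQ i
    have hVx : ∀ x, ∃ v, C.Consistent x v := fun x => by
      obtain ⟨d, lev, h1, h2⟩ := hC
      exact exists_consistent C lev d (fun g => (h1 g).2) h2 x
    obtain ⟨v, hv⟩ := hVx (inp A B (PP i))
    obtain ⟨w, hw⟩ := hVx (inp A B (QQ i))
    refine ⟨v, w, hv, hw, ?_⟩
    rw [(hdec _ h3 v hv).1 h5, (hdec _ h4 w hw).2 h6]
    decide
  rw [h2, Set.ncard_univ, Nat.card_eq_fintype_card, Fintype.card_fin] at h1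
  have h3 : (0 : ℝ) < N := by exact_mod_cast hN
  nlinarith

end Pool.Agent.DG
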