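import Pool.Agent.Lib.MP_66cd2e_lc.DG.Mix
import Pool.Agent.Lib.MP_66cd2e_lc.DN.SunGen

/-!
The robust sunflower lemma in product spaces.
-/

set_option autoImplicit false
set_option linter.unusedSectionVars false

namespace Pool.Agent.DG

open Finset

noncomputable section

/-! ### Probabilities -/

section Pr

variable {Ω : Type} [Fintype Ω]

open Classical in
/-- the probability of `P` for the uniform distribution -/
def pr (P : Ω → Prop) : ℝ := ((univ.filter P).card : ℝ) / Fintype.card Ω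

theorem pr_nonneg (P : Ω → Prop) : 0 ≤ pr P := by
  unfold pr
  positivity

open Classical in
theorem pr_mono {P Q : Ω → Prop} (h : ∀ x, P x → Q x) : pr P ≤ pr Q := by
  unfold pr
  refine div_le_div_of_nonneg_right ?_ (Nat.cast_nonneg _)
  exact_mod_cast card_le_card fun x hx => mem_filter.2 ⟨mem_univ _, h x (mem_filter.1 hx).2⟩

theorem pr_congr {P Q : Ω → Prop} (h : ∀ x, P x ↔ Q x) : pr P = pr Q :=
  le_antisymm (pr_mono fun x => (h x).1) (pr_mono fun x => (h x).2)

theorem pr_eq_sum (P : Ω → Prop) [DecidablePred P] :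
    pr P = (∑ x, if P x then (1 : ℝ) else 0) / Fintype.card Ω := by
  unfold pr
  rw [sum_boole]
  congr!

open Classical in
theorem pr_le_one (P : Ω → Prop) : pr P ≤ 1 := by
  unfold pr
  refine div_le_one_of_le₀ ?_ (Nat.cast_nonneg _)
  exact_mod_cast card_le_univ _

open Classical in
theorem pr_not [Nonempty Ω] (P : Ω → Prop) : pr (fun x => ¬ P x) = 1 - pr P := by
  have h0 : (0 : ℝ) < Fintype.card Ω := Nat.cast_pos.2 Fintype.card_pos
  rw [pr_eq_sum, pr_eq_sum, eq_sub_iff_add_eq, ← add_div, div_eq_one_iff_eq h0.ne',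
    ← sum_add_distrib]
  refine (sum_congr rfl fun x _ => (?_ : _ = (1 : ℝ))).trans ?_
  · by_cases h : P x <;> simp [h]
  · rw [sum_const, card_univ, nsmul_eq_mul, mul_one]

end Pr

/-! ### Mixed rows -/

section Mix

variable {A O : Type} [Fintype A] [DecidableEq A] [Fintype O]

/-- `P` depends only on the rows in `U` -/
def Dep (U : Finset A) (P : (A → O) → Prop) : Prop :=
  ∀ y y' : A → O, (∀ a ∈ U, y a = y' a) → P y → P y'

theorem Dep.iff {U : Finset A} {P : (A → O) → Prop} (h : Dep U P) {y y' : A → O}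
    (h1 : ∀ a ∈ U, y a = y' a) : P y ↔ P y' :=
  ⟨h y y' h1, h y' y fun a ha => (h1 a ha).symm⟩

variable [Nonempty O]

open Classical in
/-- the event `P` depends only on the rows in `E` -/
theorem pr_and_mix {E : Finset A} {P : (A → O) → Prop} (hP : Dep E P) (Q : (A → O) → Prop) :
    pr (fun y => P y ∧ Q y) =
      (∑ y, (if P y then (1 : ℝ) else 0) * pr fun y' => Q (mix E y y')) /
        Fintype.card (A → O) := by
  have h0 : (0 : ℝ) < Fintype.card (A → O) := Nat.cast_pos.2 Fintype.card_pos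
  have h1 := sum_mix_one E fun z : A → O => (if P z ∧ Q z then (1 : ℝ) else 0)
  have h2 : ∀ y y' : A → O, (if P (mix E y y') ∧ Q (mix E y y') then (1 : ℝ) else 0) =
      (if P y then 1 else 0) * (if Q (mix E y y') then 1 else 0) := by
    intro y y'
    have h3 : P (mix E y y') ↔ P y := hP.iff fun a ha => mix_in ha y y'
    by_cases h5 : P y <;> by_cases h6 : Q (mix E y y') <;> simp [h3, h5, h6]
  simp only [h2] at h1
  rw [pr_eq_sum]
  congr 1
  have h3 : ∀ y : A → O, (if P y then (1 : ℝ) else 0) * pr (fun y' => Q (mix E y y')) =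
      (∑ y', (if P y then (1 : ℝ) else 0) * (if Q (mix E y y') then 1 else 0)) /
        Fintype.card (A → O) := by
    intro y
    rw [pr_eq_sum, mul_div_assoc', mul_sum]
  rw [sum_congr rfl fun y _ => h3 y, ← sum_div, h1, mul_div_cancel_left₀ _ h0.ne']

open Classical in
/-- independence of events which depend on disjoint sets of rows -/
theorem pr_and {U : Finset A} {P Q : (A → O) → Prop} (hP : Dep U P) (hQ : Dep Uᶜ Q) :
    pr (fun y => P y ∧ Q y) = pr P * pr Q := by
  rw [pr_and_mix hP Q, pr_eq_sum P, div_mul_eq_mul_div, sum_mul]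
  congr 1
  refine sum_congr rfl fun y _ => ?_
  congr 1
  exact pr_congr fun y' => hQ.iff fun a ha => mix_out (mem_compl.1 ha) y y'

end Mix

/-! ### Second moments -/

section Moment

variable {A O α : Type} [Fintype A] [DecidableEq A] [Fintype O] [Nonempty O]

/-- the mean number of events -/
def mu (Y : α → (A → O) → Prop) (G : Finset α) : ℝ := ∑ R ∈ G, pr (Y R)

/-- the second moment of the number of events -/
def qu (Y : α → (A → O) → Prop) (G : Finset α) : ℝ := ∑ R ∈ G, ∑ S ∈ G, pr fun y => Y R y ∧ Y S y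

theorem mu_nonneg (Y : α → (A → O) → Prop) (G : Finset α) : 0 ≤ mu Y G :=
  sum_nonneg fun _ _ => pr_nonneg _

theorem qu_nonneg (Y : α → (A → O) → Prop) (G : Finset α) : 0 ≤ qu Y G :=
  sum_nonneg fun _ _ => sum_nonneg fun _ _ => pr_nonneg _

open Classical in
theorem mom2 (Y : α → (A → O) → Prop) (G : Finset α) :
    mu Y G ^ 2 ≤ pr (fun y => ∃ R ∈ G, Y R y) * qu Y G := by
  have h0 : (0 : ℝ) < Fintype.card (A → O) := Nat.cast_pos.2 Fintype.card_pos
  set X : (A → O) → ℝ := fun y => ∑ R ∈ G, if Y R y then (1 : ℝ) else 0 with hX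
  have h1 : mu Y G = (∑ y, X y) / Fintype.card (A → O) := by
    have h2 : ∑ y, X y = ∑ R ∈ G, ∑ y, if Y R y then (1 : ℝ) else 0 := sum_comm
    rw [h2, sum_div]
    exact sum_congr rfl fun R _ => pr_eq_sum _
  have h2 : qu Y G = (∑ y, X y ^ 2) / Fintype.card (A → O) := by
    unfold qu
    have h3 : ∀ y, X y ^ 2 = ∑ R ∈ G, ∑ S ∈ G, if Y R y ∧ Y S y then (1 : ℝ) else 0 := by
      intro y
      rw [sq, hX, sum_mul_sum]
      refine sum_congr rfl fun R _ => sum_congr rfl fun S _ => ?_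
      by_cases ha : Y R y <;> by_cases hb : Y S y <;> simp [ha, hb]
    have h4 : ∑ y, X y ^ 2 = ∑ R ∈ G, ∑ S ∈ G, ∑ y, if Y R y ∧ Y S y then (1 : ℝ) else 0 := by
      simp_rw [h3]
      rw [sum_comm]
      exact sum_congr rfl fun R _ => sum_comm
    rw [h4, sum_div]
    refine sum_congr rfl fun R _ => ?_
    rw [sum_div]
    exact sum_congr rfl fun S _ => pr_eq_sum _
  set B : Finset (A → O) := univ.filter fun y => ∃ R ∈ G, Y R y with hB
  have h3 : ∑ y, X y = ∑ y ∈ B, X y := by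
    symm
    refine sum_subset (subset_univ _) fun y _ hy => ?_
    rw [hX]
    refine sum_eq_zero fun R hR => if_neg fun h => hy ?_
    exact mem_filter.2 ⟨mem_univ _, R, hR, h⟩
  have h4 : (∑ y ∈ B, X y) ^ 2 ≤ B.card * ∑ y ∈ B, X y ^ 2 := sq_sum_le_card_mul_sum_sq
  have h5 : ∑ y ∈ B, X y ^ 2 ≤ ∑ y, X y ^ 2 :=
    sum_le_sum_of_subset_of_nonneg (subset_univ _) fun _ _ _ => sq_nonneg _
  have h6 : pr (fun y => ∃ R ∈ G, Y R y) = (B.card : ℝ) / Fintype.card (A → O) := by
    unfold pr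
    congr!
  rw [h1, h2, h6, h3, div_pow, div_mul_div_comm, sq (Fintype.card (A → O) : ℝ)]
  refine div_le_div_of_nonneg_right ?_ (by positivity)
  exact h4.trans (mul_le_mul_of_nonneg_left h5 (Nat.cast_nonneg _))

open Classical in
/-- the events inside the part `j` -/
def prt {m : ℕ} (T : α → Finset A) (H : Finset α) (p : A → Fin m) (j : Fin m) : Finset α :=
  H.filter fun R => ∀ w ∈ T R, p w = j

/-- the share of the part `j` -/
def shr {m : ℕ} (Y : α → (A → O) → Prop) (T : α → Finset A) (H : Finset α) (p : A → Fin m)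
    (j : Fin m) : ℝ :=
  mu Y (prt T H p j) ^ 2 / qu Y (prt T H p j)

theorem shr_mul {m : ℕ} (Y : α → (A → O) → Prop) (T : α → Finset A) (H : Finset α)
    (p : A → Fin m) (j : Fin m) :
    shr Y T H p j * qu Y (prt T H p j) = mu Y (prt T H p j) ^ 2 := by
  unfold shr
  rcases eq_or_ne (qu Y (prt T H p j)) 0 with h | h
  · have h1 := mom2 Y (prt T H p j)
    rw [h, mul_zero] at h1
    rw [h, mul_zero]
    exact le_antisymm (sq_nonneg _) h1
  · exact div_mul_cancel₀ _ h

theorem shr_le {m : ℕ} (Y : α → (A → O) → Prop) (T : α → Finset A) (H : Finset α)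
    (p : A → Fin m) (j : Fin m) : shr Y T H p j ≤ pr fun y => ∃ R ∈ prt T H p j, Y R y := by
  unfold shr
  rcases eq_or_lt_of_le (qu_nonneg Y (prt T H p j)) with h | h
  · rw [← h, div_zero]
    exact pr_nonneg _
  · rw [div_le_iff₀ h]
    exact mom2 Y (prt T H p j)

/-- the parts are treated one after the other -/
theorem iter {m : ℕ} {Y : α → (A → O) → Prop} {T : α → Finset A} {H : Finset α}
    (hY : ∀ R ∈ H, Dep (T R) (Y R)) (p : A → Fin m) (J : Finset (Fin m)) :
    pr (fun y => ∀ j ∈ J, ∀ R ∈ prt T H p j, ¬ Y R y) ≤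
      Real.exp (-∑ j ∈ J, shr Y T H p j) := by
  classical
  induction J using Finset.induction_on with
  | empty =>
    rw [sum_empty, neg_zero, Real.exp_zero]
    exact pr_le_one _
  | insert j J hj ih =>
    set U : Finset A := univ.filter fun a => p a = j with hU
    have hQ : Dep Uᶜ fun y => ∀ j' ∈ J, ∀ R ∈ prt T H p j', ¬ Y R y := by
      intro y y' h h1 j' hj' R hR hY'
      have hR' := mem_filter.1 hR
      refine h1 j' hj' R hR ((hY R hR'.1).iff (fun a ha => ?_) |>.1 hY')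
      refine (h a ?_).symm
      rw [mem_compl, hU, mem_filter]
      rintro ⟨_, h2⟩
      rw [hR'.2 a ha] at h2
      exact hj (h2 ▸ hj')
    have hP : Dep U fun y => ¬ ∃ R ∈ prt T H p j, Y R y := by
      rintro y y' h h1 ⟨R, hR, hY'⟩
      have hR' := mem_filter.1 hR
      refine h1 ⟨R, hR, (hY R hR'.1).iff (fun a ha => ?_) |>.1 hY'⟩
      refine (h a ?_).symm
      rw [hU, mem_filter]
      exact ⟨mem_univ _, hR'.2 a ha⟩
    have h1 : pr (fun y => ∀ j' ∈ insert j J, ∀ R ∈ prt T H p j', ¬ Y R y) =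
        pr (fun y => ¬ ∃ R ∈ prt T H p j, Y R y) *
          pr (fun y => ∀ j' ∈ J, ∀ R ∈ prt T H p j', ¬ Y R y) := by
      rw [← pr_and hP hQ]
      refine pr_congr fun y => ?_
      rw [Finset.forall_mem_insert]
      exact and_congr ⟨fun h ⟨R, hR, hY'⟩ => h R hR hY', fun h R hR hY' => h ⟨R, hR, hY'⟩⟩ Iff.rfl
    rw [h1, sum_insert hj, neg_add, Real.exp_add]
    refine mul_le_mul ?_ ih (pr_nonneg _) (Real.exp_pos _).le
    rw [pr_not]
    have h2 := shr_le Y T H p j
    have h3 : 1 - shr Y T H p j ≤ Real.exp (-shr Y T H p j) := Real.one_sub_le_exp_neg _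
    linarith

end Moment

/-! ### Averaging over the partitions -/

section Parts

variable {A O α : Type} [Fintype A] [DecidableEq A] [Fintype O] [Nonempty O]

open Classical in
theorem exists_prt {r m : ℕ} (hm : 1 ≤ m) {Y : α → (A → O) → Prop} {T : α → Finset A}
    {H : Finset α} (hT : ∀ R ∈ H, (T R).card = r) (h0 : 0 < mu Y H)
    (hQ : ∑ R ∈ H, ∑ S ∈ H, (m : ℝ) ^ (T R ∩ T S).card * (pr fun y => Y R y ∧ Y S y) ≤
      2 * mu Y H ^ 2) :
    ∃ p : A → Fin m, (m : ℝ) / 2 ≤ ∑ j, shr Y T H p j := by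
  have hm0 : (0 : ℝ) < m := Nat.cast_pos.2 hm
  set M : ℝ := (m : ℝ) ^ Fintype.card A with hMd
  have hM0 : 0 < M := by positivity
  have hcnt : ∀ (U : Finset A) (j : Fin m),
      ((univ.filter fun p : A → Fin m => ∀ w ∈ U, p w = j).card : ℝ) =
        M / (m : ℝ) ^ U.card := by
    intro U j
    rw [eq_div_iff (by positivity)]
    have h1 := DN.card_const U j
    rw [hMd]
    exact_mod_cast h1
  have h1 : ∑ x : (A → Fin m) × Fin m, mu Y (prt T H x.1 x.2) =
      mu Y H * (m * (M / (m : ℝ) ^ r)) := by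
    have h2 : ∀ x : (A → Fin m) × Fin m, mu Y (prt T H x.1 x.2) =
        ∑ R ∈ H, if (∀ w ∈ T R, x.1 w = x.2) then pr (Y R) else 0 := fun x => by
      unfold mu prt
      rw [sum_filter]
    simp_rw [h2]
    rw [sum_comm]
    have h3 : ∀ R ∈ H, ∑ x : (A → Fin m) × Fin m,
        (if (∀ w ∈ T R, x.1 w = x.2) then pr (Y R) else 0) =
          pr (Y R) * (m * (M / (m : ℝ) ^ r)) := by
      intro R hR
      rw [Fintype.sum_prod_type_right]
      have h4 : ∀ j : Fin m, ∑ p : A → Fin m,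
          (if (∀ w ∈ T R, p w = j) then pr (Y R) else 0) = pr (Y R) * (M / (m : ℝ) ^ r) :=
        fun j => by
        rw [← sum_filter, sum_const, nsmul_eq_mul, hcnt, hT R hR]
        ring
      simp only [h4, sum_const, card_univ, Fintype.card_fin, nsmul_eq_mul]
      ring
    rw [sum_congr rfl h3, ← sum_mul]
    rfl
  have h2 : ∑ x : (A → Fin m) × Fin m, qu Y (prt T H x.1 x.2) ≤
      m * (M / (m : ℝ) ^ (2 * r)) * (2 * mu Y H ^ 2) := by
    have h3 : ∀ x : (A → Fin m) × Fin m, qu Y (prt T H x.1 x.2) =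
        ∑ R ∈ H, ∑ S ∈ H, if (∀ w ∈ T R ∪ T S, x.1 w = x.2) then
          (pr fun y => Y R y ∧ Y S y) else 0 := by
      intro x
      unfold qu prt
      rw [sum_filter]
      refine sum_congr rfl fun R _ => ?_
      by_cases h4 : ∀ w ∈ T R, x.1 w = x.2
      · rw [if_pos h4, sum_filter]
        refine sum_congr rfl fun S _ => ?_
        by_cases h5 : ∀ w ∈ T S, x.1 w = x.2
        · rw [if_pos h5, if_pos]
          intro w hw
          rcases mem_union.1 hw with h6 | h6
          · exact h4 w h6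
          · exact h5 w h6
        · rw [if_neg h5, if_neg]
          exact fun h6 => h5 fun w hw => h6 w (mem_union_right _ hw)
      · rw [if_neg h4]
        symm
        refine sum_eq_zero fun S _ => ?_
        rw [if_neg]
        exact fun h6 => h4 fun w hw => h6 w (mem_union_left _ hw)
    simp_rw [h3]
    rw [sum_comm]
    have h4 : ∀ R ∈ H, ∑ x : (A → Fin m) × Fin m, ∑ S ∈ H,
        (if (∀ w ∈ T R ∪ T S, x.1 w = x.2) then (pr fun y => Y R y ∧ Y S y) else 0) =
        m * (M / (m : ℝ) ^ (2 * r)) *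
          ∑ S ∈ H, (m : ℝ) ^ (T R ∩ T S).card * (pr fun y => Y R y ∧ Y S y) := by
      intro R hR
      rw [sum_comm, mul_sum]
      refine sum_congr rfl fun S hS => ?_
      rw [Fintype.sum_prod_type_right]
      have h5 : ∀ j : Fin m, ∑ p : A → Fin m, (if (∀ w ∈ T R ∪ T S, p w = j) then
          (pr fun y => Y R y ∧ Y S y) else 0) =
          M / (m : ℝ) ^ (T R ∪ T S).card * (pr fun y => Y R y ∧ Y S y) := fun j => by
        rw [← sum_filter, sum_const, nsmul_eq_mul, hcnt]
      simp only [h5, sum_const, card_univ, Fintype.card_fin, nsmul_eq_mul]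
      have h6 := card_union_add_card_inter (T R) (T S)
      rw [hT R hR, hT S hS] at h6
      have h7 : (m : ℝ) ^ (2 * r) =
          (m : ℝ) ^ (T R ∪ T S).card * (m : ℝ) ^ (T R ∩ T S).card := by
        rw [← pow_add, h6, two_mul]
      rw [h7]
      field_simp
    rw [sum_congr rfl h4, ← mul_sum]
    exact mul_le_mul_of_nonneg_left hQ (by positivity)
  have h3 : (∑ x : (A → Fin m) × Fin m, mu Y (prt T H x.1 x.2)) ^ 2 ≤
      (∑ x : (A → Fin m) × Fin m, shr Y T H x.1 x.2) *
        ∑ x : (A → Fin m) × Fin m, qu Y (prt T H x.1 x.2) := by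
    refine sum_sq_le_sum_mul_sum_of_sq_le_mul _ (fun x _ => ?_)
      (fun x _ => qu_nonneg _ _) fun x _ => (shr_mul Y T H x.1 x.2).ge
    exact div_nonneg (sq_nonneg _) (qu_nonneg _ _)
  have h4 : (0 : ℝ) ≤ ∑ x : (A → Fin m) × Fin m, shr Y T H x.1 x.2 :=
    sum_nonneg fun x _ => div_nonneg (sq_nonneg _) (qu_nonneg _ _)
  have h5 := h3.trans (mul_le_mul_of_nonneg_left h2 h4)
  rw [h1] at h5
  have h6 : M * (m / 2) ≤ ∑ x : (A → Fin m) × Fin m, shr Y T H x.1 x.2 := by
    set Θ := ∑ x : (A → Fin m) × Fin m, shr Y T H x.1 x.2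
    have h7 : (mu Y H * (m * (M / (m : ℝ) ^ r))) ^ 2 =
        (M * (m / 2)) * (m * (M / (m : ℝ) ^ (2 * r)) * (2 * mu Y H ^ 2)) := by
      rw [mul_comm 2 r, pow_mul]
      field_simp
    rw [h7] at h5
    exact le_of_mul_le_mul_right h5 (by positivity)
  rw [Fintype.sum_prod_type] at h6
  by_contra hcon
  push Not at hcon
  have h7 : ∑ p : A → Fin m, ∑ j, shr Y T H p j < ∑ p : A → Fin m, (m : ℝ) / 2 := by
    refine sum_lt_sum_of_nonempty ?_ fun p _ => hcon p
    exact ⟨fun _ => ⟨0, hm⟩, mem_univ _⟩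
  rw [sum_const, card_univ, Fintype.card_fun, Fintype.card_fin, nsmul_eq_mul] at h7
  push_cast at h7
  rw [← hMd] at h7
  exact absurd h6 (not_le.2 h7)

open Classical in
/-- the second moment of a spread family -/
theorem spread_two {r m : ℕ} (hr : 1 ≤ r) (hm : 1 ≤ m)
    {Y : α → (A → O) → Prop} {T : α → Finset A} {H : Finset α}
    (hY : ∀ R ∈ H, Dep (T R) (Y R)) (hT : ∀ R ∈ H, (T R).card = r)
    (hs : ∀ R ∈ H, ∀ y : A → O, Y R y → ∀ U ⊆ T R, U.Nonempty →
      ∑ S ∈ H.filter (fun S => T S ∩ T R = U), (pr fun y' => Y S (mix (T R) y y')) ≤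
        mu Y H / (2 * r * m) ^ U.card) :
    ∑ R ∈ H, ∑ S ∈ H, (m : ℝ) ^ (T R ∩ T S).card * (pr fun y => Y R y ∧ Y S y) ≤
      2 * mu Y H ^ 2 := by
  have h0 : (0 : ℝ) < Fintype.card (A → O) := Nat.cast_pos.2 Fintype.card_pos
  have hr0 : (1 : ℝ) ≤ r := Nat.one_le_cast.2 hr
  have hm0 : (1 : ℝ) ≤ m := Nat.one_le_cast.2 hm
  have hmu := mu_nonneg Y H
  have h1 : ∀ R ∈ H, ∀ U ⊆ T R,
      ∑ S ∈ H.filter (fun S => T S ∩ T R = U), (pr fun y => Y R y ∧ Y S y) ≤
        pr (Y R) * (mu Y H / (2 * r * m) ^ U.card) := by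
    intro R hR U hU
    rw [sum_congr rfl fun S _ => pr_and_mix (hY R hR) (Y S), ← sum_div, sum_comm, pr_eq_sum (Y R),
      div_mul_eq_mul_div]
    refine div_le_div_of_nonneg_right ?_ h0.le
    rw [sum_mul]
    refine sum_le_sum fun y _ => ?_
    rw [← mul_sum]
    by_cases hy : Y R y
    · refine mul_le_mul_of_nonneg_left ?_ (by rw [if_pos hy]; norm_num)
      rcases U.eq_empty_or_nonempty with h3 | h3
      · subst h3
        rw [card_empty, pow_zero, div_one]
        unfold mu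
        have h5 : ∑ S ∈ H.filter (fun S => T S ∩ T R = ∅), pr (Y S) ≤ ∑ S ∈ H, pr (Y S) :=
          sum_le_sum_of_subset_of_nonneg (filter_subset _ _) fun _ _ _ => pr_nonneg _
        refine le_trans (le_of_eq ?_) h5
        refine sum_congr rfl fun S hS => pr_congr fun y' => ?_
        have hS' := mem_filter.1 hS
        refine (hY S hS'.1).iff fun a ha => mix_out (fun h => ?_) y y'
        exact notMem_empty a (hS'.2 ▸ mem_inter.2 ⟨ha, h⟩)
      · exact hs R hR y hy U hU h3
    · rw [if_neg hy, zero_mul, zero_mul]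
  have h2 : ∀ R ∈ H, ∑ S ∈ H, (m : ℝ) ^ (T R ∩ T S).card * (pr fun y => Y R y ∧ Y S y) ≤
      pr (Y R) * mu Y H * 2 := by
    intro R hR
    have h3 : ∑ S ∈ H, (m : ℝ) ^ (T R ∩ T S).card * (pr fun y => Y R y ∧ Y S y) =
        ∑ U ∈ (T R).powerset, ∑ S ∈ H.filter (fun S => T S ∩ T R = U),
          (m : ℝ) ^ (T R ∩ T S).card * (pr fun y => Y R y ∧ Y S y) := by
      symm
      refine sum_fiberwise_of_maps_to (fun S _ => ?_) _
      exact mem_powerset.2 inter_subset_right
    rw [h3]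
    have h4 : ∀ U ∈ (T R).powerset, ∑ S ∈ H.filter (fun S => T S ∩ T R = U),
        (m : ℝ) ^ (T R ∩ T S).card * (pr fun y => Y R y ∧ Y S y) ≤
          pr (Y R) * mu Y H * (((m : ℝ) / (2 * r * m)) ^ U.card * 1 ^ ((T R).card - U.card)) := by
      intro U hU
      rw [mem_powerset] at hU
      have h5 : ∑ S ∈ H.filter (fun S => T S ∩ T R = U),
          (m : ℝ) ^ (T R ∩ T S).card * (pr fun y => Y R y ∧ Y S y) =
          (m : ℝ) ^ U.card * ∑ S ∈ H.filter (fun S => T S ∩ T R = U),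
            (pr fun y => Y R y ∧ Y S y) := by
        rw [mul_sum]
        refine sum_congr rfl fun S hS => ?_
        rw [← (mem_filter.1 hS).2, inter_comm]
      rw [h5]
      refine (mul_le_mul_of_nonneg_left (h1 R hR U hU) (by positivity)).trans (le_of_eq ?_)
      rw [one_pow, mul_one, div_pow]
      ring
    refine (sum_le_sum h4).trans ?_
    rw [← mul_sum, sum_pow_mul_eq_add_pow, hT R hR]
    refine mul_le_mul_of_nonneg_left ?_ (mul_nonneg (pr_nonneg _) hmu)
    have h5 : (m : ℝ) / (2 * r * m) + 1 ≤ Real.exp (m / (2 * r * m)) := Real.add_one_le_exp _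
    have h6 : (r : ℝ) * (m / (2 * r * m)) = 1 / 2 := by
      field_simp
    have h9 : Real.exp (1 / 2) ≤ 2 := by
      have h10 : Real.exp (1 / 2) ^ 2 = Real.exp 1 := by
        rw [← Real.exp_nat_mul]
        norm_num
      have h11 := Real.exp_one_lt_d9
      have h12 : Real.exp (1 / 2) ^ 2 ≤ 2 ^ 2 := by
        rw [h10]
        linarith
      exact (sq_le_sq₀ (Real.exp_pos _).le (by norm_num)).1 h12
    calc ((m : ℝ) / (2 * r * m) + 1) ^ r ≤ Real.exp (m / (2 * r * m)) ^ r :=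
          pow_le_pow_left₀ (by positivity) h5 r
      _ = Real.exp (r * (m / (2 * r * m))) := (Real.exp_nat_mul _ _).symm
      _ = Real.exp (1 / 2) := by rw [h6]
      _ ≤ 2 := h9
  refine (sum_le_sum h2).trans (le_of_eq ?_)
  rw [← sum_mul, ← sum_mul]
  unfold mu
  ring

end Parts

section Final

variable {R W α : Type} [DecidableEq R] [Fintype R] [Fintype W] [Nonempty W]

open Classical in
/-- Events `Y Z` which depend only on the `r` rows `T Z`. If they are spread then few
assignments satisfy none of them. -/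
theorem sf {M r : ℕ} (hM : 1 ≤ M) (hr : 1 ≤ r) (H : Finset α) (T : α → Finset R)
    (Y : α → (R → W) → Prop) (hT : ∀ Z ∈ H, (T Z).card = r)
    (hY : ∀ Z ∈ H, ∀ x y, (∀ a ∈ T Z, x a = y a) → Y Z x → Y Z y)
    (S : ℝ) (hS0 : 0 < S) (hS : S = ∑ Z ∈ H, ((univ.filter (fun y => Y Z y)).card : ℝ))
    (hs : ∀ Z ∈ H, ∀ y, Y Z y → ∀ U ⊆ T Z, U.Nonempty →
      (∑ Z' ∈ H.filter (fun Z' => T Z' ∩ T Z = U),
        ((univ.filter (fun y' => Y Z' (mix (T Z) y y'))).card : ℝ)) *
          (2 * r * M) ^ U.card ≤ S) :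
    ((univ.filter (fun y => ∀ Z ∈ H, ¬ Y Z y)).card : ℝ) ≤
      Fintype.card (R → W) * Real.exp (- (M / 2)) := by
  have h0 : (0 : ℝ) < Fintype.card (R → W) := Nat.cast_pos.2 Fintype.card_pos
  have hr0 : (1 : ℝ) ≤ r := Nat.one_le_cast.2 hr
  have hM0 : (1 : ℝ) ≤ M := Nat.one_le_cast.2 hM
  have hmu : mu Y H = S / Fintype.card (R → W) := by
    rw [hS, sum_div]
    rfl
  have hmu0 : 0 < mu Y H := by
    rw [hmu]
    positivity
  have hY' : ∀ Z ∈ H, Dep (T Z) (Y Z) := fun Z hZ => hY Z hZ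
  obtain ⟨p, hp⟩ := exists_prt hM hT hmu0 (spread_two hr hM hY' hT fun Z hZ y hy U hU hU0 => by
    have h1 := hs Z hZ y hy U hU hU0
    have h2 : ∑ Z' ∈ H.filter (fun Z' => T Z' ∩ T Z = U), (pr fun y' => Y Z' (mix (T Z) y y')) =
        (∑ Z' ∈ H.filter (fun Z' => T Z' ∩ T Z = U),
        ((univ.filter (fun y' => Y Z' (mix (T Z) y y'))).card : ℝ)) /
          Fintype.card (R → W) := by
      rw [sum_div]
      rfl
    rw [h2, hmu, div_div, mul_comm (Fintype.card (R → W) : ℝ), ← div_div]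
    refine div_le_div_of_nonneg_right ?_ h0.le
    rw [le_div_iff₀ (by positivity)]
    exact h1)
  have h3 : pr (fun y => ∀ Z ∈ H, ¬ Y Z y) ≤ Real.exp (-(M / 2)) := by
    refine (pr_mono fun y hy => ?_).trans ((iter hY' p univ).trans (Real.exp_le_exp.2 ?_))
    · exact fun j _ Z hZ => hy Z (mem_filter.1 hZ).1
    · linarith
  have h4 : ((univ.filter (fun y => ∀ Z ∈ H, ¬ Y Z y)).card : ℝ) =
      Fintype.card (R → W) * pr (fun y => ∀ Z ∈ H, ¬ Y Z y) := by
    unfold pr
    rw [mul_div_cancel₀ _ h0.ne']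
    congr!
  rw [h4]
  exact mul_le_mul_of_nonneg_left h3 h0.le

end Final

end

end Pool.Agent.DG
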