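import Pool.Agent.Lib.MP_66cd2e_lc.DG.Mix

/-!
The second moment bound in product spaces.
-/

set_option autoImplicit false

namespace Pool.Agent.DG

open Finset

variable {R W α : Type} [DecidableEq R] [Fintype R] [Fintype W]

open Classical in
/-- the second moment of the number of events -/
theorem sec_le (H : Finset α) (T : α → Finset R)
    (Y : α → (R → W) → Prop)
    (hY : ∀ Z ∈ H, ∀ x y, (∀ a ∈ T Z, x a = y a) → Y Z x → Y Z y)
    (B : ℝ)
    (hs : ∀ Z ∈ H, ∀ y, Y Z y →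
      (∑ Z' ∈ H, ((univ.filter (fun y' => Y Z' (mix (T Z) y y'))).card : ℝ)) ≤
          B * Fintype.card (R → W)) :
    ∑ y : R → W, (∑ Z ∈ H, if Y Z y then (1 : ℝ) else 0) ^ 2 ≤
      B * ∑ y : R → W, ∑ Z ∈ H, if Y Z y then (1 : ℝ) else 0 := by
  rcases isEmpty_or_nonempty (R → W) with he | hn
  · simp
  have hN : (0 : ℝ) < Fintype.card (R → W) := Nat.cast_pos.2 Fintype.card_pos
  refine le_of_mul_le_mul_left ?_ hN
  calc (Fintype.card (R → W) : ℝ) *
        ∑ y : R → W, (∑ Z ∈ H, if Y Z y then (1 : ℝ) else 0) ^ 2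
      = ∑ Z ∈ H, ∑ Z' ∈ H, Fintype.card (R → W) *
        ∑ y : R → W, (if Y Z y then (1 : ℝ) else 0) * (if Y Z' y then 1 else 0) := by
        simp_rw [sq, sum_mul_sum]
        rw [sum_comm, mul_sum]
        refine sum_congr rfl fun Z _ => ?_
        rw [sum_comm, mul_sum]
    _ = ∑ Z ∈ H, ∑ Z' ∈ H, ∑ x : R → W, ∑ y : R → W,
        (if Y Z x then (1 : ℝ) else 0) * (if Y Z' (mix (T Z) x y) then 1 else 0) := by
        refine sum_congr rfl fun Z hZ => sum_congr rfl fun Z' _ => ?_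
        rw [← sum_mix_one (T Z)]
        refine sum_congr rfl fun x _ => sum_congr rfl fun y _ => ?_
        have h : Y Z (mix (T Z) x y) ↔ Y Z x :=
          ⟨hY Z hZ _ _ fun a ha => mix_in ha _ _, hY Z hZ _ _ fun a ha => (mix_in ha _ _).symm⟩
        by_cases h1 : Y Z x
        · rw [if_pos h1, if_pos (h.2 h1)]
        · rw [if_neg h1, if_neg fun h2 => h1 (h.1 h2)]
    _ = ∑ Z ∈ H, ∑ x : R → W, (if Y Z x then (1 : ℝ) else 0) *
        ∑ Z' ∈ H, ((univ.filter (fun y' => Y Z' (mix (T Z) x y'))).card : ℝ) := by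
        refine sum_congr rfl fun Z _ => ?_
        rw [sum_comm]
        refine sum_congr rfl fun x _ => ?_
        rw [mul_sum]
        refine sum_congr rfl fun Z' _ => ?_
        rw [← mul_sum, sum_boole]
    _ ≤ ∑ Z ∈ H, ∑ x : R → W, (if Y Z x then (1 : ℝ) else 0) *
        (B * Fintype.card (R → W)) := by
        refine sum_le_sum fun Z hZ => sum_le_sum fun x _ => ?_
        by_cases h1 : Y Z x
        · rw [if_pos h1, one_mul, one_mul]
          exact hs Z hZ x h1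
        · rw [if_neg h1, zero_mul, zero_mul]
    _ = Fintype.card (R → W) *
        (B * ∑ y : R → W, ∑ Z ∈ H, if Y Z y then (1 : ℝ) else 0) := by
        simp_rw [← sum_mul]
        rw [sum_comm]
        ring

open Classical in
/-- the second moment bound: if no row is too heavy then some of the events are not too
rare -/
theorem second {r : ℕ} (H : Finset α) (T : α → Finset R)
    (Y : α → (R → W) → Prop) (hT : ∀ Z ∈ H, (T Z).card = r)
    (hY : ∀ Z ∈ H, ∀ x y, (∀ a ∈ T Z, x a = y a) → Y Z x → Y Z y)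
    (B : ℝ) (hB : 0 ≤ B)
    (hs : ∀ Z ∈ H, ∀ y, Y Z y → ∀ U ⊆ T Z,
      (∑ Z' ∈ H.filter (fun Z' => T Z' ∩ T Z = U),
        ((univ.filter (fun y' => Y Z' (mix (T Z) y y'))).card : ℝ)) ≤
          B ^ (r - U.card) * Fintype.card (R → W)) :
    ∑ Z ∈ H, ((univ.filter (fun y => Y Z y)).card : ℝ) ≤
      (1 + B) ^ r * ((univ.filter (fun y => ∃ Z ∈ H, Y Z y)).card : ℝ) := by
  have h1 : ∀ Z ∈ H, ∀ y, Y Z y →
      (∑ Z' ∈ H, ((univ.filter (fun y' => Y Z' (mix (T Z) y y'))).card : ℝ)) ≤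
          (1 + B) ^ r * Fintype.card (R → W) := by
    intro Z hZ y hy
    have h2 : (∑ Z' ∈ H, ((univ.filter (fun y' => Y Z' (mix (T Z) y y'))).card : ℝ)) =
        ∑ U ∈ (T Z).powerset, ∑ Z' ∈ H.filter (fun Z' => T Z' ∩ T Z = U),
          ((univ.filter (fun y' => Y Z' (mix (T Z) y y'))).card : ℝ) :=
      (sum_fiberwise_of_maps_to (fun Z' _ => mem_powerset.2 inter_subset_right) _).symm
    rw [h2]
    calc ∑ U ∈ (T Z).powerset, ∑ Z' ∈ H.filter (fun Z' => T Z' ∩ T Z = U),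
          ((univ.filter (fun y' => Y Z' (mix (T Z) y y'))).card : ℝ)
        ≤ ∑ U ∈ (T Z).powerset, B ^ (r - U.card) * Fintype.card (R → W) :=
          sum_le_sum fun U hU => hs Z hZ y hy U (mem_powerset.1 hU)
      _ = (1 + B) ^ r * Fintype.card (R → W) := by
          rw [← sum_mul, ← hT Z hZ, ← sum_pow_mul_eq_add_pow]
          simp only [one_pow, one_mul]
  have h3 := sec_le H T Y hY ((1 + B) ^ r) h1
  set X : (R → W) → ℝ := fun y => ∑ Z ∈ H, if Y Z y then (1 : ℝ) else 0 with hX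
  have h4 : ∑ Z ∈ H, ((univ.filter (fun y => Y Z y)).card : ℝ) = ∑ y, X y := by
    rw [hX, sum_comm]
    refine sum_congr rfl fun Z _ => ?_
    rw [sum_boole]
  have h3' : ∑ y, X y ^ 2 ≤ (1 + B) ^ r * ∑ y, X y := h3
  set S : Finset (R → W) := univ.filter (fun y => ∃ Z ∈ H, Y Z y) with hS
  have h5 : ∀ y, y ∉ S → X y = 0 := by
    intro y hy
    change (∑ Z ∈ H, if Y Z y then (1 : ℝ) else 0) = 0
    refine sum_eq_zero fun Z hZ => ?_
    rw [if_neg]
    exact fun h => hy (mem_filter.2 ⟨mem_univ _, Z, hZ, h⟩)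
  have h6 : ∑ y, X y = ∑ y ∈ S, X y :=
    (sum_subset (subset_univ _) fun y _ hy => h5 y hy).symm
  have h7 : (∑ y ∈ S, X y) ^ 2 ≤ S.card * ∑ y ∈ S, X y ^ 2 := sq_sum_le_card_mul_sum_sq
  have h8 : ∑ y ∈ S, X y ^ 2 ≤ ∑ y, X y ^ 2 :=
    sum_le_sum_of_subset_of_nonneg (subset_univ _) fun y _ _ => sq_nonneg _
  have hX0 : 0 ≤ ∑ y, X y := by
    rw [← h4]
    exact sum_nonneg fun _ _ => Nat.cast_nonneg _
  rw [h4]
  have hS0 : (0 : ℝ) ≤ S.card := Nat.cast_nonneg _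
  have hB0 : 0 ≤ (1 + B) ^ r := pow_nonneg (by linarith) _
  rcases eq_or_lt_of_le hX0 with h | h
  · rw [← h]
    exact mul_nonneg hB0 hS0
  · refine le_of_mul_le_mul_right ?_ h
    calc (∑ y, X y) * ∑ y, X y = (∑ y ∈ S, X y) ^ 2 := by rw [h6, sq]
      _ ≤ S.card * ∑ y ∈ S, X y ^ 2 := h7
      _ ≤ S.card * ∑ y, X y ^ 2 := mul_le_mul_of_nonneg_left h8 hS0
      _ ≤ S.card * ((1 + B) ^ r * ∑ y, X y) := mul_le_mul_of_nonneg_left h3' hS0
      _ = (1 + B) ^ r * S.card * ∑ y, X y := by ring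

end Pool.Agent.DG
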