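import Pool.Agent.Lib.MP_66cd2e_lc.DG.Def
import Pool.Agent.Lib.MP_66cd2e_lc.DG.SF
import Pool.Agent.Lib.MP_66cd2e_lc.DG.Sec

/-!
The number of good witnesses.
-/

set_option autoImplicit false

namespace Pool.Agent.DG

open Finset

variable {k q m : ℕ}

theorem card_le_imp {X : Type} [Fintype X] {P Q : X → Prop} {i : DecidablePred P}
    {j : DecidablePred Q} (h : ∀ x, P x → Q x) :
    (univ.filter P).card ≤ (univ.filter Q).card :=
  card_le_card fun x hx => mem_filter.2 ⟨mem_univ _, h x (mem_filter.1 hx).2⟩

/-- the witness event over the rows `K` of `y` -/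
def ev (E : ℕ) (f : Mt k q m → Prop) (pi : Fin k → Fin k) (C : Fin m → Fin k)
    (K : Finset (Rw k q)) (y : Mt k q m) (Z : Finset (Rw k q)) (y' : Mt k q m) : Prop :=
  Wit E f Z (dp pi C Z (mix K y y'))

theorem dp_congr {pi : Fin k → Fin k} {C : Fin m → Fin k} {Z : Finset (Rw k q)}
    {y y' : Mt k q m} (h : ∀ a ∈ Z, y a = y' a) : dp pi C Z y = dp pi C Z y' := by
  funext a b
  unfold dp
  by_cases ha : a ∈ Z
  · rw [h a ha]
  · simp [ha]

/-- the event depends only on the rows of `Z` outside `K` -/
theorem ev_dep {E : ℕ} {f : Mt k q m → Prop} {pi : Fin k → Fin k} {C : Fin m → Fin k}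
    {K : Finset (Rw k q)} {y : Mt k q m} {Z : Finset (Rw k q)} (x x' : Mt k q m)
    (h : ∀ a ∈ Z \ K, x a = x' a) (hx : ev E f pi C K y Z x) : ev E f pi C K y Z x' := by
  unfold ev at hx ⊢
  have h1 : dp pi C Z (mix K y x) = dp pi C Z (mix K y x') := by
    refine dp_congr fun a ha => ?_
    by_cases hK : a ∈ K
    · rw [mix_in hK, mix_in hK]
    · rw [mix_out hK, mix_out hK]
      exact h a (mem_sdiff.2 ⟨ha, hK⟩)
  rw [← h1]
  exact hx

theorem mem_tr {I : Finset (Fin k)} {Z : Finset (Rw k q)} :
    Z ∈ tr k q I ↔ (∀ a ∈ Z, ∀ b ∈ Z, a.1 = b.1 → a = b) ∧ Z.image Prod.fst = I := by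
  classical
  unfold tr
  rw [mem_filter]
  exact and_iff_right (mem_univ _)

theorem card_tr {I : Finset (Fin k)} {Z : Finset (Rw k q)} (h : Z ∈ tr k q I) :
    Z.card = I.card := by
  classical
  have h1 := mem_tr.1 h
  rw [← h1.2]
  exact (card_image_of_injOn fun a ha b hb hab => h1.1 a ha b hb hab).symm

open Classical in
/-- the witnesses which meet `Z` outside `K` in `U` -/
theorem sum_ev_le {E : ℕ} (f : Mt k q m → Prop) (pi : Fin k → Fin k) (C : Fin m → Fin k)
    (I : Finset (Fin k)) {K U Z : Finset (Rw k q)} (hU : U ⊆ Z \ K) (y y0 : Mt k q m) :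
    (∑ Z' ∈ ((tr k q I).filter (fun Z => K ⊆ Z)).filter (fun Z' => (Z' \ K) ∩ (Z \ K) = U),
      (univ.filter (fun y' => ev E f pi C K y Z' (mix (Z \ K) y0 y'))).card) ≤
      lam E f pi C I (K ∪ U) (mix K y y0) := by
  unfold lam
  refine (sum_le_sum fun Z' hZ' => ?_).trans (sum_le_sum_of_subset fun Z' hZ' => ?_)
  · have h1 := (mem_filter.1 hZ').2
    refine card_le_card fun y' hy' => ?_
    have h2 := (mem_filter.1 hy').2
    refine mem_filter.2 ⟨mem_univ _, ?_⟩
    unfold ev at h2
    have h3 : dp pi C Z' (mix K y (mix (Z \ K) y0 y')) =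
        dp pi C Z' (mix (K ∪ U) (mix K y y0) y') := by
      refine dp_congr fun a ha => ?_
      by_cases hK : a ∈ K
      · rw [mix_in hK, mix_in (mem_union_left _ hK), mix_in hK]
      · rw [mix_out hK]
        by_cases hZ : a ∈ Z
        · have h4 : a ∈ U := by
            rw [← h1]
            exact mem_inter.2 ⟨mem_sdiff.2 ⟨ha, hK⟩, mem_sdiff.2 ⟨hZ, hK⟩⟩
          rw [mix_in (mem_sdiff.2 ⟨hZ, hK⟩), mix_in (mem_union_right _ h4), mix_out hK]
        · have h4 : a ∉ K ∪ U := by
            intro h5
            rcases mem_union.1 h5 with h6 | h6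
            · exact hK h6
            · exact hZ (mem_sdiff.1 (hU h6)).1
          rw [mix_out fun h5 => hZ (mem_sdiff.1 h5).1, mix_out h4]
    rw [← h3]
    exact h2
  · have h1 := mem_filter.1 hZ'
    have h2 := mem_filter.1 h1.1
    refine mem_filter.2 ⟨h2.1, union_subset h2.2 fun a ha => ?_⟩
    rw [← h1.2] at ha
    exact (mem_sdiff.1 (mem_inter.1 ha).1).1

/-- the event implies that the function accepts -/
theorem ev_acc {E : ℕ} {f : Mt k q m → Prop} (hf : ∀ x y, Le x y → f x → f y)
    {pi : Fin k → Fin k} {C : Fin m → Fin k} {K : Finset (Rw k q)} {y : Mt k q m}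
    {Z : Finset (Rw k q)} {y' : Mt k q m} (h : ev E f pi C K y Z y') :
    f (mix K (dp pi C K y) y') := by
  refine hf _ _ ?_ h.1
  intro a b hab
  unfold res dp at hab
  simp only [Bool.and_eq_true, decide_eq_true_eq] at hab
  by_cases hK : a ∈ K
  · rw [mix_in hK]
    rw [mix_in hK] at hab
    unfold dp
    simp only [Bool.and_eq_true, decide_eq_true_eq]
    exact ⟨hK, hab.2.2⟩
  · rw [mix_out hK]
    rw [mix_out hK] at hab
    exact hab.2.2.2

open Classical in
theorem lam_eq (E : ℕ) (f : Mt k q m → Prop) (pi : Fin k → Fin k) (C : Fin m → Fin k)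
    (I : Finset (Fin k)) (K : Finset (Rw k q)) (y : Mt k q m) :
    lam E f pi C I K y = ∑ Z ∈ (tr k q I).filter (fun Z => K ⊆ Z),
      (univ.filter (fun y' => ev E f pi C K y Z y')).card := rfl

/-- the number of good witnesses over `K` is small -/
theorem lam_le {l E M : ℕ} (hM : 1 ≤ M) (hE : (E : ℝ) ≤ Real.exp (M / 2))
    (f : Mt k q m → Prop) (hf : ∀ x y, Le x y → f x → f y) (pi : Fin k → Fin k)
    (C : Fin m → Fin k) (I : Finset (Fin k)) (hI : I.card ≤ l) (K : Finset (Rw k q))
    (hK : K.card ≤ I.card) (y : Mt k q m) :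
    lam E f pi C I K y ≤ (2 * l * M) ^ (I.card - K.card) * Fintype.card (Mt k q m) := by
  classical
  suffices h : ∀ j, ∀ (K : Finset (Rw k q)) (y : Mt k q m), K.card ≤ I.card →
      I.card - K.card = j → lam E f pi C I K y ≤ (2 * l * M) ^ j * Fintype.card (Mt k q m) from
    h _ K y hK rfl
  intro j
  induction j using Nat.strong_induction_on with
  | _ j ih =>
    intro K y hK hj
    rcases Nat.eq_zero_or_pos j with h0 | hpos
    · subst h0
      rw [pow_zero, one_mul]
      unfold lam
      calc ∑ Z ∈ (tr k q I).filter (fun Z => K ⊆ Z),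
            (univ.filter (fun y' => Wit E f Z (dp pi C Z (mix K y y')))).card
          ≤ ∑ Z ∈ (tr k q I).filter (fun Z => K ⊆ Z), Fintype.card (Mt k q m) :=
            sum_le_sum fun Z _ => card_le_univ _
        _ = ((tr k q I).filter (fun Z => K ⊆ Z)).card * Fintype.card (Mt k q m) := by
            rw [sum_const, smul_eq_mul]
        _ ≤ 1 * Fintype.card (Mt k q m) := by
            refine Nat.mul_le_mul_right _ ?_
            rw [← card_singleton K]
            refine card_le_card fun Z hZ => ?_
            have h1 := mem_filter.1 hZ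
            have h2 := card_tr h1.1
            rw [mem_singleton]
            exact (eq_of_subset_of_card_le h1.2 (by omega)).symm
        _ = Fintype.card (Mt k q m) := one_mul _
    · by_contra hcon
      push Not at hcon
      set H : Finset (Finset (Rw k q)) := (tr k q I).filter (fun Z => K ⊆ Z) with hH
      have hTc : ∀ Z ∈ H, (Z \ K).card = j := by
        intro Z hZ
        have h1 := mem_filter.1 hZ
        rw [card_sdiff_of_subset h1.2, card_tr h1.1, hj]
      have hS : (lam E f pi C I K y : ℝ) =
          ∑ Z ∈ H, ((univ.filter (fun y' => ev E f pi C K y Z y')).card : ℝ) := by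
        rw [lam_eq]
        push_cast
        rfl
      have hS0 : (0 : ℝ) < lam E f pi C I K y := Nat.cast_pos.2 (by omega)
      have key := sf hM hpos H (fun Z => Z \ K) (ev E f pi C K y) hTc
        (fun Z _ x x' h hx => ev_dep x x' h hx) (lam E f pi C I K y : ℝ) hS0 hS (by
          intro Z hZ y0 _ U hU hUne
          have h1 := mem_filter.1 hZ
          have h2 := sum_ev_le (E := E) f pi C I hU y y0
          have hd : Disjoint K U := by
            rw [disjoint_left]
            intro a ha hb
            exact (mem_sdiff.1 (hU hb)).2 ha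
          have hUc : U.card ≤ j := by
            rw [← hTc Z hZ]
            exact card_le_card hU
          have hUp : 0 < U.card := hUne.card_pos
          have hKU : (K ∪ U).card = K.card + U.card := card_union_of_disjoint hd
          have h3 := ih (j - U.card) (by omega) (K ∪ U) (mix K y y0) (by omega) (by omega)
          have h4 : (∑ Z' ∈ H.filter (fun Z' => (Z' \ K) ∩ (Z \ K) = U),
              (univ.filter (fun y' => ev E f pi C K y Z' (mix (Z \ K) y0 y'))).card) *
              (2 * j * M) ^ U.card ≤ lam E f pi C I K y := by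
            calc (∑ Z' ∈ H.filter (fun Z' => (Z' \ K) ∩ (Z \ K) = U),
                (univ.filter (fun y' => ev E f pi C K y Z' (mix (Z \ K) y0 y'))).card) *
                (2 * j * M) ^ U.card
                ≤ ((2 * l * M) ^ (j - U.card) * Fintype.card (Mt k q m)) *
                  (2 * l * M) ^ U.card := by
                  refine Nat.mul_le_mul (h2.trans h3) (Nat.pow_le_pow_left ?_ _)
                  exact Nat.mul_le_mul_right _ (Nat.mul_le_mul_left _ (by omega))
              _ = (2 * l * M) ^ (j - U.card + U.card) * Fintype.card (Mt k q m) := by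
                  rw [pow_add]
                  ring
              _ = (2 * l * M) ^ j * Fintype.card (Mt k q m) := by
                  rw [Nat.sub_add_cancel hUc]
              _ ≤ lam E f pi C I K y := hcon.le
          exact_mod_cast h4)
      have h5 : phi E f K (dp pi C K y) := by
        unfold phi
        have h6 : ((univ.filter (fun y' => ¬ f (mix K (dp pi C K y) y'))).card : ℝ) ≤
            Fintype.card (Mt k q m) * Real.exp (- (M / 2)) := by
          refine le_trans (Nat.cast_le.2 (card_le_imp fun y' hy' Z _ hev => ?_)) key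
          exact hy' (ev_acc hf hev)
        have h7 : (E : ℝ) * ((univ.filter (fun y' => ¬ f (mix K (dp pi C K y) y'))).card : ℝ) ≤
            Fintype.card (Mt k q m) := by
          calc (E : ℝ) * ((univ.filter (fun y' => ¬ f (mix K (dp pi C K y) y'))).card : ℝ)
              ≤ Real.exp (M / 2) * (Fintype.card (Mt k q m) * Real.exp (- (M / 2))) :=
                mul_le_mul hE h6 (Nat.cast_nonneg _) (Real.exp_pos _).le
            _ = Fintype.card (Mt k q m) * (Real.exp (M / 2) * Real.exp (- (M / 2))) := by ring
            _ = Fintype.card (Mt k q m) := by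
                rw [← Real.exp_add, add_neg_cancel, Real.exp_zero, mul_one]
        exact_mod_cast h7
      have h8 : lam E f pi C I K y = 0 := by
        rw [lam_eq]
        refine sum_eq_zero fun Z hZ => ?_
        rw [card_eq_zero, filter_eq_empty_iff]
        intro y' _ hev
        have h1 := mem_filter.1 hZ
        have h9 := hTc Z hZ
        have hss : K ⊂ Z := by
          refine Finset.ssubset_iff_subset_ne.2 ⟨h1.2, fun h10 => ?_⟩
          rw [h10, Finset.sdiff_self, card_empty] at h9
          omega
        refine hev.2 K hss ?_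
        rw [dp_res h1.2]
        have h11 : dp pi C K (mix K y y') = dp pi C K y := dp_congr fun a ha => mix_in ha _ _
        rw [h11]
        exact h5
      omega

open Classical in
/-- the good witnesses and the accepted matrices -/
theorem lam_second {l E M : ℕ} (hM : 1 ≤ M) (hE : (E : ℝ) ≤ Real.exp (M / 2))
    (f : Mt k q m → Prop) (hf : ∀ x y, Le x y → f x → f y) (pi : Fin k → Fin k)
    (C : Fin m → Fin k) (I : Finset (Fin k)) (hI : I.card ≤ l) (y : Mt k q m) :
    lam E f pi C I ∅ y ≤ (1 + 2 * l * M) ^ I.card * (univ.filter (fun y => f y)).card := by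
  set H : Finset (Finset (Rw k q)) := (tr k q I).filter (fun Z => ∅ ⊆ Z) with hH
  have hTc : ∀ Z ∈ H, (Z \ ∅).card = I.card := by
    intro Z hZ
    rw [sdiff_empty]
    exact card_tr (mem_filter.1 hZ).1
  have key := second H (fun Z => Z \ ∅) (ev E f pi C ∅ y) hTc
    (fun Z _ x x' h hx => ev_dep x x' h hx) ((2 * l * M : ℕ) : ℝ) (Nat.cast_nonneg _) (by
      intro Z hZ y0 _ U hU
      have h2 := sum_ev_le (E := E) f pi C I hU y y0
      have hUc : U.card ≤ I.card := by
        rw [← hTc Z hZ]
        exact card_le_card hU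
      have h3 := lam_le hM hE f hf pi C I hI (∅ ∪ U) (by rw [empty_union]; exact hUc)
        (mix ∅ y y0)
      have h4 := h2.trans h3
      rw [empty_union] at h4
      exact_mod_cast h4)
  have h1 : (lam E f pi C I ∅ y : ℝ) =
      ∑ Z ∈ H, ((univ.filter (fun y' => ev E f pi C ∅ y Z y')).card : ℝ) := by
    rw [lam_eq]
    push_cast
    rfl
  rw [← h1] at key
  have h2 : (univ.filter (fun y' => ∃ Z ∈ H, ev E f pi C ∅ y Z y')).card ≤
      (univ.filter (fun y => f y)).card := by
    refine card_le_card fun y' hy' => ?_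
    obtain ⟨Z, _, hev⟩ := (mem_filter.1 hy').2
    refine mem_filter.2 ⟨mem_univ _, ?_⟩
    have h3 := ev_acc hf hev
    rw [mix_empty] at h3
    exact h3
  have h3 : (lam E f pi C I ∅ y : ℝ) ≤
      (1 + ((2 * l * M : ℕ) : ℝ)) ^ I.card * ((univ.filter (fun y => f y)).card : ℝ) :=
    key.trans (mul_le_mul_of_nonneg_left (Nat.cast_le.2 h2) (by positivity))
  exact_mod_cast h3

end Pool.Agent.DG
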