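import Mathlib

/-!
Functions on independent rows: mixing and swapping.
-/

set_option autoImplicit false

namespace Pool.Agent.DG

open Finset

variable {R W : Type} [DecidableEq R]

/-- the rows in `Z` from `x`, the other rows from `y` -/
def mix (Z : Finset R) (x y : R → W) : R → W := fun a => if a ∈ Z then x a else y a

theorem mix_in {Z : Finset R} {a : R} (h : a ∈ Z) (x y : R → W) : mix Z x y a = x a := if_pos h

theorem mix_out {Z : Finset R} {a : R} (h : a ∉ Z) (x y : R → W) : mix Z x y a = y a := if_neg h

theorem mix_mix_left (Z : Finset R) (x y : R → W) : mix Z (mix Z x y) (mix Z y x) = x := by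
  funext a
  by_cases h : a ∈ Z
  · rw [mix_in h, mix_in h]
  · rw [mix_out h, mix_out h]

theorem mix_self (Z : Finset R) (x : R → W) : mix Z x x = x := by
  funext a
  by_cases h : a ∈ Z
  · rw [mix_in h]
  · rw [mix_out h]

theorem mix_empty (x y : R → W) : mix ∅ x y = y := by
  funext a
  exact mix_out (notMem_empty a) x y

/-- swapping the rows of `Z` of two assignments -/
def swapEquiv (Z : Finset R) : ((R → W) × (R → W)) ≃ ((R → W) × (R → W)) where
  toFun p := (mix Z p.1 p.2, mix Z p.2 p.1)
  invFun p := (mix Z p.1 p.2, mix Z p.2 p.1)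
  left_inv p := Prod.ext (mix_mix_left Z p.1 p.2) (mix_mix_left Z p.2 p.1)
  right_inv p := Prod.ext (mix_mix_left Z p.1 p.2) (mix_mix_left Z p.2 p.1)

variable [Fintype R] [Fintype W]

/-- the mixed assignment is uniformly distributed -/
theorem sum_mix {β : Type} [AddCommMonoid β] (Z : Finset R) (F : (R → W) → (R → W) → β) :
    ∑ x, ∑ y, F (mix Z x y) (mix Z y x) = ∑ x, ∑ y, F x y := by
  rw [← Fintype.sum_prod_type', ← Fintype.sum_prod_type' (f := fun x y => F x y)]
  exact Equiv.sum_comp (swapEquiv Z) (fun p => F p.1 p.2)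

/-- the mixed assignment is uniformly distributed -/
theorem sum_mix_one (Z : Finset R) (F : (R → W) → ℝ) :
    ∑ x, ∑ y, F (mix Z x y) = Fintype.card (R → W) * ∑ x, F x := by
  have h := sum_mix Z (fun x (_ : R → W) => F x)
  rw [h, mul_sum]
  refine sum_congr rfl (fun x _ => ?_)
  rw [sum_const, card_univ, nsmul_eq_mul]

end Pool.Agent.DG
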