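import Pool.Agent.Lib.MP_66cd2e_lc.DG.Cpl
import Pool.Agent.Lib.MP_66cd2e_lc.DG.Lam

/-!
The positive tests which are accepted by a closed local function.
-/

set_option autoImplicit false

namespace Pool.Agent.DG

open Finset

variable {k q m : ℕ}

/-- an inclusion-minimal witness -/
def MinW (f : Mt k q m → Prop) (Z : Finset (Rw k q)) (x : Mt k q m) : Prop :=
  f (res Z x) ∧ ∀ K, K ⊂ Z → ¬ f (res K x)

/-- the rows of a transversal in the groups of `I` -/
def grI (s : Fin k → Fin q) (I : Finset (Fin k)) : Finset (Rw k q) := I.image (fun i => (i, s i))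

theorem mem_grI {s : Fin k → Fin q} {I : Finset (Fin k)} {a : Rw k q} :
    a ∈ grI s I ↔ a.1 ∈ I ∧ s a.1 = a.2 := by
  unfold grI
  rw [mem_image]
  constructor
  · rintro ⟨i, hi, rfl⟩
    exact ⟨hi, rfl⟩
  · rintro ⟨h1, h2⟩
    exact ⟨a.1, h1, Prod.ext rfl h2⟩

theorem mem_trI {I : Finset (Fin k)} {Z : Finset (Rw k q)} :
    Z ∈ tr k q I ↔ (∀ a ∈ Z, ∀ b ∈ Z, a.1 = b.1 → a = b) ∧ Z.image Prod.fst = I := by
  unfold tr
  rw [mem_filter]
  exact ⟨fun h => h.2, fun h => ⟨mem_univ _, h⟩⟩

theorem card_of_tr {I : Finset (Fin k)} {Z : Finset (Rw k q)} (h : Z ∈ tr k q I) :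
    Z.card = I.card := by
  rw [mem_trI] at h
  rw [← h.2, card_image_of_injOn]
  intro a ha b hb hab
  exact h.1 a ha b hb hab

theorem grI_tr (s : Fin k → Fin q) (I : Finset (Fin k)) : grI s I ∈ tr k q I := by
  rw [mem_trI]
  constructor
  · intro a ha b hb hab
    rw [mem_grI] at ha hb
    refine Prod.ext hab ?_
    rw [← ha.2, ← hb.2, hab]
  · ext i
    rw [mem_image]
    constructor
    · rintro ⟨a, ha, rfl⟩
      exact (mem_grI.mp ha).1
    · intro hi
      exact ⟨(i, s i), mem_grI.mpr ⟨hi, rfl⟩, rfl⟩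

/-- a term inside a transversal -/
theorem eq_grI {s : Fin k → Fin q} {Z : Finset (Rw k q)} (h : Z ⊆ gr s) :
    Z = grI s (Z.image Prod.fst) := by
  ext a
  rw [mem_grI, mem_image]
  constructor
  · intro ha
    exact ⟨⟨a, ha, rfl⟩, mem_gr.mp (h ha)⟩
  · rintro ⟨⟨b, hb, hab⟩, ha⟩
    have h1 := mem_gr.mp (h hb)
    have h2 : a = b := by
      refine Prod.ext hab.symm ?_
      rw [← ha, ← h1, hab]
    rw [h2]
    exact hb

open Classical in
/-- the number of transversals through a term -/
theorem card_fib (hq : 0 < q) {I : Finset (Fin k)} {Z : Finset (Rw k q)} (h : Z ∈ tr k q I) :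
    (univ.filter (fun s : Fin k → Fin q => grI s I = Z)).card = q ^ (k - I.card) := by
  have h0 := mem_trI.mp h
  have h1 : ∀ i ∈ I, ∃ u : Fin q, (i, u) ∈ Z := by
    intro i hi
    rw [← h0.2, mem_image] at hi
    obtain ⟨a, ha, rfl⟩ := hi
    exact ⟨a.2, ha⟩
  have hne : Nonempty (Fin q) := ⟨⟨0, hq⟩⟩
  choose! u hu using h1
  have h2 : (univ.filter (fun s : Fin k → Fin q => grI s I = Z)) =
      Fintype.piFinset (fun i => if i ∈ I then {u i} else univ) := by
    ext s
    rw [mem_filter, Fintype.mem_piFinset]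
    constructor
    · rintro ⟨_, hs⟩ i
      by_cases hi : i ∈ I
      · rw [if_pos hi, mem_singleton]
        have h3 := hu i hi
        rw [← hs, mem_grI] at h3
        exact h3.2
      · rw [if_neg hi]
        exact mem_univ _
    · intro hs
      refine ⟨mem_univ _, ?_⟩
      have h3 : ∀ i ∈ I, s i = u i := by
        intro i hi
        have := hs i
        rw [if_pos hi, mem_singleton] at this
        exact this
      ext a
      rw [mem_grI]
      constructor
      · rintro ⟨ha1, ha2⟩
        have h4 := hu a.1 ha1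
        rw [← h3 a.1 ha1, ha2] at h4
        exact h4
      · intro ha
        have h4 : a.1 ∈ I := by
          rw [← h0.2]
          exact mem_image_of_mem _ ha
        refine ⟨h4, ?_⟩
        have h5 := h0.1 _ (hu a.1 h4) a ha rfl
        rw [h3 a.1 h4]
        exact congrArg Prod.snd h5
  rw [h2, Fintype.card_piFinset]
  have h3 : ∀ i : Fin k, (if i ∈ I then ({u i} : Finset (Fin q)) else univ).card =
      if i ∈ I then 1 else q := by
    intro i
    by_cases hi : i ∈ I
    · rw [if_pos hi, if_pos hi, card_singleton]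
    · rw [if_neg hi, if_neg hi, card_univ, Fintype.card_fin]
  rw [prod_congr rfl (fun i _ => h3 i), prod_ite, prod_const_one, one_mul, prod_const]
  congr 1
  have h4 := card_filter_add_card_filter_not (s := (univ : Finset (Fin k))) (fun i => i ∈ I)
  have h5 : (univ.filter (fun i : Fin k => i ∈ I)) = I := by
    ext i
    simp
  rw [h5, card_univ, Fintype.card_fin] at h4
  omega

/-- sums over transversals -/
theorem sum_gr (hq : 0 < q) (I : Finset (Fin k)) (F : Finset (Rw k q) → ℕ) :
    ∑ s : Fin k → Fin q, F (grI s I) = q ^ (k - I.card) * ∑ Z ∈ tr k q I, F Z := by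
  classical
  rw [← sum_fiberwise_of_maps_to (s := (univ : Finset (Fin k → Fin q))) (t := tr k q I)
    (g := fun s => grI s I) (fun s _ => grI_tr s I), mul_sum]
  refine sum_congr rfl (fun Z hZ => ?_)
  rw [← card_fib hq hZ, card_eq_sum_ones, sum_mul]
  refine sum_congr rfl (fun s hs => ?_)
  rw [(mem_filter.mp hs).2, one_mul]

/-- the number of terms with the groups `I` -/
theorem card_trq (hq : 0 < q) (I : Finset (Fin k)) : (tr k q I).card = q ^ I.card := by
  have h1 := sum_gr hq I (fun _ => 1)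
  rw [sum_const, sum_const, card_univ, Fintype.card_fun, Fintype.card_fin, Fintype.card_fin,
    smul_eq_mul, smul_eq_mul, mul_one, mul_one] at h1
  have h2 : I.card ≤ k := by
    have := card_le_univ I
    rw [Fintype.card_fin] at this
    exact this
  have h3 : q ^ k = q ^ (k - I.card) * q ^ I.card := by
    rw [← pow_add]
    congr 1
    omega
  rw [h3] at h1
  exact (Nat.eq_of_mul_eq_mul_left (pow_pos hq _) h1).symm

open Classical in
/-- minimal witnesses are good witnesses up to the failures of closedness -/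
theorem min_le {l E H : ℕ} {f : Mt k q m → Prop} (hcl : Closed l E H f) {I : Finset (Fin k)}
    (hI : I.card ≤ l) {Z : Finset (Rw k q)} (hZ : Z ∈ tr k q I) :
    H * (univ.filter (fun c : Fin m → Fin k => MinW f Z (pat Z c))).card ≤
      H * (univ.filter (fun c : Fin m → Fin k => Wit E f Z (pat Z c))).card +
        2 ^ I.card * Fintype.card (Fin m → Fin k) := by
  have hZ0 := mem_trI.mp hZ
  have hZc := card_of_tr hZ
  have hsub : (univ.filter (fun c : Fin m → Fin k => MinW f Z (pat Z c))) ⊆
      (univ.filter (fun c : Fin m → Fin k => Wit E f Z (pat Z c))) ∪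
        Z.powerset.biUnion (fun K => univ.filter (fun c : Fin m → Fin k =>
          ¬ f (pat K c) ∧ phi E f K (pat K c))) := by
    intro c hc
    obtain ⟨_, hc1, hc2⟩ := mem_filter.mp hc
    rw [mem_union, mem_biUnion]
    by_cases h : ∀ K, K ⊂ Z → ¬ phi E f K (res K (pat Z c))
    · left
      exact mem_filter.mpr ⟨mem_univ _, hc1, h⟩
    · right
      push Not at h
      obtain ⟨K, hK, hphi⟩ := h
      refine ⟨K, mem_powerset.mpr hK.1, ?_⟩
      have h1 := hc2 K hK
      rw [pat_res hK.1] at h1 hphi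
      exact mem_filter.mpr ⟨mem_univ _, h1, hphi⟩
  have h1 : (univ.filter (fun c : Fin m → Fin k => MinW f Z (pat Z c))).card ≤
      (univ.filter (fun c : Fin m → Fin k => Wit E f Z (pat Z c))).card +
        ∑ K ∈ Z.powerset, (univ.filter (fun c : Fin m → Fin k =>
          ¬ f (pat K c) ∧ phi E f K (pat K c))).card :=
    (card_le_card hsub).trans ((card_union_le _ _).trans (Nat.add_le_add_left card_biUnion_le _))
  have h2 : H * ∑ K ∈ Z.powerset, (univ.filter (fun c : Fin m → Fin k =>
          ¬ f (pat K c) ∧ phi E f K (pat K c))).card ≤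
      2 ^ I.card * Fintype.card (Fin m → Fin k) := by
    rw [mul_sum]
    calc ∑ K ∈ Z.powerset, H * (univ.filter (fun c : Fin m → Fin k =>
          ¬ f (pat K c) ∧ phi E f K (pat K c))).card
        ≤ ∑ _K ∈ Z.powerset, Fintype.card (Fin m → Fin k) := by
          refine sum_le_sum (fun K hK => hcl K ⟨?_, ?_⟩)
          · exact ((card_le_card (mem_powerset.mp hK)).trans hZc.le).trans hI
          · intro a ha b hb
            exact hZ0.1 a (mem_powerset.mp hK ha) b (mem_powerset.mp hK hb)
      _ = 2 ^ I.card * Fintype.card (Fin m → Fin k) := by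
          rw [sum_const, card_powerset, smul_eq_mul, hZc]
  calc H * (univ.filter (fun c : Fin m → Fin k => MinW f Z (pat Z c))).card
      ≤ H * ((univ.filter (fun c : Fin m → Fin k => Wit E f Z (pat Z c))).card +
        ∑ K ∈ Z.powerset, (univ.filter (fun c : Fin m → Fin k =>
          ¬ f (pat K c) ∧ phi E f K (pat K c))).card) := Nat.mul_le_mul_left _ h1
    _ ≤ _ := by
      rw [mul_add]
      exact Nat.add_le_add_left h2 _

open Classical in
/-- the good witnesses of planted covers and of random matrices -/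
theorem wit_sum {E : ℕ} (f : Mt k q m → Prop) {I : Finset (Fin k)} {pi : Fin k → Fin k}
    (hpi : Partner I pi) (y : Mt k q m) :
    (∑ Z ∈ tr k q I, (univ.filter (fun c : Fin m → Fin k => Wit E f Z (pat Z c))).card) *
        Fintype.card (Mt k q m) =
      ∑ C : Fin m → Fin k, lam E f pi C I ∅ y := by
  rw [sum_mul]
  unfold lam
  rw [sum_comm' (t' := tr k q I) (s' := fun _ => (univ : Finset (Fin m → Fin k))) (by
    intro C Z
    simp)]
  refine sum_congr rfl (fun Z hZ => ?_)
  rw [← coupling hpi hZ (fun x => Wit E f Z x)]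
  refine sum_congr rfl (fun C _ => ?_)
  simp only [mix_empty]

open Classical in
theorem wit_le {l E M : ℕ} (hM : 1 ≤ M) (hE : (E : ℝ) ≤ Real.exp (M / 2))
    (f : Mt k q m → Prop) (hf : ∀ x y, Le x y → f x → f y) {I : Finset (Fin k)}
    (hI : I.card ≤ l) (h2l : 2 * l ≤ k) :
    ∑ Z ∈ tr k q I, (univ.filter (fun c : Fin m → Fin k => Wit E f Z (pat Z c))).card ≤
      (2 * l * M) ^ I.card * Fintype.card (Fin m → Fin k) := by
  obtain ⟨pi, hpi⟩ := exists_partner I (by omega)
  have h1 := wit_sum (E := E) f hpi (fun _ _ => false)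
  have h2 : ∑ C : Fin m → Fin k, lam E f pi C I ∅ (fun _ _ => false) ≤
      ∑ _C : Fin m → Fin k, (2 * l * M) ^ I.card * Fintype.card (Mt k q m) := by
    refine sum_le_sum (fun C _ => ?_)
    have h3 := lam_le hM hE f hf pi C I hI ∅ (by simp) (fun _ _ => false)
    rw [card_empty, Nat.sub_zero] at h3
    exact h3
  rw [sum_const, card_univ, smul_eq_mul] at h2
  rw [← h1] at h2
  have h4 : 0 < Fintype.card (Mt k q m) := Fintype.card_pos
  refine Nat.le_of_mul_le_mul_right (h2.trans (le_of_eq ?_)) h4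
  ring

open Classical in
theorem wit_le2 {l E M : ℕ} (hM : 1 ≤ M) (hE : (E : ℝ) ≤ Real.exp (M / 2))
    (f : Mt k q m → Prop) (hf : ∀ x y, Le x y → f x → f y) {I : Finset (Fin k)}
    (hI : I.card ≤ l) (h2l : 2 * l ≤ k) :
    (∑ Z ∈ tr k q I, (univ.filter (fun c : Fin m → Fin k => Wit E f Z (pat Z c))).card) *
        Fintype.card (Mt k q m) ≤
      (1 + 2 * l * M) ^ I.card * (univ.filter (fun y => f y)).card *
        Fintype.card (Fin m → Fin k) := by
  obtain ⟨pi, hpi⟩ := exists_partner I (by omega)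
  rw [wit_sum (E := E) f hpi (fun _ _ => false)]
  have h2 : ∑ C : Fin m → Fin k, lam E f pi C I ∅ (fun _ _ => false) ≤
      ∑ _C : Fin m → Fin k, (1 + 2 * l * M) ^ I.card * (univ.filter (fun y => f y)).card :=
    sum_le_sum (fun C _ => lam_second hM hE f hf pi C I hI _)
  rw [sum_const, card_univ, smul_eq_mul] at h2
  refine h2.trans (le_of_eq ?_)
  ring

open Classical in
/-- the minimal witnesses with the groups `I` in positive tests -/
theorem pos_I {l E H M : ℕ} (hq : 0 < q) (hM : 1 ≤ M) (hE : (E : ℝ) ≤ Real.exp (M / 2))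
    {f : Mt k q m → Prop} (hf : ∀ x y, Le x y → f x → f y) (hcl : Closed l E H f)
    {I : Finset (Fin k)} (hI : I.card ≤ l) (h2l : 2 * l ≤ k) :
    (H : ℝ) * (∑ s : Fin k → Fin q, (univ.filter (fun c : Fin m → Fin k =>
        MinW f (grI s I) (pat (grI s I) c))).card : ℕ) ≤
      (q : ℝ) ^ k * Fintype.card (Fin m → Fin k) *
        (H * ((2 * l * M : ℝ) / q) ^ I.card + 2 ^ I.card) := by
  have h1 := sum_gr hq I (fun Z => (univ.filter (fun c : Fin m → Fin k =>
        MinW f Z (pat Z c))).card)
  have h2 : H * ∑ Z ∈ tr k q I, (univ.filter (fun c : Fin m → Fin k =>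
        MinW f Z (pat Z c))).card ≤
      H * ((2 * l * M) ^ I.card * Fintype.card (Fin m → Fin k)) +
        q ^ I.card * (2 ^ I.card * Fintype.card (Fin m → Fin k)) := by
    rw [mul_sum, ← card_trq hq I, ← smul_eq_mul (tr k q I).card, ← sum_const]
    calc ∑ Z ∈ tr k q I, H * (univ.filter (fun c : Fin m → Fin k =>
          MinW f Z (pat Z c))).card
        ≤ ∑ Z ∈ tr k q I, (H * (univ.filter (fun c : Fin m → Fin k => Wit E f Z (pat Z c))).card +
          2 ^ I.card * Fintype.card (Fin m → Fin k)) :=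
          sum_le_sum (fun Z hZ => min_le hcl hI hZ)
      _ = H * ∑ Z ∈ tr k q I, (univ.filter (fun c : Fin m → Fin k =>
            Wit E f Z (pat Z c))).card +
          ∑ Z ∈ tr k q I, 2 ^ I.card * Fintype.card (Fin m → Fin k) := by
          rw [sum_add_distrib, mul_sum]
      _ ≤ _ := Nat.add_le_add_right (Nat.mul_le_mul_left _ (wit_le hM hE f hf hI h2l)) _
  have hIk : I.card ≤ k := by
    have := card_le_univ I
    rw [Fintype.card_fin] at this
    exact this
  have hq0 : (0 : ℝ) < q := by exact_mod_cast hq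
  have h3 : (q : ℝ) ^ k = (q : ℝ) ^ (k - I.card) * (q : ℝ) ^ I.card := by
    rw [← pow_add]
    congr 1
    omega
  have h4 : ((H * ∑ Z ∈ tr k q I, (univ.filter (fun c : Fin m → Fin k =>
        MinW f Z (pat Z c))).card : ℕ) : ℝ) ≤
      ((H * ((2 * l * M) ^ I.card * Fintype.card (Fin m → Fin k)) +
        q ^ I.card * (2 ^ I.card * Fintype.card (Fin m → Fin k)) : ℕ) : ℝ) := by
    exact_mod_cast h2
  rw [h1]
  push_cast at h4 ⊢
  have h5 := mul_le_mul_of_nonneg_left h4 (pow_nonneg hq0.le (k - I.card))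
  calc (H : ℝ) * ((q : ℝ) ^ (k - I.card) * ∑ Z ∈ tr k q I,
        ((univ.filter (fun c : Fin m → Fin k => MinW f Z (pat Z c))).card : ℝ))
      = (q : ℝ) ^ (k - I.card) * (H * ∑ Z ∈ tr k q I,
        ((univ.filter (fun c : Fin m → Fin k => MinW f Z (pat Z c))).card : ℝ)) := by ring
    _ ≤ _ := h5
    _ = _ := by
      rw [h3, div_pow]
      have h6 : (q : ℝ) ^ I.card ≠ 0 := (pow_pos hq0 _).ne'
      field_simp

open Classical in
/-- the minimal witnesses with the groups `I` in positive tests against the accepted negative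
tests -/
theorem pos_I2 {l E H M : ℕ} (hq : 0 < q) (hM : 1 ≤ M) (hE : (E : ℝ) ≤ Real.exp (M / 2))
    {f : Mt k q m → Prop} (hf : ∀ x y, Le x y → f x → f y) (hcl : Closed l E H f)
    {I : Finset (Fin k)} (hI : I.card ≤ l) (h2l : 2 * l ≤ k) :
    (H : ℝ) * (∑ s : Fin k → Fin q, (univ.filter (fun c : Fin m → Fin k =>
        MinW f (grI s I) (pat (grI s I) c))).card : ℕ) * Fintype.card (Mt k q m) ≤
      (q : ℝ) ^ k * Fintype.card (Fin m → Fin k) *
        (H * (((1 + 2 * l * M : ℝ) / q) ^ I.card * ((univ.filter (fun y => f y)).card : ℝ)) +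
          2 ^ I.card * Fintype.card (Mt k q m)) := by
  have h1 := sum_gr hq I (fun Z => (univ.filter (fun c : Fin m → Fin k =>
        MinW f Z (pat Z c))).card)
  have h2 : H * (∑ Z ∈ tr k q I, (univ.filter (fun c : Fin m → Fin k =>
        MinW f Z (pat Z c))).card) * Fintype.card (Mt k q m) ≤
      H * ((1 + 2 * l * M) ^ I.card * (univ.filter (fun y => f y)).card *
        Fintype.card (Fin m → Fin k)) +
        q ^ I.card * (2 ^ I.card * Fintype.card (Fin m → Fin k)) * Fintype.card (Mt k q m) := by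
    have h3 : H * ∑ Z ∈ tr k q I, (univ.filter (fun c : Fin m → Fin k =>
          MinW f Z (pat Z c))).card ≤
        H * ∑ Z ∈ tr k q I, (univ.filter (fun c : Fin m → Fin k =>
            Wit E f Z (pat Z c))).card +
          q ^ I.card * (2 ^ I.card * Fintype.card (Fin m → Fin k)) := by
      rw [mul_sum, ← card_trq hq I, ← smul_eq_mul (tr k q I).card, ← sum_const]
      calc ∑ Z ∈ tr k q I, H * (univ.filter (fun c : Fin m → Fin k =>
            MinW f Z (pat Z c))).card
          ≤ ∑ Z ∈ tr k q I, (H * (univ.filter (fun c : Fin m → Fin k =>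
              Wit E f Z (pat Z c))).card + 2 ^ I.card * Fintype.card (Fin m → Fin k)) :=
            sum_le_sum (fun Z hZ => min_le hcl hI hZ)
        _ = _ := by rw [sum_add_distrib, mul_sum]
    refine (Nat.mul_le_mul_right _ h3).trans ?_
    rw [add_mul, mul_assoc H]
    exact Nat.add_le_add_right (Nat.mul_le_mul_left _ (wit_le2 hM hE f hf hI h2l)) _
  have hIk : I.card ≤ k := by
    have := card_le_univ I
    rw [Fintype.card_fin] at this
    exact this
  have hq0 : (0 : ℝ) < q := by exact_mod_cast hq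
  have h3 : (q : ℝ) ^ k = (q : ℝ) ^ (k - I.card) * (q : ℝ) ^ I.card := by
    rw [← pow_add]
    congr 1
    omega
  have h4 : ((H * (∑ Z ∈ tr k q I, (univ.filter (fun c : Fin m → Fin k =>
        MinW f Z (pat Z c))).card) * Fintype.card (Mt k q m) : ℕ) : ℝ) ≤
      ((H * ((1 + 2 * l * M) ^ I.card * (univ.filter (fun y => f y)).card *
        Fintype.card (Fin m → Fin k)) +
        q ^ I.card * (2 ^ I.card * Fintype.card (Fin m → Fin k)) *
          Fintype.card (Mt k q m) : ℕ) : ℝ) := by
    exact_mod_cast h2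
  rw [h1]
  set X : ℝ := (Fintype.card (Mt k q m) : ℝ) with hX
  push_cast at h4 ⊢
  rw [← hX] at h4
  have h5 := mul_le_mul_of_nonneg_left h4 (pow_nonneg hq0.le (k - I.card))
  calc (H : ℝ) * ((q : ℝ) ^ (k - I.card) * ∑ Z ∈ tr k q I,
        ((univ.filter (fun c : Fin m → Fin k => MinW f Z (pat Z c))).card : ℝ)) * X
      = (q : ℝ) ^ (k - I.card) * (H * (∑ Z ∈ tr k q I,
        ((univ.filter (fun c : Fin m → Fin k => MinW f Z (pat Z c))).card : ℝ)) * X) := by ring
    _ ≤ _ := h5
    _ = _ := by
      rw [h3, div_pow]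
      have h6 : (q : ℝ) ^ I.card ≠ 0 := (pow_pos hq0 _).ne'
      field_simp

end Pool.Agent.DG
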