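import Pool.Agent.Lib.MP_66cd2e_lc.DG.Pos

/-!
The two properties of closed local functions which are used by the approximators.
-/

set_option autoImplicit false

namespace Pool.Agent.DG

open Finset

variable {k q m : ℕ}

/-- the positive test as a matrix -/
def pt (p : (Fin k → Fin q) × (Fin m → Fin k)) : Mt k q m := pat (gr p.1) p.2

theorem card_grI (s : Fin k → Fin q) (I : Finset (Fin k)) : (grI s I).card = I.card :=
  card_of_tr (grI_tr s I)

/-- a minimal witness below a given one -/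
theorem exists_min {f : Mt k q m → Prop} {s : Fin k → Fin q} {c : Fin m → Fin k} :
    ∀ (n : ℕ) (Z : Finset (Rw k q)), Z.card ≤ n → Z ⊆ gr s → f (pat Z c) →
      ∃ I : Finset (Fin k), grI s I ⊆ Z ∧ MinW f (grI s I) (pat (grI s I) c) := by
  intro n
  induction n with
  | zero =>
    intro Z hZ hs hf
    have h1 : Z = ∅ := card_eq_zero.mp (Nat.le_zero.mp hZ)
    refine ⟨∅, ?_, ?_, ?_⟩
    · unfold grI
      rw [image_empty]
      exact empty_subset _
    · unfold grI
      rw [image_empty, pat_res (Subset.refl _)]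
      rw [h1] at hf
      exact hf
    · intro K hK
      unfold grI at hK
      rw [image_empty] at hK
      exact absurd hK (by simp)
  | succ n ih =>
    intro Z hZ hs hf
    by_cases h : ∃ K, K ⊂ Z ∧ f (pat K c)
    · obtain ⟨K, hK, hfK⟩ := h
      have h1 := card_lt_card hK
      obtain ⟨I, hI1, hI2⟩ := ih K (by omega) (hK.1.trans hs) hfK
      exact ⟨I, hI1.trans hK.1, hI2⟩
    · push Not at h
      obtain hZI := eq_grI hs
      refine ⟨Z.image Prod.fst, ?_, ?_, ?_⟩
      · rw [← hZI]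
      · rw [← hZI, pat_res (Subset.refl _)]
        exact hf
      · intro K hK
        rw [← hZI] at hK
        rw [← hZI, pat_res hK.1]
        exact h K hK

theorem res_pat (Z Y : Finset (Rw k q)) (c : Fin m → Fin k) :
    res Z (pat Y c) = pat (Z ∩ Y) c := by
  funext a b
  unfold res pat
  rw [← Bool.and_assoc, ← Bool.decide_and]
  simp only [mem_inter]

open Classical in
theorem card_pairs {A B : Type} [Fintype A] [Fintype B] (P : A → B → Prop) :
    (univ.filter (fun p : A × B => P p.1 p.2)).card =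
      ∑ a : A, (univ.filter (fun b : B => P a b)).card := by
  rw [card_filter, ← univ_product_univ, sum_product]
  refine sum_congr rfl (fun a _ => ?_)
  rw [card_filter]

/-- an accepted positive test has a minimal witness -/
theorem acc_min {l : ℕ} {f : Mt k q m → Prop} (hf : Loc l f)
    {p : (Fin k → Fin q) × (Fin m → Fin k)} (hp : f (pt p)) :
    ∃ I : Finset (Fin k), I.card ≤ l ∧ grI p.1 I ⊆ gr p.1 ∧
      MinW f (grI p.1 I) (pat (grI p.1 I) p.2) := by
  obtain ⟨Z, hZ, hfZ⟩ := hf.loc _ hp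
  unfold pt at hfZ
  rw [res_pat] at hfZ
  obtain ⟨I, hI1, hI2⟩ := exists_min (Z ∩ gr p.1).card _ le_rfl inter_subset_right hfZ
  refine ⟨I, ?_, hI1.trans inter_subset_right, hI2⟩
  rw [← card_grI p.1 I]
  exact (card_le_card (hI1.trans inter_subset_left)).trans hZ.1

open Classical in
/-- few positive tests have a minimal witness with more than `l / 2` rows -/
theorem pos_big {l E H M : ℕ} (hq : 0 < q) (hM : 1 ≤ M) (hE : (E : ℝ) ≤ Real.exp (M / 2))
    {f : Mt k q m → Prop} (hf : Loc l f) (hcl : Closed l E H f) (h2l : 2 * l ≤ k) :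
    (H : ℝ) * (univ.filter (fun p : (Fin k → Fin q) × (Fin m → Fin k) =>
        f (pt p) ∧ ∀ Z, Z ⊆ gr p.1 → 2 * Z.card ≤ l → ¬ f (pat Z p.2))).card ≤
      (q : ℝ) ^ k * Fintype.card (Fin m → Fin k) *
        (∑ I ∈ (univ : Finset (Fin k)).powerset.filter (fun I => l / 2 < I.card),
          (H * ((2 * l * M : ℝ) / q) ^ I.card + 2 ^ I.card)) := by
  have hsub : (univ.filter (fun p : (Fin k → Fin q) × (Fin m → Fin k) =>
        f (pt p) ∧ ∀ Z, Z ⊆ gr p.1 → 2 * Z.card ≤ l → ¬ f (pat Z p.2))) ⊆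
      ((univ : Finset (Fin k)).powerset.filter (fun I => l / 2 < I.card ∧ I.card ≤ l)).biUnion
        (fun I => univ.filter (fun p : (Fin k → Fin q) × (Fin m → Fin k) =>
          MinW f (grI p.1 I) (pat (grI p.1 I) p.2))) := by
    intro p hp
    obtain ⟨_, hp1, hp2⟩ := mem_filter.mp hp
    obtain ⟨I, hI1, hI2, hI3⟩ := acc_min hf hp1
    rw [mem_biUnion]
    refine ⟨I, mem_filter.mpr ⟨mem_powerset.mpr (subset_univ _), ?_, hI1⟩,
      mem_filter.mpr ⟨mem_univ _, hI3⟩⟩
    by_contra hlt
    have h3 := hI3.1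
    rw [pat_res (Subset.refl _)] at h3
    refine hp2 _ hI2 ?_ h3
    rw [card_grI]
    omega
  have h1 : ((univ.filter (fun p : (Fin k → Fin q) × (Fin m → Fin k) =>
        f (pt p) ∧ ∀ Z, Z ⊆ gr p.1 → 2 * Z.card ≤ l → ¬ f (pat Z p.2))).card : ℝ) ≤
      ∑ I ∈ (univ : Finset (Fin k)).powerset.filter (fun I => l / 2 < I.card ∧ I.card ≤ l),
        ((∑ s : Fin k → Fin q, (univ.filter (fun c : Fin m → Fin k =>
          MinW f (grI s I) (pat (grI s I) c))).card : ℕ) : ℝ) := by
    refine (Nat.cast_le.mpr ((card_le_card hsub).trans card_biUnion_le)).trans ?_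
    rw [Nat.cast_sum]
    refine sum_le_sum (fun I _ => le_of_eq ?_)
    rw [card_pairs (fun (s : Fin k → Fin q) (c : Fin m → Fin k) =>
      MinW f (grI s I) (pat (grI s I) c))]
  calc (H : ℝ) * (univ.filter (fun p : (Fin k → Fin q) × (Fin m → Fin k) =>
        f (pt p) ∧ ∀ Z, Z ⊆ gr p.1 → 2 * Z.card ≤ l → ¬ f (pat Z p.2))).card
      ≤ H * ∑ I ∈ (univ : Finset (Fin k)).powerset.filter (fun I => l / 2 < I.card ∧ I.card ≤ l),
        ((∑ s : Fin k → Fin q, (univ.filter (fun c : Fin m → Fin k =>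
          MinW f (grI s I) (pat (grI s I) c))).card : ℕ) : ℝ) :=
        mul_le_mul_of_nonneg_left h1 (Nat.cast_nonneg _)
    _ ≤ ∑ I ∈ (univ : Finset (Fin k)).powerset.filter (fun I => l / 2 < I.card ∧ I.card ≤ l),
        (q : ℝ) ^ k * Fintype.card (Fin m → Fin k) *
          (H * ((2 * l * M : ℝ) / q) ^ I.card + 2 ^ I.card) := by
        rw [mul_sum]
        refine sum_le_sum (fun I hI => ?_)
        exact pos_I hq hM hE hf.mono hcl (mem_filter.mp hI).2.2 h2l
    _ ≤ ∑ I ∈ (univ : Finset (Fin k)).powerset.filter (fun I => l / 2 < I.card),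
        (q : ℝ) ^ k * Fintype.card (Fin m → Fin k) *
          (H * ((2 * l * M : ℝ) / q) ^ I.card + 2 ^ I.card) := by
        refine sum_le_sum_of_subset_of_nonneg ?_ (fun I _ _ => by positivity)
        intro I hI
        obtain ⟨h2, h3, _⟩ := mem_filter.mp hI
        exact mem_filter.mpr ⟨h2, h3⟩
    _ = _ := by rw [mul_sum]

open Classical in
/-- a closed local function which is not constant accepts positive tests seldom if it accepts
negative tests seldom -/
theorem pos_dom {l E H M : ℕ} (hq : 0 < q) (hM : 1 ≤ M) (hE : (E : ℝ) ≤ Real.exp (M / 2))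
    {f : Mt k q m → Prop} (hf : Loc l f) (hcl : Closed l E H f) (h2l : 2 * l ≤ k)
    (h0 : ¬ f (fun _ _ => false)) :
    (H : ℝ) * (univ.filter (fun p : (Fin k → Fin q) × (Fin m → Fin k) => f (pt p))).card *
        Fintype.card (Mt k q m) ≤
      (q : ℝ) ^ k * Fintype.card (Fin m → Fin k) *
        (H * (((1 + (1 + 2 * l * M : ℝ) / q) ^ k - 1) *
          ((univ.filter (fun y => f y)).card : ℝ)) + 3 ^ k * Fintype.card (Mt k q m)) := by
  have hsub : (univ.filter (fun p : (Fin k → Fin q) × (Fin m → Fin k) => f (pt p))) ⊆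
      ((univ : Finset (Fin k)).powerset.filter (fun I => I ≠ ∅ ∧ I.card ≤ l)).biUnion
        (fun I => univ.filter (fun p : (Fin k → Fin q) × (Fin m → Fin k) =>
          MinW f (grI p.1 I) (pat (grI p.1 I) p.2))) := by
    intro p hp
    obtain ⟨_, hp1⟩ := mem_filter.mp hp
    obtain ⟨I, hI1, hI2, hI3⟩ := acc_min hf hp1
    rw [mem_biUnion]
    refine ⟨I, mem_filter.mpr ⟨mem_powerset.mpr (subset_univ _), ?_, hI1⟩,
      mem_filter.mpr ⟨mem_univ _, hI3⟩⟩
    rintro rfl
    have h3 := hI3.1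
    refine h0 ?_
    refine (congrArg f ?_).mp h3
    funext a b
    simp [res, pat, grI]
  have h1 : ((univ.filter (fun p : (Fin k → Fin q) × (Fin m → Fin k) => f (pt p))).card : ℝ) ≤
      ∑ I ∈ (univ : Finset (Fin k)).powerset.filter (fun I => I ≠ ∅ ∧ I.card ≤ l),
        ((∑ s : Fin k → Fin q, (univ.filter (fun c : Fin m → Fin k =>
          MinW f (grI s I) (pat (grI s I) c))).card : ℕ) : ℝ) := by
    refine (Nat.cast_le.mpr ((card_le_card hsub).trans card_biUnion_le)).trans ?_
    rw [Nat.cast_sum]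
    refine sum_le_sum (fun I _ => le_of_eq ?_)
    rw [card_pairs (fun (s : Fin k → Fin q) (c : Fin m → Fin k) =>
      MinW f (grI s I) (pat (grI s I) c))]
  set X : ℝ := (Fintype.card (Mt k q m) : ℝ) with hX
  set F : ℝ := ((univ.filter (fun y : Mt k q m => f y)).card : ℝ) with hF
  have hX0 : 0 ≤ X := Nat.cast_nonneg _
  have hF0 : 0 ≤ F := Nat.cast_nonneg _
  have hpow : ∀ x : ℝ, ∑ I ∈ (univ : Finset (Fin k)).powerset, x ^ I.card = (1 + x) ^ k := by
    intro x
    have h := Finset.sum_pow_mul_eq_add_pow x 1 (univ : Finset (Fin k))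
    simp only [one_pow, mul_one, card_univ, Fintype.card_fin] at h
    rw [h, add_comm]
  have hpow' : ∀ x : ℝ, ∑ I ∈ (univ : Finset (Fin k)).powerset.filter (fun I => I ≠ ∅),
      x ^ I.card = (1 + x) ^ k - 1 := by
    intro x
    have h := Finset.sum_filter_add_sum_filter_not (univ : Finset (Fin k)).powerset
      (fun I => I ≠ ∅) (fun I => x ^ I.card)
    rw [hpow] at h
    have h2 : (univ : Finset (Fin k)).powerset.filter (fun I => ¬ I ≠ ∅) = {∅} := by
      ext I
      simp
    rw [h2, sum_singleton, card_empty, pow_zero] at h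
    linarith
  calc (H : ℝ) * (univ.filter (fun p : (Fin k → Fin q) × (Fin m → Fin k) => f (pt p))).card * X
      ≤ (H * ∑ I ∈ (univ : Finset (Fin k)).powerset.filter (fun I => I ≠ ∅ ∧ I.card ≤ l),
        ((∑ s : Fin k → Fin q, (univ.filter (fun c : Fin m → Fin k =>
          MinW f (grI s I) (pat (grI s I) c))).card : ℕ) : ℝ)) * X :=
        mul_le_mul_of_nonneg_right (mul_le_mul_of_nonneg_left h1 (Nat.cast_nonneg _)) hX0
    _ ≤ ∑ I ∈ (univ : Finset (Fin k)).powerset.filter (fun I => I ≠ ∅ ∧ I.card ≤ l),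
        (q : ℝ) ^ k * Fintype.card (Fin m → Fin k) *
        (H * (((1 + 2 * l * M : ℝ) / q) ^ I.card * F) + 2 ^ I.card * X) := by
        rw [mul_sum, sum_mul]
        refine sum_le_sum (fun I hI => ?_)
        exact pos_I2 hq hM hE hf.mono hcl (mem_filter.mp hI).2.2 h2l
    _ ≤ ∑ I ∈ (univ : Finset (Fin k)).powerset.filter (fun I => I ≠ ∅),
        (q : ℝ) ^ k * Fintype.card (Fin m → Fin k) *
        (H * (((1 + 2 * l * M : ℝ) / q) ^ I.card * F) + 2 ^ I.card * X) := by
        refine sum_le_sum_of_subset_of_nonneg ?_ (fun I _ _ => by positivity)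
        intro I hI
        obtain ⟨h2, h3, _⟩ := mem_filter.mp hI
        exact mem_filter.mpr ⟨h2, h3⟩
    _ = (q : ℝ) ^ k * Fintype.card (Fin m → Fin k) *
        (H * (((1 + (1 + 2 * l * M : ℝ) / q) ^ k - 1) * F) + ((1 + 2) ^ k - 1) * X) := by
        rw [← mul_sum, sum_add_distrib, ← mul_sum, ← sum_mul, ← sum_mul, hpow', hpow']
    _ ≤ _ := by
        refine mul_le_mul_of_nonneg_left ?_ (by positivity)
        refine add_le_add_right ?_ _
        refine mul_le_mul_of_nonneg_right ?_ hX0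
        norm_num

end Pool.Agent.DG
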