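import Pool.Agent.Lib.MP_0087d5_lc.NEGS.Sys
import Pool.Agent.Lib.MP_66cd2e_lc.DG.Pos2
import Pool.Agent.Lib.MP_66cd2e_lc.DG.Clo

/-!
The approximators: closed local monotone functions.
-/

set_option autoImplicit false

namespace Pool.Agent.DG

open Finset Pool.Agent.NEGS

variable {k q m : ℕ}

/-- what is used about the approximators -/
def GoodSys (k q m r : ℕ) : Prop :=
  ∃ (ep en : ℝ) (S : Sys (Rw k q × Fin m) ((Fin k → Fin q) × (Fin m → Fin k)) (Mt k q m)
      px py ep en),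
    (2 : ℝ) ^ r * ep ≤ Fintype.card ((Fin k → Fin q) × (Fin m → Fin k)) ∧
    (2 : ℝ) ^ r * en ≤ Fintype.card (Mt k q m) ∧
    ∀ a : S.A, (∀ w, S.ev a w = true) ∨
      (2 : ℝ) ^ r * ((({p | S.ev a (px p) = true} :
          Set ((Fin k → Fin q) × (Fin m → Fin k))).ncard : ℝ) * Fintype.card (Mt k q m)) ≤
        (2 : ℝ) ^ r * ((({p | S.ev a (py p) = true} : Set (Mt k q m)).ncard : ℝ) *
          Fintype.card ((Fin k → Fin q) × (Fin m → Fin k))) +
        (Fintype.card ((Fin k → Fin q) × (Fin m → Fin k)) : ℝ) * Fintype.card (Mt k q m)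

/-- the number of terms -/
theorem card_terms (k q l : ℕ) : (terms k q l).card ≤ (k * q + 1) ^ l := by
  classical
  calc (terms k q l).card
      ≤ (univ : Finset (Fin l → Option (Rw k q))).card := by
        apply card_le_card_of_injOn (fun R (j : Fin l) => R.toList[(j : ℕ)]?)
          (fun _ _ => mem_coe.mpr (mem_univ _))
        intro R hR S hS h
        have hR' := (mem_terms.mp (mem_coe.mp hR)).1
        have hS' := (mem_terms.mp (mem_coe.mp hS)).1
        have hl : R.toList = S.toList := by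
          apply List.ext_getElem?
          intro i
          by_cases hi : i < l
          · exact congrFun h ⟨i, hi⟩
          · rw [List.getElem?_eq_none, List.getElem?_eq_none]
            · rw [length_toList]
              omega
            · rw [length_toList]
              omega
        rw [← toList_toFinset R, hl, toList_toFinset S]
    _ = (k * q + 1) ^ l := by
        rw [card_univ, Fintype.card_fun, Fintype.card_option, Fintype.card_prod,
          Fintype.card_fin, Fintype.card_fin, Fintype.card_fin]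

/-- an assignment as a matrix -/
def cu (w : Rw k q × Fin m → Bool) : Mt k q m := fun a b => w (a, b)

theorem cu_px (p : (Fin k → Fin q) × (Fin m → Fin k)) : cu (px p) = pt p := by
  funext a b
  unfold cu px pt pat
  rw [← Bool.decide_and]
  apply decide_eq_decide.2
  rw [mem_gr]

theorem cu_py (y : Mt k q m) : cu (py y) = y := rfl

/-- the rows of a transversal form a term if there are not too many of them -/
theorem term_of_gr {l : ℕ} {s : Fin k → Fin q} {Z : Finset (Rw k q)} (h : Z ⊆ gr s)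
    (h1 : Z.card ≤ l) : Term l Z := by
  refine ⟨h1, fun a ha b hb hab => ?_⟩
  have h2 := mem_gr.1 (h ha)
  have h3 := mem_gr.1 (h hb)
  refine Prod.ext hab ?_
  rw [← h2, ← h3, hab]

/-- the approximators -/
abbrev AF (k q m l E H : ℕ) : Type := {f : Mt k q m → Prop // Loc l f ∧ Closed l E H f}

open Classical in
theorem ex_or {l E H : ℕ} (hk : 0 < k) (hE : 0 < E) (hH : 0 < H) (f g : AF k q m l E H) :
    ∃ h : AF k q m l E H, (∀ x, f.1 x ∨ g.1 x → h.1 x) ∧
      E * (univ.filter (fun y => h.1 y ∧ ¬ (f.1 y ∨ g.1 y))).card ≤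
        H * (terms k q l).card * Fintype.card (Mt k q m) := by
  obtain ⟨h, h1, h2, h3, h4⟩ := exists_closure (l := l) hk hE hH _ (loc_or f.2.1 g.2.1)
  refine ⟨⟨h, h1, h3⟩, h2, ?_⟩
  convert h4

/-- the bad positive tests of an approximator: every witness has more than `l / 2` rows -/
def BadP (l : ℕ) (f : Mt k q m → Prop) (p : (Fin k → Fin q) × (Fin m → Fin k)) : Prop :=
  f (pt p) ∧ ∀ Z, Z ⊆ gr p.1 → 2 * Z.card ≤ l → ¬ f (pat Z p.2)

theorem pat_le {Z Z' : Finset (Rw k q)} (h : Z ⊆ Z') (c : Fin m → Fin k) :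
    Le (pat Z c) (pat Z' c) := by
  intro a b hab
  unfold pat at hab ⊢
  rw [Bool.and_eq_true] at hab ⊢
  exact ⟨decide_eq_true (h (of_decide_eq_true hab.1)), hab.2⟩

open Classical in
theorem ex_and {l E H : ℕ} (hk : 0 < k) (hE : 0 < E) (hH : 0 < H) (f g : AF k q m l E H) :
    ∃ h : AF k q m l E H,
      (∀ p, f.1 (pt p) → g.1 (pt p) → ¬ h.1 (pt p) → BadP l f.1 p ∨ BadP l g.1 p) ∧
      E * (univ.filter (fun y => h.1 y ∧ ¬ (f.1 y ∧ g.1 y))).card ≤
        H * (terms k q l).card * Fintype.card (Mt k q m) := by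
  obtain ⟨h, h1, h2, h3, h4⟩ := exists_closure (l := l) hk hE hH _ (loc_and f.2.1 g.2.1)
  refine ⟨⟨h, h1, h3⟩, ?_, ?_⟩
  · intro p hf hg hh
    by_contra hc
    push Not at hc
    obtain ⟨hc1, hc2⟩ := hc
    unfold BadP at hc1 hc2
    push Not at hc1 hc2
    obtain ⟨Z1, ha1, hb1, hd1⟩ := hc1 hf
    obtain ⟨Z2, ha2, hb2, hd2⟩ := hc2 hg
    apply hh
    apply h2
    have hsub : Z1 ∪ Z2 ⊆ gr p.1 := union_subset ha1 ha2
    refine ⟨Z1 ∪ Z2, term_of_gr hsub ?_, ?_, ?_⟩
    · have := card_union_le Z1 Z2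
      omega
    · unfold pt
      rw [pat_res hsub]
      exact f.2.1.mono _ _ (pat_le subset_union_left _) hd1
    · unfold pt
      rw [pat_res hsub]
      exact g.2.1.mono _ _ (pat_le subset_union_right _) hd2
  · refine le_trans (Nat.mul_le_mul_left _ (card_le_imp fun y hy => ?_)) h4
    refine ⟨hy.1, ?_⟩
    rintro ⟨Z, _, hf, hg⟩
    exact hy.2 ⟨f.2.1.mono _ _ (res_le Z y) hf, g.2.1.mono _ _ (res_le Z y) hg⟩

open Classical in
/-- **the approximation system** -/
theorem exists_sys {l E H : ℕ} (hk : 0 < k) (hE : 3 ≤ E) (hH : 0 < H) (hl : 1 ≤ l)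
    (ep en : ℝ) (hep0 : 0 ≤ ep)
    (hep : ∀ f : AF k q m l E H, 2 * ((univ.filter (fun p => BadP l f.1 p)).card : ℝ) ≤ ep)
    (hen : ((H * (terms k q l).card * Fintype.card (Mt k q m) : ℕ) : ℝ) ≤ E * en) :
    ∃ S : Sys (Rw k q × Fin m) ((Fin k → Fin q) × (Fin m → Fin k)) (Mt k q m) px py ep en,
      ∀ a : S.A, ∃ f : AF k q m l E H, ∀ w, S.ev a w = true ↔ f.1 (cu w) := by
  have hE0 : 0 < E := by omega
  have hEr : (0 : ℝ) < E := Nat.cast_pos.2 hE0
  have key : ∀ n : ℕ, E * n ≤ H * (terms k q l).card * Fintype.card (Mt k q m) →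
      (n : ℝ) ≤ en := by
    intro n hn
    have h1 : ((E * n : ℕ) : ℝ) ≤ E * en := le_trans (Nat.cast_le.2 hn) hen
    rw [Nat.cast_mul] at h1
    exact le_of_mul_le_mul_left h1 hEr
  let S : Sys (Rw k q × Fin m) ((Fin k → Fin q) × (Fin m → Fin k)) (Mt k q m) px py ep en :=
    { A := AF k q m l E H
      ev := fun a w => decide (a.1 (cu w))
      var := fun e => ⟨fun x => x e.1 e.2 = true, loc_var hl e.1 e.2, closed_var hE e.1 e.2⟩
      top := ⟨fun _ => True, loc_const True, closed_const (by omega) True⟩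
      bot := ⟨fun _ => False, loc_const False, closed_const (by omega) False⟩
      ev_var := fun e x => by
        rw [Bool.eq_iff_iff]
        exact @decide_eq_true_iff _ (Classical.propDecidable _)
      ev_top := fun x => (@decide_eq_true_iff _ (Classical.propDecidable _)).2 trivial
      ev_bot := fun x => (@decide_eq_false_iff_not _ (Classical.propDecidable _)).2 fun h => h
      or := fun a b => (ex_or hk hE0 hH a b).choose
      and := fun a b => (ex_and hk hE0 hH a b).choose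
      or_pos := fun a b => by
        have hs := (ex_or hk hE0 hH a b).choose_spec.1
        have h0 : ({p : (Fin k → Fin q) × (Fin m → Fin k) |
            ((decide (a.1 (cu (px p))) || decide (b.1 (cu (px p)))) &&
            !(decide ((ex_or hk hE0 hH a b).choose.1 (cu (px p))))) = true} : Set _) = ∅ := by
          ext p
          simp only [Set.mem_ofPred_eq, Set.mem_empty_iff_false, iff_false, Bool.and_eq_true,
            Bool.or_eq_true, decide_eq_true_eq, Bool.not_eq_true', decide_eq_false_iff_not]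
          rintro ⟨h1, h2⟩
          exact h2 (hs _ h1)
        rw [h0, Set.ncard_empty]
        exact_mod_cast hep0
      or_neg := fun a b => by
        have hs := (ex_or hk hE0 hH a b).choose_spec.2
        have h0 : ({p : Mt k q m |
            (!(decide (a.1 (cu (py p))) || decide (b.1 (cu (py p)))) &&
            (decide ((ex_or hk hE0 hH a b).choose.1 (cu (py p))))) = true} : Set _) =
            ((univ.filter (fun c : Mt k q m => (ex_or hk hE0 hH a b).choose.1 c ∧
              ¬ (a.1 c ∨ b.1 c)) : Finset _) : Set _) := by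
          ext p
          simp only [Set.mem_ofPred_eq, coe_filter, mem_univ, true_and,
            Bool.and_eq_true, Bool.or_eq_false_iff, decide_eq_true_eq, Bool.not_eq_true',
            decide_eq_false_iff_not, not_or, cu_py]
          constructor
          · rintro ⟨h1, h2⟩
            exact ⟨h2, h1⟩
          · rintro ⟨h1, h2⟩
            exact ⟨h2, h1⟩
        rw [h0, Set.ncard_coe_finset]
        exact key _ hs
      and_pos := fun a b => by
        have hs := (ex_and hk hE0 hH a b).choose_spec.1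
        have h0 : ({p : (Fin k → Fin q) × (Fin m → Fin k) |
            ((decide (a.1 (cu (px p))) && decide (b.1 (cu (px p)))) &&
            !(decide ((ex_and hk hE0 hH a b).choose.1 (cu (px p))))) = true} : Set _) ⊆
            ((univ.filter (fun p => BadP l a.1 p) ∪ univ.filter (fun p => BadP l b.1 p) :
              Finset _) : Set _) := by
          intro p hp
          simp only [Set.mem_ofPred_eq, Bool.and_eq_true, decide_eq_true_eq, Bool.not_eq_true',
            decide_eq_false_iff_not, cu_px] at hp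
          rw [mem_coe, mem_union, mem_filter, mem_filter]
          rcases hs p hp.1.1 hp.1.2 hp.2 with h | h
          · exact Or.inl ⟨mem_univ _, h⟩
          · exact Or.inr ⟨mem_univ _, h⟩
        have h1 := Set.ncard_le_ncard h0 (Set.toFinite _)
        rw [Set.ncard_coe_finset] at h1
        have h2 := h1.trans (card_union_le _ _)
        have h3 := hep a
        have h4 := hep b
        have h5 := (Nat.cast_le (α := ℝ)).2 h2
        rw [Nat.cast_add] at h5
        exact h5.trans (by linarith)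
      and_neg := fun a b => by
        have hs := (ex_and hk hE0 hH a b).choose_spec.2
        have h0 : ({p : Mt k q m |
            (!(decide (a.1 (cu (py p))) && decide (b.1 (cu (py p)))) &&
            (decide ((ex_and hk hE0 hH a b).choose.1 (cu (py p))))) = true} : Set _) =
            ((univ.filter (fun c : Mt k q m => (ex_and hk hE0 hH a b).choose.1 c ∧
              ¬ (a.1 c ∧ b.1 c)) : Finset _) : Set _) := by
          ext p
          simp only [Set.mem_ofPred_eq, coe_filter, mem_univ, true_and,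
            Bool.and_eq_true, Bool.and_eq_false_iff, decide_eq_true_eq, Bool.not_eq_true',
            decide_eq_false_iff_not, cu_py]
          constructor
          · rintro ⟨h1, h2⟩
            exact ⟨h2, not_and_or.2 h1⟩
          · rintro ⟨h1, h2⟩
            exact ⟨not_and_or.1 h2, h1⟩
        rw [h0, Set.ncard_coe_finset]
        exact key _ hs }
  refine ⟨S, fun a => ⟨a, fun w => ?_⟩⟩
  exact decide_eq_true_iff

/-- the sum over the large sets -/
theorem sum_big {k j : ℕ} {t x : ℝ} (ht : 0 ≤ t) (ht1 : t ≤ 1) (hx : 0 ≤ x) (hxt : x ≤ t ^ 2)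
    (hk : k * t ≤ 1) :
    ∑ I ∈ (univ : Finset (Fin k)).powerset.filter (fun I => j ≤ I.card), x ^ I.card ≤
      t ^ j * Real.exp 1 := by
  have h1 : ∑ I ∈ (univ : Finset (Fin k)).powerset.filter (fun I => j ≤ I.card), x ^ I.card ≤
      ∑ I ∈ (univ : Finset (Fin k)).powerset.filter (fun I => j ≤ I.card),
        t ^ j * t ^ I.card := by
    refine sum_le_sum fun I hI => ?_
    have h2 := (mem_filter.1 hI).2
    calc x ^ I.card ≤ (t ^ 2) ^ I.card := pow_le_pow_left₀ hx hxt _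
      _ = t ^ I.card * t ^ I.card := by rw [← pow_mul, ← pow_add, two_mul]
      _ ≤ t ^ j * t ^ I.card :=
          mul_le_mul_of_nonneg_right (pow_le_pow_of_le_one ht ht1 h2) (pow_nonneg ht _)
  have h2 : ∑ I ∈ (univ : Finset (Fin k)).powerset.filter (fun I => j ≤ I.card),
      t ^ j * t ^ I.card ≤ t ^ j * ∑ I ∈ (univ : Finset (Fin k)).powerset, t ^ I.card := by
    rw [mul_sum]
    exact sum_le_sum_of_subset_of_nonneg (filter_subset _ _) fun _ _ _ => by positivity
  have h3 : ∑ I ∈ (univ : Finset (Fin k)).powerset, t ^ I.card = (t + 1) ^ k := by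
    have h4 := sum_pow_mul_eq_add_pow t 1 (univ : Finset (Fin k))
    rw [card_univ, Fintype.card_fin] at h4
    rw [← h4]
    refine sum_congr rfl fun I _ => ?_
    rw [one_pow, mul_one]
  have h5 : (t + 1) ^ k ≤ Real.exp 1 := by
    calc (t + 1) ^ k ≤ (Real.exp t) ^ k :=
          pow_le_pow_left₀ (by positivity) (Real.add_one_le_exp t) _
      _ = Real.exp (k * t) := (Real.exp_nat_mul t k).symm
      _ ≤ Real.exp 1 := Real.exp_le_exp.2 hk
  rw [h3] at h2
  exact h1.trans (h2.trans (mul_le_mul_of_nonneg_left h5 (pow_nonneg ht _)))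

theorem sum_two (k : ℕ) (p : Finset (Fin k) → Prop) [DecidablePred p] :
    ∑ I ∈ (univ : Finset (Fin k)).powerset.filter p, (2 : ℝ) ^ I.card ≤ 3 ^ k := by
  have h4 := sum_pow_mul_eq_add_pow (2 : ℝ) 1 (univ : Finset (Fin k))
  rw [card_univ, Fintype.card_fin] at h4
  have h5 : ((2 : ℝ) + 1) ^ k = 3 ^ k := by norm_num
  rw [← h5, ← h4]
  refine (sum_le_sum_of_subset_of_nonneg (filter_subset _ _) fun _ _ _ => by positivity).trans
    (le_of_eq (sum_congr rfl fun I _ => ?_))
  rw [one_pow, mul_one]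

/-- the numbers for the lost positive tests -/
theorem num_big {k g l r : ℕ} {x : ℝ} (hk2 : 2 ≤ k) (hk : k + 1 ≤ 2 ^ g)
    (hx0 : 0 ≤ x) (hx : x ≤ (((2 : ℝ) ^ g)⁻¹) ^ 2) (hr : r + 3 ≤ g * (l / 2 + 1)) :
    2 ^ r * (2 * ∑ I ∈ (univ : Finset (Fin k)).powerset.filter (fun I => l / 2 < I.card),
      ((2 : ℝ) ^ (2 * k + r + 2) * x ^ I.card + 2 ^ I.card)) ≤ 2 ^ (2 * k + r + 2) := by
  have h2g : (0 : ℝ) < 2 ^ g := by positivity
  set t : ℝ := ((2 : ℝ) ^ g)⁻¹ with ht
  have ht0 : 0 < t := inv_pos.2 h2g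
  have ht1 : t ≤ 1 := inv_le_one_of_one_le₀ (one_le_pow₀ (by norm_num))
  have hkt : k * t ≤ 1 := by
    rw [ht, ← div_eq_mul_inv, div_le_one h2g]
    have : ((k : ℕ) : ℝ) ≤ ((2 ^ g : ℕ) : ℝ) := Nat.cast_le.2 (by omega)
    rw [Nat.cast_pow, Nat.cast_ofNat] at this
    exact this
  have h1 := sum_big (k := k) (j := l / 2 + 1) ht0.le ht1 hx0 hx hkt
  have h2 := sum_two k (fun I => l / 2 < I.card)
  have h3 : (2 : ℝ) ^ (r + 3) * t ^ (l / 2 + 1) ≤ 1 := by
    rw [ht, inv_pow, ← pow_mul, ← div_eq_mul_inv, div_le_one (by positivity)]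
    exact pow_le_pow_right₀ (by norm_num) hr
  have h4 : Real.exp 1 ≤ 2.72 := by
    have := Real.exp_one_lt_d9
    linarith
  have h5 : (2 : ℝ) ^ (r + 1) * 3 ^ k ≤ 9 / 32 * 2 ^ (2 * k + r + 2) := by
    have h6 : (3 : ℝ) ^ k ≤ 9 / 16 * 4 ^ k := by
      obtain ⟨i, rfl⟩ := Nat.exists_eq_add_of_le hk2
      rw [pow_add, pow_add]
      have : (3 : ℝ) ^ i ≤ 4 ^ i := pow_le_pow_left₀ (by norm_num) (by norm_num) _
      linarith
    have h7 : (2 : ℝ) ^ (2 * k + r + 2) = 2 * 2 ^ (r + 1) * 4 ^ k := by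
      rw [show (4 : ℝ) = 2 ^ 2 by norm_num, ← pow_mul, mul_assoc, ← pow_add, ← pow_succ']
      congr 1
      ring
    rw [h7]
    have h8 : (0 : ℝ) < 2 ^ (r + 1) := by positivity
    nlinarith
  have h6 : ∑ I ∈ (univ : Finset (Fin k)).powerset.filter (fun I => l / 2 < I.card),
      ((2 : ℝ) ^ (2 * k + r + 2) * x ^ I.card + 2 ^ I.card) ≤
      2 ^ (2 * k + r + 2) * (t ^ (l / 2 + 1) * Real.exp 1) + 3 ^ k := by
    rw [sum_add_distrib, ← mul_sum]
    refine add_le_add (mul_le_mul_of_nonneg_left ?_ (by positivity)) h2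
    exact h1
  have h7 : 2 ^ r * (2 * (2 ^ (2 * k + r + 2) * (t ^ (l / 2 + 1) * Real.exp 1) + 3 ^ k)) =
      2 ^ (2 * k + r + 2) * (((2 : ℝ) ^ (r + 3) * t ^ (l / 2 + 1)) * (Real.exp 1 / 4)) +
        2 ^ (r + 1) * 3 ^ k := by
    rw [pow_add 2 r 3, pow_succ 2 r]
    ring
  calc _ ≤ 2 ^ r * (2 * (2 ^ (2 * k + r + 2) * (t ^ (l / 2 + 1) * Real.exp 1) + 3 ^ k)) := by
        refine mul_le_mul_of_nonneg_left (mul_le_mul_of_nonneg_left h6 (by norm_num))
          (by positivity)
    _ = _ := h7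
    _ ≤ 2 ^ (2 * k + r + 2) * (1 * (2.72 / 4)) + 9 / 32 * 2 ^ (2 * k + r + 2) := by
        refine add_le_add (mul_le_mul_of_nonneg_left ?_ (by positivity)) h5
        exact mul_le_mul h3 (by linarith) (by positivity) (by norm_num)
    _ ≤ 2 ^ (2 * k + r + 2) := by
        have : (0 : ℝ) < 2 ^ (2 * k + r + 2) := by positivity
        linarith

/-- the numbers for the accepted positive tests -/
theorem num_dom {k g : ℕ} {x : ℝ} (hg : 1 ≤ g) (hk : k + 1 ≤ 2 ^ g)
    (hx0 : 0 ≤ x) (hx : x ≤ (((2 : ℝ) ^ g)⁻¹) ^ 2) : (1 + x) ^ k - 1 ≤ 1 := by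
  have h2g : (0 : ℝ) < 2 ^ g := by positivity
  set t : ℝ := ((2 : ℝ) ^ g)⁻¹ with ht
  have ht0 : 0 < t := inv_pos.2 h2g
  have ht1 : t ≤ 1 / 2 := by
    rw [ht, one_div]
    refine inv_anti₀ (by norm_num) ?_
    calc (2 : ℝ) = 2 ^ 1 := (pow_one _).symm
      _ ≤ 2 ^ g := pow_le_pow_right₀ (by norm_num) hg
  have hkt : k * t ≤ 1 := by
    rw [ht, ← div_eq_mul_inv, div_le_one h2g]
    have : ((k : ℕ) : ℝ) ≤ ((2 ^ g : ℕ) : ℝ) := Nat.cast_le.2 (by omega)
    rw [Nat.cast_pow, Nat.cast_ofNat] at this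
    exact this
  have h1 : (1 + x) ^ k ≤ Real.exp (1 / 2) := by
    calc (1 + x) ^ k ≤ (Real.exp x) ^ k := by
          refine pow_le_pow_left₀ (by positivity) ?_ _
          rw [add_comm]
          exact Real.add_one_le_exp x
      _ = Real.exp (k * x) := (Real.exp_nat_mul x k).symm
      _ ≤ Real.exp (1 / 2) := by
          refine Real.exp_le_exp.2 ?_
          calc k * x ≤ k * t ^ 2 := mul_le_mul_of_nonneg_left hx (Nat.cast_nonneg _)
            _ = (k * t) * t := by ring
            _ ≤ 1 * (1 / 2) := mul_le_mul hkt ht1 ht0.le (by norm_num)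
            _ = 1 / 2 := by norm_num
  have h2 : Real.exp (1 / 2) ≤ 2 := by
    have h3 : Real.exp (1 / 2) ^ 2 = Real.exp 1 := by
      rw [← Real.exp_nat_mul]
      norm_num
    have h4 := Real.exp_one_lt_d9
    have h5 := Real.exp_pos (1 / 2)
    nlinarith
  linarith

open Classical in
theorem good_sys {k g l r m : ℕ} (hl : 1 ≤ l) (h2l : 2 * l ≤ k) (hg : 1 ≤ g)
    (hk : k + 1 ≤ 2 ^ g) (hB : 4 * l * (2 * r + 2 * k + 2 + 4 * g * l) + 1 ≤ 2 ^ g)
    (hr : r + 3 ≤ g * (l / 2 + 1)) : GoodSys k (2 ^ (3 * g)) m r := by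
  set q := 2 ^ (3 * g) with hq
  set e := 2 * r + 2 * k + 2 + 4 * g * l with he
  have hq0 : 0 < q := by rw [hq]; positivity
  have hk2 : 2 ≤ k := by omega
  have hqR : (q : ℝ) = 2 ^ g * 2 ^ g * 2 ^ g := by
    rw [hq, Nat.cast_pow, Nat.cast_ofNat, ← pow_add, ← pow_add]
    congr 1
    ring
  have h2g : (0 : ℝ) < 2 ^ g := by positivity
  -- the ratio
  have hBR : 2 * (l : ℝ) * ((2 * e : ℕ) : ℝ) + 1 ≤ 2 ^ g := by
    have h1 := (Nat.cast_le (α := ℝ)).2 hB
    rw [Nat.cast_pow, Nat.cast_ofNat] at h1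
    refine le_trans (le_of_eq ?_) h1
    push_cast
    ring
  have hrat : ∀ y : ℝ, y ≤ 2 ^ g → y / q ≤ (((2 : ℝ) ^ g)⁻¹) ^ 2 := by
    intro y hy
    rw [div_le_iff₀ (by rw [hqR]; positivity), hqR]
    calc y ≤ 2 ^ g := hy
      _ = (((2 : ℝ) ^ g)⁻¹) ^ 2 * (2 ^ g * 2 ^ g * 2 ^ g) := by
          field_simp
  have hM : 1 ≤ 2 * e := by omega
  have hE : (((2 ^ e : ℕ) : ℕ) : ℝ) ≤ Real.exp (((2 * e : ℕ) : ℝ) / 2) := by
    have h1 : (((2 * e : ℕ) : ℝ) / 2) = e * 1 := by
      push_cast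
      ring
    rw [h1, Real.exp_nat_mul, Nat.cast_pow, Nat.cast_ofNat]
    refine pow_le_pow_left₀ (by norm_num) ?_ _
    have := Real.add_one_le_exp (1 : ℝ)
    linarith
  have hE3 : 3 ≤ 2 ^ e := by
    have : 2 ^ 2 ≤ 2 ^ e := Nat.pow_le_pow_right (by norm_num) (by omega)
    omega
  have hH : 0 < 2 ^ (2 * k + r + 2) := by positivity
  set cP : ℝ := (Fintype.card ((Fin k → Fin q) × (Fin m → Fin k)) : ℝ) with hcP
  set cN : ℝ := (Fintype.card (Mt k q m) : ℝ) with hcN
  have hcP' : cP = (q : ℝ) ^ k * (Fintype.card (Fin m → Fin k) : ℝ) := by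
    rw [hcP, Fintype.card_prod, Fintype.card_fun, Fintype.card_fin, Fintype.card_fin]
    push_cast
    rfl
  have hcP0 : 0 ≤ cP := Nat.cast_nonneg _
  have hcN0 : 0 ≤ cN := Nat.cast_nonneg _
  have h2r : (0 : ℝ) < 2 ^ r := by positivity
  have hHR : ((2 ^ (2 * k + r + 2) : ℕ) : ℝ) = 2 ^ (2 * k + r + 2) := by
    rw [Nat.cast_pow, Nat.cast_ofNat]
  have hHR0 : (0 : ℝ) < 2 ^ (2 * k + r + 2) := by positivity
  -- lost positive tests
  have hbad : ∀ f : AF k q m l (2 ^ e) (2 ^ (2 * k + r + 2)),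
      2 * ((univ.filter (fun p => BadP l f.1 p)).card : ℝ) ≤ cP / 2 ^ r := by
    intro f
    have h1 := pos_big hq0 hM hE f.2.1 f.2.2 h2l
    have h2 : ((univ.filter (fun p => BadP l f.1 p)).card : ℝ) =
        ((univ.filter (fun p : (Fin k → Fin q) × (Fin m → Fin k) =>
        f.1 (pt p) ∧ ∀ Z, Z ⊆ gr p.1 → 2 * Z.card ≤ l → ¬ f.1 (pat Z p.2))).card : ℝ) := by
      unfold BadP
      congr!
    rw [← h2, ← hcP', hHR] at h1
    have h3 := num_big (l := l) (r := r) hk2 hk
      (x := (2 * l * ((2 * e : ℕ) : ℝ)) / q) (by positivity)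
      (hrat _ (by linarith)) hr
    rw [le_div_iff₀ h2r]
    refine le_of_mul_le_mul_left ?_ hHR0
    calc (2 : ℝ) ^ (2 * k + r + 2) *
          (2 * ((univ.filter (fun p => BadP l f.1 p)).card : ℝ) * 2 ^ r)
        = 2 ^ r * 2 * (2 ^ (2 * k + r + 2) *
            ((univ.filter (fun p => BadP l f.1 p)).card : ℝ)) := by ring
      _ ≤ 2 ^ r * 2 * (cP * ∑ I ∈ (univ : Finset (Fin k)).powerset.filter
            (fun I => l / 2 < I.card), ((2 : ℝ) ^ (2 * k + r + 2) *
              ((2 * l * ((2 * e : ℕ) : ℝ)) / q) ^ I.card + 2 ^ I.card)) :=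
          mul_le_mul_of_nonneg_left h1 (by positivity)
      _ = cP * (2 ^ r * (2 * ∑ I ∈ (univ : Finset (Fin k)).powerset.filter
            (fun I => l / 2 < I.card), ((2 : ℝ) ^ (2 * k + r + 2) *
              ((2 * l * ((2 * e : ℕ) : ℝ)) / q) ^ I.card + 2 ^ I.card))) := by ring
      _ ≤ cP * 2 ^ (2 * k + r + 2) := mul_le_mul_of_nonneg_left h3 hcP0
      _ = 2 ^ (2 * k + r + 2) * cP := mul_comm _ _
  -- gained negative tests
  have hgain : ((2 ^ (2 * k + r + 2) * (terms k q l).card * Fintype.card (Mt k q m) : ℕ) : ℝ) ≤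
      ((2 ^ e : ℕ) : ℝ) * (cN / 2 ^ r) := by
    have h1 : (terms k q l).card ≤ 2 ^ (4 * g * l) := by
      refine (card_terms _ _ _).trans ?_
      have h3 : k * q + 1 ≤ 2 ^ (4 * g) := by
        calc k * q + 1 ≤ k * q + q := Nat.add_le_add_left hq0 _
          _ = (k + 1) * q := by ring
          _ ≤ 2 ^ g * 2 ^ (3 * g) := Nat.mul_le_mul_right _ hk
          _ = 2 ^ (4 * g) := by
              rw [← pow_add]
              congr 1
              omega
      calc (k * q + 1) ^ l ≤ (2 ^ (4 * g)) ^ l := Nat.pow_le_pow_left h3 l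
        _ = 2 ^ (4 * g * l) := by rw [← pow_mul]
    have h2 : 2 ^ (2 * k + r + 2) * (terms k q l).card * 2 ^ r ≤ 2 ^ e := by
      calc 2 ^ (2 * k + r + 2) * (terms k q l).card * 2 ^ r
          ≤ 2 ^ (2 * k + r + 2) * 2 ^ (4 * g * l) * 2 ^ r := by gcongr
        _ = 2 ^ e := by
            rw [← pow_add, ← pow_add]
            congr 1
            omega
    have h3 := (Nat.cast_le (α := ℝ)).2 h2
    rw [← mul_div_assoc, le_div_iff₀ h2r]
    push_cast at h3 ⊢
    calc _ = ((2 : ℝ) ^ (2 * k + r + 2) * ((terms k q l).card : ℝ) * 2 ^ r) * cN := by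
          rw [hcN]
          ring
      _ ≤ _ := mul_le_mul_of_nonneg_right h3 hcN0
  obtain ⟨S, hS⟩ := exists_sys (q := q) (m := m) (by omega : 0 < k) hE3 hH hl (cP / 2 ^ r)
    (cN / 2 ^ r) (by positivity) hbad hgain
  refine ⟨_, _, S, (mul_div_cancel₀ _ h2r.ne').le, (mul_div_cancel₀ _ h2r.ne').le, ?_⟩
  intro a
  obtain ⟨f, hf⟩ := hS a
  by_cases h0 : f.1 (fun _ _ => false)
  · left
    intro w
    rw [hf w]
    exact f.2.1.mono _ _ (fun _ _ h => absurd h (by simp)) h0
  right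
  have h1 := pos_dom hq0 hM hE f.2.1 f.2.2 h2l h0
  have e1 : (({p | S.ev a (px p) = true} :
      Set ((Fin k → Fin q) × (Fin m → Fin k))).ncard : ℝ) =
      ((univ.filter (fun p : (Fin k → Fin q) × (Fin m → Fin k) => f.1 (pt p))).card : ℝ) := by
    rw [← Set.ncard_coe_finset]
    congr 2
    ext p
    simp only [Set.mem_ofPred_eq, coe_filter, mem_univ, true_and]
    rw [hf, cu_px]
  have e2 : (({p | S.ev a (py p) = true} : Set (Mt k q m)).ncard : ℝ) =
      ((univ.filter (fun y : Mt k q m => f.1 y)).card : ℝ) := by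
    rw [← Set.ncard_coe_finset]
    congr 2
    ext p
    simp only [Set.mem_ofPred_eq, coe_filter, mem_univ, true_and]
    rw [hf, cu_py]
  rw [e1, e2]
  rw [← hcP', hHR] at h1
  set nP : ℝ := ((univ.filter (fun p : (Fin k → Fin q) × (Fin m → Fin k) =>
    f.1 (pt p))).card : ℝ) with hnP
  set nN : ℝ := ((univ.filter (fun y : Mt k q m => f.1 y)).card : ℝ) with hnN
  have hnN0 : 0 ≤ nN := Nat.cast_nonneg _
  have h3 := num_dom (x := (1 + 2 * l * ((2 * e : ℕ) : ℝ)) / q) hg hk (by positivity)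
    (hrat _ (by linarith))
  have h4 : (2 : ℝ) ^ r * 3 ^ k ≤ 2 ^ (2 * k + r + 2) := by
    have h6 : (3 : ℝ) ^ k ≤ 4 ^ k := pow_le_pow_left₀ (by norm_num) (by norm_num) _
    have h7 : (2 : ℝ) ^ (2 * k + r + 2) = 4 * (2 ^ r * 4 ^ k) := by
      rw [show (4 : ℝ) = 2 ^ 2 by norm_num, ← pow_mul, ← pow_add, ← pow_add]
      congr 1
      ring
    rw [h7]
    have h8 : (2 : ℝ) ^ r * 3 ^ k ≤ 2 ^ r * 4 ^ k := mul_le_mul_of_nonneg_left h6 h2r.le
    have h9 : (0 : ℝ) < 2 ^ r * 4 ^ k := by positivity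
    linarith
  refine le_of_mul_le_mul_left ?_ hHR0
  calc (2 : ℝ) ^ (2 * k + r + 2) * (2 ^ r * (nP * cN))
      = 2 ^ r * (2 ^ (2 * k + r + 2) * nP * cN) := by ring
    _ ≤ 2 ^ r * (cP * (2 ^ (2 * k + r + 2) *
          (((1 + (1 + 2 * l * ((2 * e : ℕ) : ℝ)) / q) ^ k - 1) * nN) + 3 ^ k * cN)) :=
        mul_le_mul_of_nonneg_left h1 h2r.le
    _ ≤ 2 ^ r * (cP * (2 ^ (2 * k + r + 2) * (1 * nN) + 3 ^ k * cN)) := by
        gcongr
    _ = 2 ^ (2 * k + r + 2) * (2 ^ r * (nN * cP)) + (2 ^ r * 3 ^ k) * (cP * cN) := by ring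
    _ ≤ 2 ^ (2 * k + r + 2) * (2 ^ r * (nN * cP)) + 2 ^ (2 * k + r + 2) * (cP * cN) := by
        gcongr
    _ = 2 ^ (2 * k + r + 2) * (2 ^ r * (nN * cP) + cP * cN) := by ring

end Pool.Agent.DG
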