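import Pool.Agent.Lib.MP_66cd2e_lc.DN.Stmt
import Pool.Agent.Lib.MP_66cd2e_lc.DG.Def

/-!
The tournament: the rows `A`, the columns `B`, one more vertex which dominates all vertices
except the columns; the columns dominate it.
-/

set_option autoImplicit false

namespace Pool.Agent.DG

open Finset Pool.Agent.DN Pool.Agent.Lib.MP_66cd2e_lc

/-- the arcs of the tournament on the columns -/
def arcB {m : ℕ} (tb : Fin m → Fin m → Bool) (b b' : Fin m) : Prop :=
  (b < b' ∧ tb b b' = true) ∨ (b' < b ∧ tb b' b = false)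

/-- a tournament from an asymmetric relation; the other arcs follow the order -/
def tieT {n : ℕ} (f : Fin n → Fin n → Prop) (hf : ∀ u v, f u v → ¬ f v u) :
    Tournament (Fin n) where
  arc u v := f u v ∨ (¬ f v u ∧ u < v)
  irrefl v h := by
    rcases h with h | h
    · exact hf v v h h
    · exact lt_irrefl _ h.2
  exactlyOne u v huv := by
    constructor
    · rintro (h | ⟨h, h'⟩) (g | ⟨g, g'⟩)
      · exact hf u v h g
      · exact g h
      · exact h g
      · exact lt_asymm h' g'
    · intro h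
      by_cases h1 : f u v
      · exact Or.inl h1
      · by_cases h2 : f v u
        · exact absurd (Or.inl h2) h
        · refine Or.inr ⟨h2, ?_⟩
          rcases lt_or_gt_of_ne huv with h3 | h3
          · exact h3
          · exact absurd (Or.inr ⟨h1, h3⟩) h

/-- the special vertices: rows, columns, one more vertex -/
inductive VT (L k q m : ℕ) : Type
  | a (x : Fin L × Rw k q) : VT L k q m
  | b (y : Fin m) : VT L k q m
  | c : VT L k q m

variable {L k q m n : ℕ}

/-- the special vertices as elements of a sum -/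
def VT.toSum : VT L k q m → (Fin L × Rw k q) ⊕ Fin m ⊕ Unit
  | .a x => .inl x
  | .b y => .inr (.inl y)
  | .c => .inr (.inr ())

theorem VT.toSum_inj : Function.Injective (VT.toSum : VT L k q m → _) := by
  intro x y h
  cases x <;> cases y <;> simp_all [VT.toSum]

theorem exists_embT (h : L * (k * q) + m + 1 ≤ n) :
    ∃ ι : VT L k q m → Fin n, Function.Injective ι := by
  have hc : Fintype.card ((Fin L × Rw k q) ⊕ Fin m ⊕ Unit) ≤ Fintype.card (Fin n) := by
    simp only [Fintype.card_sum, Fintype.card_prod, Fintype.card_fin, Fintype.card_unit]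
    calc L * (k * q) + (m + 1) = L * (k * q) + m + 1 := by ring
      _ ≤ n := h
  obtain ⟨f⟩ := Function.Embedding.nonempty_of_card_le hc
  exact ⟨f ∘ VT.toSum, f.injective.comp VT.toSum_inj⟩

/-- the prescribed arcs; `none` stands for the other vertices -/
def prT (tb : Fin m → Fin m → Bool) (X : Fin L × Rw k q → Fin m → Prop) :
    Option (VT L k q m) → Option (VT L k q m) → Prop
  | some .c, some (.a _) => True
  | some .c, none => True
  | some (.b _), some .c => True
  | some (.b _), none => True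
  | some (.a x), some (.b y) => X x y
  | some (.b y), some (.a x) => ¬ X x y
  | some (.b y), some (.b y') => arcB tb y y'
  | _, _ => False

theorem arcB_asymm {tb : Fin m → Fin m → Bool} {b b' : Fin m} (h : arcB tb b b') :
    ¬ arcB tb b' b := by
  rintro (⟨h1, h2⟩ | ⟨h1, h2⟩)
  · rcases h with ⟨h3, h4⟩ | ⟨h3, h4⟩
    · exact lt_asymm h1 h3
    · rw [h4] at h2
      exact absurd h2 (by decide)
  · rcases h with ⟨h3, h4⟩ | ⟨h3, h4⟩
    · rw [h4] at h2
      exact absurd h2 (by decide)
    · exact lt_asymm h1 h3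

theorem arcB_total {tb : Fin m → Fin m → Bool} {b b' : Fin m} (hb : b ≠ b')
    (h : ¬ arcB tb b b') : arcB tb b' b := by
  rcases lt_or_gt_of_ne hb with h1 | h1
  · refine Or.inr ⟨h1, ?_⟩
    by_contra h2
    exact h (Or.inl ⟨h1, by simpa using h2⟩)
  · refine Or.inl ⟨h1, ?_⟩
    by_contra h2
    exact h (Or.inr ⟨h1, by simpa using h2⟩)

theorem prT_asymm (tb : Fin m → Fin m → Bool) (X : Fin L × Rw k q → Fin m → Prop)
    (x y : Option (VT L k q m)) (h : prT tb X x y) : ¬ prT tb X y x := by
  rcases x with _ | (x | y' | _) <;> rcases y with _ | (x' | y'' | _) <;>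
    simp only [prT, not_false_eq_true, not_not] at h ⊢ <;>
    first
      | exact h
      | exact not_not.2 h
      | skip
  exact arcB_asymm h

open Classical in
/-- the kind of a vertex -/
noncomputable def kdT (ι : VT L k q m → Fin n) (u : Fin n) : Option (VT L k q m) :=
  if h : ∃ v, ι v = u then some h.choose else none

theorem kdT_apply {ι : VT L k q m → Fin n} (hι : Function.Injective ι)
    (v : VT L k q m) : kdT ι (ι v) = some v := by
  have h : ∃ v', ι v' = ι v := ⟨v, rfl⟩
  unfold kdT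
  rw [dif_pos h]
  exact congrArg some (hι h.choose_spec)

theorem kdT_cases (ι : VT L k q m → Fin n) (u : Fin n) :
    (kdT ι u = none ∧ ∀ v, ι v ≠ u) ∨ ∃ v, ι v = u := by
  by_cases h : ∃ v, ι v = u
  · exact Or.inr h
  · left
    constructor
    · unfold kdT
      rw [dif_neg h]
    · intro v hv
      exact h ⟨v, hv⟩

/-- the tournament -/
noncomputable def TT (tb : Fin m → Fin m → Bool) (X : Fin L × Rw k q → Fin m → Prop)
    (ι : VT L k q m → Fin n) : Tournament (Fin n) :=
  tieT (fun u v => prT tb X (kdT ι u) (kdT ι v)) (fun _ _ h => prT_asymm tb X _ _ h)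

theorem TT_arc (tb : Fin m → Fin m → Bool) (X : Fin L × Rw k q → Fin m → Prop)
    (ι : VT L k q m → Fin n) {u v : Fin n} (h : prT tb X (kdT ι u) (kdT ι v)) :
    (TT tb X ι).arc u v := Or.inl h

theorem TT_not_arc (tb : Fin m → Fin m → Bool) (X : Fin L × Rw k q → Fin m → Prop)
    (ι : VT L k q m → Fin n) {u v : Fin n} (h : prT tb X (kdT ι v) (kdT ι u)) :
    ¬ (TT tb X ι).arc u v := by
  rintro (h1 | ⟨h1, _⟩)
  · exact prT_asymm tb X _ _ h h1
  · exact h1 h

theorem dom_le {T : Tournament (Fin n)} {S : Finset (Fin n)} (hS : IsDominating T S) :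
    domNumber T ≤ S.card := Nat.sInf_le ⟨S, hS, rfl⟩

theorem exists_dom (T : Tournament (Fin n)) : ∃ S, IsDominating T S ∧ S.card = domNumber T := by
  have h : domNumber T ∈ {m : ℕ | ∃ S : Finset (Fin n), IsDominating T S ∧ S.card = m} :=
    Nat.sInf_mem ⟨_, Finset.univ, fun w hw => absurd (Finset.mem_univ w) hw, rfl⟩
  exact h

theorem tour {L k q m n : ℕ} (hn : L * (k * q) + m + 1 ≤ n) (tb : Fin m → Fin m → Bool) :
    ∃ (T0 : Tournament (Fin n)) (A B : Finset (Fin n))
      (ea : Fin L × Rw k q ≃ {x // x ∈ A}) (eb : Fin m ≃ {x // x ∈ B}), Disjoint A B ∧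
      (∀ X : Fin L × Rw k q → Fin m → Prop, ∃ T, SameOff T0 T A B ∧
        ∀ a b, T.arc (ea a).1 (eb b).1 ↔ X a b) ∧
      (∀ S T, SameOff T0 S A B → SameOff T0 T A B →
        (∀ a ∈ A, ∀ b ∈ B, S.arc a b → T.arc a b) → domNumber T ≤ domNumber S + 1) ∧
      (∀ T, SameOff T0 T A B → ∀ (l : Fin L) (s : Fin k → Fin q),
        (∀ b, ∃ i, T.arc (ea (l, (i, s i))).1 (eb b).1) → domNumber T ≤ k + 1) ∧
      (∀ (T) (Λ : ℕ), SameOff T0 T A B →
        (∀ (SA : Finset (Fin L × Rw k q)) (SB : Finset (Fin m)), SA.card + SB.card ≤ Λ →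
          ∃ b, b ∉ SB ∧ (∀ a ∈ SA, ¬ T.arc (ea a).1 (eb b).1) ∧ ∀ b' ∈ SB, ¬ arcB tb b' b) →
        Λ < domNumber T) := by
  classical
  obtain ⟨ι, hι⟩ := exists_embT (L := L) (k := k) (q := q) (m := m) hn
  have hia : Function.Injective (fun x : Fin L × Rw k q => ι (.a x)) := by
    intro x y hxy
    have h1 : (VT.a x : VT L k q m) = VT.a y := hι hxy
    injection h1
  have hib : Function.Injective (fun y : Fin m => ι (.b y)) := by
    intro x y hxy
    have h1 : (VT.b x : VT L k q m) = VT.b y := hι hxy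
    injection h1
  set A : Finset (Fin n) := univ.image (fun x : Fin L × Rw k q => ι (.a x)) with hA
  set B : Finset (Fin n) := univ.image (fun y : Fin m => ι (.b y)) with hB
  have hmA : ∀ u, u ∈ A ↔ ∃ x, ι (.a x) = u := fun u => by simp [hA]
  have hmB : ∀ u, u ∈ B ↔ ∃ y, ι (.b y) = u := fun u => by simp [hB]
  let ea : Fin L × Rw k q ≃ {x // x ∈ A} := Equiv.ofBijective
    (fun x => ⟨ι (.a x), (hmA _).2 ⟨x, rfl⟩⟩) ⟨fun x y hxy => hia (congrArg Subtype.val hxy),
      fun u => by
        obtain ⟨x, hx⟩ := (hmA _).1 u.2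
        exact ⟨x, Subtype.ext hx⟩⟩
  let eb : Fin m ≃ {x // x ∈ B} := Equiv.ofBijective
    (fun y => ⟨ι (.b y), (hmB _).2 ⟨y, rfl⟩⟩) ⟨fun x y hxy => hib (congrArg Subtype.val hxy),
      fun u => by
        obtain ⟨x, hx⟩ := (hmB _).1 u.2
        exact ⟨x, Subtype.ext hx⟩⟩
  have hea : ∀ x, (ea x).1 = ι (.a x) := fun x => rfl
  have heb : ∀ y, (eb y).1 = ι (.b y) := fun y => rfl
  have hdis : Disjoint A B := by
    rw [Finset.disjoint_left]
    intro u hu hu'
    obtain ⟨x, rfl⟩ := (hmA _).1 hu
    obtain ⟨y, hy⟩ := (hmB _).1 hu'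
    exact absurd (hι hy) (by simp)
  have hcA : ι .c ∉ A := by
    intro h
    obtain ⟨x, hx⟩ := (hmA _).1 h
    exact absurd (hι hx) (by simp)
  have hcB : ι .c ∉ B := by
    intro h
    obtain ⟨x, hx⟩ := (hmB _).1 h
    exact absurd (hι hx) (by simp)
  set T0 : Tournament (Fin n) := TT tb (fun _ _ => False) ι with hT0
  -- the extra vertex dominates all vertices except the columns
  have hc : ∀ T, SameOff T0 T A B → ∀ w, w ∉ B → w ≠ ι .c → T.arc (ι .c) w := by
    intro T hT w hw hwc
    rw [hT _ _ (fun h => hcA h.1) (fun h => hcB h.1)]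
    apply TT_arc
    rw [kdT_apply hι]
    rcases kdT_cases ι w with ⟨h1, -⟩ | ⟨v, rfl⟩
    · rw [h1]
      exact trivial
    · rw [kdT_apply hι]
      cases v with
      | a x => exact trivial
      | b y => exact absurd ((hmB _).2 ⟨y, rfl⟩) hw
      | c => exact absurd rfl hwc
  refine ⟨T0, A, B, ea, eb, hdis, ?_, ?_, ?_, ?_⟩
  · intro X
    refine ⟨TT tb X ι, ?_, ?_⟩
    · intro u v h1 h2
      have key : ∀ u v : Fin n, ¬ (u ∈ A ∧ v ∈ B) → ¬ (u ∈ B ∧ v ∈ A) →
          (prT tb X (kdT ι u) (kdT ι v) ↔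
            prT tb (fun (_ : Fin L × Rw k q) (_ : Fin m) => False) (kdT ι u) (kdT ι v)) := by
        intro u v h1 h2
        rcases kdT_cases ι u with ⟨hu, -⟩ | ⟨x, rfl⟩ <;>
          rcases kdT_cases ι v with ⟨hv, -⟩ | ⟨y, rfl⟩
        · rw [hu, hv]
          exact Iff.rfl
        · rw [hu, kdT_apply hι]
          cases y <;> exact Iff.rfl
        · rw [hv, kdT_apply hι]
          cases x <;> exact Iff.rfl
        · rw [kdT_apply hι, kdT_apply hι]
          cases x with
          | a x =>
            cases y with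
            | a y => exact Iff.rfl
            | b y => exact absurd ⟨(hmA _).2 ⟨x, rfl⟩, (hmB _).2 ⟨y, rfl⟩⟩ h1
            | c => exact Iff.rfl
          | b x =>
            cases y with
            | a y => exact absurd ⟨(hmB _).2 ⟨x, rfl⟩, (hmA _).2 ⟨y, rfl⟩⟩ h2
            | b y => exact Iff.rfl
            | c => exact Iff.rfl
          | c => cases y <;> exact Iff.rfl
      change (prT tb X (kdT ι u) (kdT ι v) ∨ (¬ prT tb X (kdT ι v) (kdT ι u) ∧ u < v)) ↔
        (prT tb (fun (_ : Fin L × Rw k q) (_ : Fin m) => False) (kdT ι u) (kdT ι v) ∨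
        (¬ prT tb (fun (_ : Fin L × Rw k q) (_ : Fin m) => False) (kdT ι v) (kdT ι u) ∧ u < v))
      rw [key u v h1 h2, key v u (fun h => h2 ⟨h.2, h.1⟩) (fun h => h1 ⟨h.2, h.1⟩)]
    · intro a b
      rw [hea, heb]
      constructor
      · intro h
        by_contra hX
        refine TT_not_arc tb X ι ?_ h
        rw [kdT_apply hι, kdT_apply hι]
        exact hX
      · intro h
        apply TT_arc
        rw [kdT_apply hι, kdT_apply hι]
        exact h
  · intro S T hS hT h
    obtain ⟨D, hD, hDc⟩ := exists_dom S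
    rw [← hDc]
    refine (dom_le (S := insert (ι .c) D) ?_).trans (card_insert_le _ _)
    intro w hw
    rw [mem_insert, not_or] at hw
    by_cases hwB : w ∈ B
    · obtain ⟨v, hv, hvw⟩ := hD w hw.2
      refine ⟨v, mem_insert_of_mem hv, ?_⟩
      by_cases hvA : v ∈ A
      · exact h v hvA w hwB hvw
      · have h1 : ¬ (v ∈ A ∧ w ∈ B) := fun h => hvA h.1
        have h2 : ¬ (v ∈ B ∧ w ∈ A) := fun h => Finset.disjoint_left.1 hdis h.2 hwB
        rw [hT _ _ h1 h2]
        exact (hS _ _ h1 h2).1 hvw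
    · exact ⟨ι .c, mem_insert_self _ _, hc T hT w hwB hw.1⟩
  · intro T hT l s h
    have hcard : (insert (ι .c) (univ.image (fun i : Fin k => ι (.a (l, (i, s i)))))).card ≤
        k + 1 := by
      refine (card_insert_le _ _).trans ?_
      have := card_image_le (s := (univ : Finset (Fin k)))
        (f := fun i : Fin k => ι (.a (l, (i, s i))))
      rw [card_univ, Fintype.card_fin] at this
      omega
    refine (dom_le ?_).trans hcard
    intro w hw
    rw [mem_insert, not_or] at hw
    by_cases hwB : w ∈ B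
    · obtain ⟨y, rfl⟩ := (hmB _).1 hwB
      obtain ⟨i, hi⟩ := h y
      exact ⟨_, mem_insert_of_mem (mem_image_of_mem _ (mem_univ i)), hi⟩
    · exact ⟨ι .c, mem_insert_self _ _, hc T hT w hwB hw.1⟩
  · intro T Λ hT h
    by_contra hlt
    rw [not_lt] at hlt
    obtain ⟨D, hD, hDc⟩ := exists_dom T
    set SA : Finset (Fin L × Rw k q) := univ.filter (fun x => ι (.a x) ∈ D) with hSA
    set SB : Finset (Fin m) := univ.filter (fun y => ι (.b y) ∈ D) with hSB
    have hcard : SA.card + SB.card ≤ Λ := by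
      refine le_trans ?_ hlt
      rw [← hDc, ← card_image_of_injective SA hia, ← card_image_of_injective SB hib,
        ← card_union_of_disjoint]
      · apply card_le_card
        intro u hu
        rcases mem_union.1 hu with h1 | h1
        · obtain ⟨x, hx, rfl⟩ := mem_image.1 h1
          exact (mem_filter.1 hx).2
        · obtain ⟨x, hx, rfl⟩ := mem_image.1 h1
          exact (mem_filter.1 hx).2
      · rw [Finset.disjoint_left]
        intro u h1 h2
        obtain ⟨x, hx, rfl⟩ := mem_image.1 h1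
        obtain ⟨y, hy, hxy⟩ := mem_image.1 h2
        exact absurd (hι hxy) (by simp)
    obtain ⟨b, hb, h1, h2⟩ := h SA SB hcard
    have hbD : ι (.b b) ∉ D := fun h => hb (mem_filter.2 ⟨mem_univ _, h⟩)
    obtain ⟨v, hv, hvb⟩ := hD _ hbD
    rcases kdT_cases ι v with ⟨h3, h4⟩ | ⟨w, rfl⟩
    · have hvA : v ∉ A := fun h => by
        obtain ⟨x, hx⟩ := (hmA _).1 h
        exact h4 _ hx
      have hvB : v ∉ B := fun h => by
        obtain ⟨x, hx⟩ := (hmB _).1 h
        exact h4 _ hx
      rw [hT _ _ (fun h => hvA h.1) (fun h => hvB h.1)] at hvb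
      refine TT_not_arc tb _ ι ?_ hvb
      rw [h3, kdT_apply hι]
      exact trivial
    · cases w with
      | a x => exact h1 x (mem_filter.2 ⟨mem_univ _, hv⟩) hvb
      | b y =>
        have hyb : y ≠ b := by
          rintro rfl
          exact hbD hv
        have hyA : ι (.b y) ∉ A := fun h =>
          Finset.disjoint_left.1 hdis h ((hmB _).2 ⟨y, rfl⟩)
        have hbA : ι (.b b) ∉ A := fun h =>
          Finset.disjoint_left.1 hdis h ((hmB _).2 ⟨b, rfl⟩)
        rw [hT _ _ (fun h => hyA h.1) (fun h => hbA h.2)] at hvb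
        refine TT_not_arc tb _ ι ?_ hvb
        rw [kdT_apply hι, kdT_apply hι]
        exact arcB_total hyb (h2 y (mem_filter.2 ⟨mem_univ _, hv⟩))
      | c =>
        rw [hT _ _ (fun h => hcA h.1) (fun h => hcB h.1)] at hvb
        refine TT_not_arc tb _ ι ?_ hvb
        rw [kdT_apply hι, kdT_apply hι]
        exact trivial

end Pool.Agent.DG
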